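import Pool.Agent.Lib.MP_b5021c_nt.KO.H57.T2t

/-!
# MP_b5021c_nt, K ODD, l = 3, ALPHA, row T2 on an element with a closed triple (helper57)

`G` in `DD` over `ℤ` with the closed triple `r i` at the loads `e i`, class `V(N)`, rank `2N - 1`,
`N ≥ 3`, lowering load one, no small factor of the `(eta, eta)`-closing: `G` is terminal, or
`p = N`, `g = 1` and `G` is z-free.
-/

namespace Pool.Agent.B5.KO57

open scoped LaurentPolynomial
open Polynomial Pool.Agent.B5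
open Pool.Agent.MP_b5021c_nt (Eis)
open Pool.Agent.MP_b5021c_nt.Ire (bc)
open Pool.Agent.B5.H25.Bch
open Pool.Agent.B5.BP90 (Et pE pE_inj embN et_im_ne)
open Pool.Agent.B5.BP57
open Pool.Agent.B5.KO.H71

/-- the exponents on the ports of two rays of the triple are their combinations. -/
def ImT {P L : Type} [Fintype P] [DecidableEq P] [AddCommGroup L] (phi : L →+ (P → ℤ))
    (r : ZMod 3 → L) : Prop :=
  ∀ i k, i ≠ k → ∀ b : L, (∀ p, phi (r i) p = 0 → phi (r k) p = 0 → phi b p = 0) →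
    ∃ x y : ℤ, b = x • r i + y • r k

/-- TERMINAL, coefficient by coefficient. -/
def TerC {O : Type} [CommRing O] {P L : Type} [Fintype P] [DecidableEq P] [AddCommGroup L]
    (phi : L →+ (P → ℤ)) (G : AO O L) (r : ZMod 3 → L) (e : ZMod 3 → (RO O)ˣ)
    (mu : ZMod 3 → L →+ ℤ) : Prop :=
  (∀ u, Fr phi r mu u →
      (e 0 : RO O) * ((e 1 : RO O) * ((e 2 : RO O) * G.coeff (u + r 2 + r 0 + r 1))) =
        G.coeff u + 3 * ((e 0 : RO O) * G.coeff (u + r 0))) ∧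
    ∀ b ∈ supp G, (∀ i, mu i b = 0) →
      Fr phi r mu b ∨ ∃ u, Fr phi r mu u ∧ b = u + r 2 + r 0 + r 1

/-- no small factor of the `(eta, eta)`-closing of `r 1`, `r 0` (a content `c0` of the first
closing is allowed). -/
def Nsm {P L : Type} [Fintype P] [DecidableEq P] [AddCommGroup L] [Module.Free ℤ L]
    [Module.Finite ℤ L] (phi : L →+ (P → ℤ)) (G : AO ℤ L) (r : ZMod 3 → L)
    (e : ZMod 3 → (RO ℤ)ˣ) : Prop :=
  ∀ (i0 i1 : P) (et : Eis) (k0 k1 : (RO Eis)ˣ) (h0 : co phi i0 (r 1) = 1)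
    (R1' : Ker (co phi i0)) (h1 : co (phO phi (r 1) i0) i1 R1' = 1) (c0 : RO Eis)
    (H : AO Eis (Ker (co phi i0))) (c : RO Eis) (n : ℕ)
    (F : Fin n → AO Eis (Ker (co (phO phi (r 1) i0) i1))),
    Et et → (k0 : RO Eis) = LaurentPolynomial.C et * bcR (e 1 : RO ℤ) →
    (k1 : RO Eis) = LaurentPolynomial.C et * bcR (e 0 : RO ℤ) → (R1' : L) = r 0 → c0 ≠ 0 →
    cl (co phi i0) (r 1) h0 k0 (bc G) = cst c0 * H →
    FD (phO phi (r 1) i0) H R1' i1 k1 h1 c n F → snp (phO phi (r 1) i0) R1' i1 F = ∅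

section

variable {P L : Type} [Fintype P] [DecidableEq P] [AddCommGroup L] [Module.Free ℤ L]
  [Module.Finite ℤ L] {phi : L →+ (P → ℤ)}

/-- `ImS` of one ray of the triple. -/
theorem im_one {O : Type} [CommRing O] [IsDomain O] [IsPrincipalIdealRing O] [Coef O]
    {G : AO O L} {r : ZMod 3 → L} {e : ZMod 3 → (RO O)ˣ} {mu : ZMod 3 → L →+ ℤ}
    (h : Tri phi G r e mu) (hI : Function.Injective phi) (him : ImT phi r) (i : ZMod 3) :
    ImS phi (r i) := by
  intro b hb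
  obtain ⟨x, y, hxy⟩ := him i (i + 1) (z3e i) b (fun p h1 _ => hb p h1)
  obtain ⟨q, hq⟩ := h.port hI (i + 1)
  have h1 : phi (r i) q = 0 := (h.dis i (i + 1) (z3e i) q).resolve_right (by rw [hq]; norm_num)
  have h2 := hb q h1
  rw [hxy] at h2
  simp only [map_add, map_zsmul, Pi.add_apply, Pi.smul_apply, h1, hq, smul_eq_mul] at h2
  have h3 : y = 0 := by linarith
  exact ⟨x, by rw [hxy, h3, zero_smul, add_zero]⟩

/-- `ImS` of a second ray after the closing of the first one. -/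
theorem im_two {r : ZMod 3 → L} (him : ImT phi r) {i k : ZMod 3} (hik : i ≠ k) {i0 : P}
    (hi0 : phi (r k) i0 = 1) (hi1 : phi (r i) i0 = 0) {R' : Ker (co phi i0)}
    (hR : (R' : L) = r i) :
    ImS (phO phi (r k) i0) R' := by
  intro b hb
  obtain ⟨x, y, hxy⟩ := him i k hik (b : L) (fun p h1 h2 => by
    have h3 := hb p (by
      change (if phi (r k) p = 0 then phi (R' : L) p else 0) = 0
      rw [if_pos h2, hR, h1])
    have h4 : (if phi (r k) p = 0 then phi (b : L) p else 0) = 0 := h3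
    rwa [if_pos h2] at h4)
  have h5 : phi (b : L) i0 = 0 := b.2
  rw [hxy] at h5
  simp only [map_add, map_zsmul, Pi.add_apply, Pi.smul_apply, hi0, hi1, smul_eq_mul] at h5
  have h3 : y = 0 := by linarith
  refine ⟨x, Subtype.ext ?_⟩
  rw [Submodule.coe_smul, hR, hxy, h3, zero_smul, add_zero]

variable {G : AO ℤ L} {r : ZMod 3 → L} {e : ZMod 3 → (RO ℤ)ˣ} {mu : ZMod 3 → L →+ ℤ}

/-- two rays of the triple are mutual. -/
theorem tri_mut (h : Tri phi G r e mu) (hray : ∀ i, Ray G (r i)) {i k : ZMod 3} (hik : i ≠ k) :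
    Mut G (r i) (r k) (e i) (e k) := by
  have key : ∀ i k : ZMod 3, i ≠ k → r k ∉ US (e i) (r i) G := by
    intro i k hik h1
    have h2 := h.us i _ h1
    rcases z3h i k with h3 | h3 | h3
    · exact hik h3.symm
    · rw [h3, h.nxt i] at h2; exact absurd h2 (by norm_num)
    · rw [h3, h.prv i] at h2; exact absurd h2 (by norm_num)
  exact ⟨hray i, hray k, key i k hik, key k i hik.symm⟩

/-- ROW T2 ON A CLOSED TRIPLE. -/
theorem tri_t2 (hG1 : G1pS) (hR : ResWDS) (hRS : ResStS) (hEv : EvS) (hEvm : EvmS)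
    (hFcl : FclS) (hCno : Cno.CnoS) (hMfc : MfcS) (hMp : MpaS)
    (hFD : FDS) (hE2 : E2S) (hVZ : VZS) (hU : UnitRS) (hMV : MVS)
    (hE1 : E1S) (hM1 : M1S) (hMm : MmulS) (hG0 : G0S) (hC0 : Coeff0S) (hW : WWfS)
    (hRF : RayFacS) (hQst : QstS) (hQra : QraS) (hMin : MinS) (hB5 : B5aS) (hRk : RkS)
    (hKm : KmuS) (hQc : Qc3S) (hDv : Dv3S) (hNd : Nd3vS) (hLMN : LMNS) (hUS : RkUSS)
    (hD2 : D2S) (hF1 : F1S) (hF2 : F2S) (hMco : McoS)
    (h : Tri phi G r e mu) (hD : DD phi G) (hray : ∀ i, Ray G (r i)) (him : ImT phi r) {N : ℕ}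
    (hN : 3 ≤ N) (hr : Module.finrank ℤ L + 1 = 2 * N) (hcv : ClassV N (G.coeff 0))
    {w : (RO ℤ)ˣ} {p g : ℤ[X]}
    (hp : (w : RO ℤ) * G.coeff 0 = toLaurent p) (hp0 : p.coeff 0 = N)
    (hg : (w : RO ℤ) * ((e 0 : RO ℤ) * G.coeff (r 0)) = -toLaurent g) (hg0 : g.coeff 0 = 1)
    (hns : Nsm phi G r e) :
    TerC phi G r e mu ∨ (p = C (N : ℤ) ∧ g = 1 ∧ ZFree G) := by
  classical
  have hI := hD.inj
  have hb := hD.bin
  obtain ⟨j0, h0⟩ := h.port hI 0
  obtain ⟨j1, h1⟩ := h.port hI 1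
  -- ports
  have p10 : phi (r 1) j0 = 0 := (h.dis 0 1 (by decide) j0).resolve_left (by rw [h0]; norm_num)
  have p20 : phi (r 2) j0 = 0 := (h.dis 0 2 (by decide) j0).resolve_left (by rw [h0]; norm_num)
  have p01 : phi (r 0) j1 = 0 := (h.dis 1 0 (by decide) j1).resolve_left (by rw [h1]; norm_num)
  have p21 : phi (r 2) j1 = 0 := (h.dis 1 2 (by decide) j1).resolve_left (by rw [h1]; norm_num)
  obtain ⟨et, he⟩ : ∃ et : Eis, Et et := ⟨_, BP90.et_g6⟩
  obtain ⟨eu, heu⟩ : IsUnit et := IsUnit.of_mul_eq_one _ (et_mul he)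
  have huk : ∀ e' : (RO ℤ)ˣ, ∃ k : (RO Eis)ˣ, (k : RO Eis) =
      LaurentPolynomial.C et * bcR (e' : RO ℤ) := fun e' =>
    ⟨Units.map (LaurentPolynomial.C : Eis →+* RO Eis) eu * bcU e', by
      rw [Units.val_mul, H09.bcU_val]
      change LaurentPolynomial.C ((eu : Eisˣ) : Eis) * _ = _
      rw [heu]⟩
  obtain ⟨k0, hk0⟩ := huk (e 1)
  obtain ⟨k1, hk1⟩ := huk (e 0)
  have hh0 : co phi j1 (r 1) = 1 := h1
  obtain ⟨R1', hR1⟩ : ∃ R1' : Ker (co phi j1), (R1' : L) = r 0 := ⟨⟨r 0, p01⟩, rfl⟩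
  have hphO : ∀ (a : Ker (co phi j1)) (q : P), phi (r 1) q = 0 →
      phO phi (r 1) j1 a q = phi (a : L) q := by
    intro a q hq
    change (if phi (r 1) q = 0 then phi (a : L) q else 0) = _
    rw [if_pos hq]
  have hh1 : co (phO phi (r 1) j1) j0 R1' = 1 := by
    change phO phi (r 1) j1 R1' j0 = 1
    rw [hphO R1' j0 p10, hR1, h0]
  have hmut := tri_mut h hray (i := 1) (k := 0) (by decide)
  have hmut' := tri_mut h hray (i := 0) (k := 1) (by decide)
  have hI0 := im_one h hI him 0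
  have hI1 := im_one h hI him 1
  have hI1' := im_two him (i := 0) (k := 1) (by decide) h1 p01 hR1
  -- coefficients of the triple
  have fr0 : Fr phi r mu 0 := by
    refine ⟨fun i q => Or.inl ?_, fun i => map_zero _⟩
    rw [map_zero]
    rfl
  have g1 : (w : RO ℤ) * ((e 1 : RO ℤ) * G.coeff (r 1)) = -toLaurent g := by
    have h2 := h.all_eq hF1 hI hb fr0 0 1
    rw [zero_add, zero_add] at h2
    rw [← h2]
    exact hg
  have g2 : (w : RO ℤ) * ((e 2 : RO ℤ) * G.coeff (r 2)) = -toLaurent g := by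
    have h2 := h.all_eq hF1 hI hb fr0 0 2
    rw [zero_add, zero_add] at h2
    rw [← h2]
    exact hg
  have g12 : (w : RO ℤ) * ((e 1 : RO ℤ) * ((e 2 : RO ℤ) * G.coeff (r 2 + r 1))) =
      toLaurent g := by
    have h2 := h.pair hF1 hI hb fr0 (i := 2) (j := 1) (by decide) 0
    rw [zero_add, zero_add] at h2
    linear_combination (w : RO ℤ) * h2 - hg
  have g02 : (w : RO ℤ) * ((e 0 : RO ℤ) * ((e 2 : RO ℤ) * G.coeff (r 2 + r 0))) =
      toLaurent g := by
    have h2 := h.pair hF1 hI hb fr0 (i := 2) (j := 0) (by decide) 0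
    rw [zero_add, zero_add] at h2
    linear_combination (w : RO ℤ) * h2 - hg
  -- the first closing
  obtain ⟨hH, -, -, -, -⟩ := eta_mut hFD hE2 hVZ hU hMV hE1 hM1 hMm hG0 hC0 hW hRF hQst
    hQra hMin hB5 hRk hKm hQc hDv hNd hLMN hUS hD2 hF1 hF2 hMco he hk0 hk1 hD (by omega)
    (by omega) hcv hmut hI1 hI0 hp hp0 g1 hg0 hR1 (h0 := hh0)
  have hfull := BP12.t2_full hMp hKm hRk hD (T := r 1) (b := r 0) (hT := hh0) (ib := j0) h0 hmut'
    (h.dis 1 0 (by decide)) (h.t2f hF1 hD) he hk0 hk1 hR1 (hj := hh1) hH.bin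
  obtain ⟨x2, hx2⟩ : ∃ x2 : Ker (co (phO phi (r 1) j1) j0), ((x2 : Ker (co phi j1)) : L) =
      r 2 := by
    refine ⟨⟨⟨r 2, p21⟩, ?_⟩, rfl⟩
    rw [mem_Ker]
    change phO phi (r 1) j1 ⟨r 2, p21⟩ j0 = 0
    rw [hphO _ j0 p10]
    exact p20
  have hmain := al_t2z hG1 hR hRS hEv hEvm hFcl hCno hMfc hFD hE2 hVZ hU hMV hE1 hM1 hMm hG0 hC0
    hW hRF hQst hQra hMin hB5 hRk hKm hQc hDv hNd hLMN hUS hD2 hF1 hF2 hMco he hk0 hk1 hD hN hr
    hcv hmut hI1 hI0 hp hp0 g1 hg0 hR1 (h1 := hh1) hI1' hfull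
    (fun c n F fd => hns j1 j0 et k0 k1 hh0 R1' hh1 1 _ c n F he hk0 hk1 hR1 one_ne_zero
      (by
        have h2 : (cst (1 : RO Eis) : AO Eis (Ker (co phi j1))) = 1 := rfl
        rw [h2, one_mul]) fd) hx2 g2 g12 g02 rfl
  -- the coefficients of the double closing
  have hco : ∀ a : Ker (co (phO phi (r 1) j1) j0),
      (cl (co (phO phi (r 1) j1) j0) R1' hh1 k1 (cl (co phi j1) (r 1) hh0 k0 (bc G))).coeff a =
        t2co et G r e ((a : Ker (co phi j1)) : L) := by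
    intro a
    rw [BP12.dco hb hR1 hH.bin a, hk0, hk1]
    rfl
  have hmk : ∀ a : L, phi a j0 = 0 → phi a j1 = 0 →
      (((prj (co (phO phi (r 1) j1) j0) R1' hh1 (prj (co phi j1) (r 1) hh0 a) :
        Ker (co (phO phi (r 1) j1) j0)) : Ker (co phi j1)) : L) = a := by
    intro a ha0 ha1
    have q1 : ((prj (co phi j1) (r 1) hh0 a : Ker (co phi j1)) : L) = a := by
      rw [prj_coe]
      have : co phi j1 a = 0 := ha1
      rw [this, zero_smul, sub_zero]
    have q2 : co (phO phi (r 1) j1) j0 (prj (co phi j1) (r 1) hh0 a) = 0 := by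
      change phO phi (r 1) j1 (prj (co phi j1) (r 1) hh0 a) j0 = 0
      rw [hphO _ j0 p10, q1]
      exact ha0
    rw [prj_coe, q2, zero_smul, sub_zero, q1]
  rcases hmain with ⟨hm, d, s, e', G', hd, he1, hs, hzG', hcl⟩ | ⟨hpN, hg1, hz⟩
  · left
    obtain ⟨q, lm, n, hq, hG'⟩ := zfree_co' hzG'
    have hW0 : (w : RO ℤ) ≠ 0 := w.ne_zero
    have hm0 : (e 0 : RO ℤ) * ((e 1 : RO ℤ) * ((e 2 : RO ℤ) * G.coeff (r 2 + r 0 + r 1))) =
        G.coeff 0 + 3 * ((e 0 : RO ℤ) * G.coeff (r 0)) := by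
      apply mul_left_cancel₀ hW0
      rw [map_sub, map_mul, map_ofNat] at hm
      linear_combination hm - hp - 3 * hg
    have hG00 : G.coeff 0 ≠ 0 := by
      intro h2
      rw [h2, mul_zero] at hp
      have h3 := (toLaurent_eq_zero (f := p)).mp hp.symm
      rw [h3, coeff_zero] at hp0
      have : (0 : ℤ) < N := by exact_mod_cast (by omega : 0 < N)
      omega
    exact ter_exc h hF1 hI hb hU he h0 h1 hG00 hq (s := s) (e' := e') (d := d)
      (lm := lm.comp ((prj (co (phO phi (r 1) j1) j0) R1' hh1).comp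
        (prj (co phi j1) (r 1) hh0))) (n := n) he1 hs hd (fun a ha0 ha1 => by
          obtain ⟨c, l, h2, h3⟩ := hG' (prj (co (phO phi (r 1) j1) j0) R1' hh1
            (prj (co phi j1) (r 1) hh0 a))
          refine ⟨c, l, ?_, h3⟩
          have h4 := hco (prj (co (phO phi (r 1) j1) j0) R1' hh1
            (prj (co phi j1) (r 1) hh0 a))
          rw [hmk a ha0 ha1, hcl, H78.cstm, h2] at h4
          exact h4.symm) hm0
  · right
    refine ⟨hpN, hg1, ?_⟩
    obtain ⟨q, lm, n, hq, hz'⟩ := hz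
    refine zf_desc h hF1 hI hb hU he h0 h1 (hray 0).1 hq
      (lm := lm.comp ((prj (co (phO phi (r 1) j1) j0) R1' hh1).comp
        (prj (co phi j1) (r 1) hh0))) (n := n) (fun a ha0 ha1 k hk => ?_)
    have h4 := hco (prj (co (phO phi (r 1) j1) j0) R1' hh1 (prj (co phi j1) (r 1) hh0 a))
    rw [hmk a ha0 ha1] at h4
    rw [← h4] at hk
    exact hz' _ k hk

end

end Pool.Agent.B5.KO57
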