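import Pool.Agent.Lib.MP_b5021c_nt.KO.H57.T2w
import Pool.Agent.Lib.MP_b5021c_nt.KO.H90.I1c

/-!
# MP_b5021c_nt, K ODD, l = 3, ALPHA, row T2L on an element with a closed triple (helper57)

`G` in `DD` over `ℤ` with a closed triple, class `V(M)`, rank `2M - 2`, lowering load `l`,
`2 ≤ l ≤ M - 2`, no small factor of the `(eta, eta)`-closing, one class of exponents divisible by
`1 + z`: impossible.
-/

namespace Pool.Agent.B5.KO57

open scoped LaurentPolynomial
open Polynomial Pool.Agent.B5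
open Pool.Agent.MP_b5021c_nt (Eis)
open Pool.Agent.MP_b5021c_nt.Ire (bc)
open Pool.Agent.B5.H25.Bch
open Pool.Agent.B5.BP90 (Et pE pE_inj embN et_im_ne)
open Pool.Agent.B5.BP57
open Pool.Agent.B5.KO.H71

section

variable {O : Type} [CommRing O] [IsDomain O] [IsPrincipalIdealRing O] [Coef O]

theorem nfE {p : RO O} (hp : p ≠ 0) : ∃ (n : ℤ) (g : O[X]), g.coeff 0 ≠ 0 ∧
    p = LaurentPolynomial.T n * toLaurent g := by
  obtain ⟨j, b, hb⟩ := LaurentPolynomial.exists_T_pow p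
  have hb0 : b ≠ 0 := by
    rintro rfl
    rw [map_zero] at hb
    have h2 := (LaurentPolynomial.isUnit_T (R := O) (j : ℤ)).ne_zero
    rcases mul_eq_zero.1 hb.symm with h | h
    · exact hp h
    · exact h2 h
  obtain ⟨k, hk⟩ : ∃ k : ℕ, ∃ g : O[X], g.coeff 0 ≠ 0 ∧ b = X ^ k * g := by
    refine ⟨b.natTrailingDegree, ?_⟩
    obtain ⟨g, hg⟩ := (X_pow_dvd_iff (f := b) (n := b.natTrailingDegree)).2
      (fun d hd => coeff_eq_zero_of_lt_natTrailingDegree hd)
    refine ⟨g, ?_, hg⟩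
    intro h0
    obtain ⟨k, hk⟩ : ∃ k, k = b.natTrailingDegree := ⟨_, rfl⟩
    rw [← hk] at hg
    have h1 : b.coeff k = 0 := by
      rw [hg, coeff_X_pow_mul', if_pos le_rfl, Nat.sub_self, h0]
    rw [hk] at h1
    exact hb0 (trailingCoeff_eq_zero.1 h1)
  obtain ⟨g, hg0, hg⟩ := hk
  refine ⟨(k : ℤ) - j, g, hg0, ?_⟩
  have h2 : (LaurentPolynomial.T (-(j : ℤ)) * LaurentPolynomial.T (j : ℤ) : RO O) = 1 := by
    rw [← LaurentPolynomial.T_add]
    simp
  have h3 : p = LaurentPolynomial.T (-(j : ℤ)) * (p * LaurentPolynomial.T (j : ℤ)) := by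
    linear_combination (-p) * h2
  rw [h3, ← hb, hg, map_mul, toLaurent_X_pow, sub_eq_add_neg, LaurentPolynomial.T_add]
  ring

/-- A content in polynomials. -/
theorem content_split (hU : UnitRS) {w : (RO O)ˣ} {c0 H0 Hb : RO O} {q f : O[X]}
    (hq : (w : RO O) * (c0 * H0) = toLaurent q) (hf : (w : RO O) * (c0 * Hb) = -toLaurent f)
    (hq0 : q.coeff 0 ≠ 0) :
    ∃ (w2 : (RO O)ˣ) (cp h b : O[X]), (w2 : RO O) * H0 = toLaurent h ∧
      (w2 : RO O) * Hb = -toLaurent b ∧ q = cp * h ∧ f = cp * b := by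
  have hqne : (toLaurent q : RO O) ≠ 0 := by
    intro h1
    rw [(toLaurent_eq_zero (f := q)).mp h1, coeff_zero] at hq0
    exact hq0 rfl
  have hc0 : c0 ≠ 0 := by
    rintro rfl
    rw [zero_mul, mul_zero] at hq
    exact hqne hq.symm
  have hH0 : H0 ≠ 0 := by
    rintro rfl
    rw [mul_zero, mul_zero] at hq
    exact hqne hq.symm
  obtain ⟨k, c', hc', hck⟩ := nfE hc0
  obtain ⟨m, h, hh0, hm⟩ := nfE hH0
  obtain ⟨a, s, hs, hwa⟩ := (hU O _).mp w.isUnit
  have e1 : (LaurentPolynomial.T (a + k + m) : RO O) * toLaurent (C s * c' * h) =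
      LaurentPolynomial.T 0 * toLaurent q := by
    rw [← hq, hwa, hck, hm, map_mul, map_mul, toLaurent_C, LaurentPolynomial.T_add,
      LaurentPolynomial.T_add, LaurentPolynomial.T_zero]
    ring
  have hs0 : s ≠ 0 := hs.ne_zero
  obtain ⟨e2, e3⟩ := H09.nf_unique (a + k + m) 0 (C s * c' * h) q (by
    rw [mul_assoc, coeff_C_mul, mul_coeff_zero]
    exact mul_ne_zero hs0 (mul_ne_zero hc' hh0)) hq0 e1
  obtain ⟨w2, hw2⟩ : ∃ w2 : (RO O)ˣ, (w2 : RO O) = LaurentPolynomial.T (-m) :=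
    ⟨(LaurentPolynomial.isUnit_T (-m)).unit, rfl⟩
  have hTm : (LaurentPolynomial.T (-m) * LaurentPolynomial.T m : RO O) = 1 := by
    rw [← LaurentPolynomial.T_add]
    simp
  have hw2H : (w2 : RO O) * H0 = toLaurent h := by
    rw [hw2, hm]
    linear_combination (toLaurent h) * hTm
  by_cases hHb : Hb = 0
  · refine ⟨w2, C s * c', h, 0, hw2H, ?_, e3.symm, ?_⟩
    · rw [hHb, mul_zero, map_zero, neg_zero]
    · rw [hHb, mul_zero, mul_zero] at hf
      rw [mul_zero]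
      exact (toLaurent_eq_zero (f := f)).mp (neg_eq_zero.mp hf.symm)
  obtain ⟨n, b', hb', hn⟩ := nfE hHb
  have e4 : (LaurentPolynomial.T (n - m) : RO O) * toLaurent (C s * c' * b') =
      -toLaurent f := by
    have e5 : n - m = a + k + n := by omega
    rw [← hf, hwa, hck, hn, map_mul, map_mul, toLaurent_C, e5, LaurentPolynomial.T_add,
      LaurentPolynomial.T_add]
    ring
  have hne : (C s * c' * b').coeff 0 ≠ 0 := by
    rw [mul_assoc, coeff_C_mul, mul_coeff_zero]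
    exact mul_ne_zero hs0 (mul_ne_zero hc' hb')
  have hnm : 0 ≤ n - m := by
    by_contra hcon
    obtain ⟨t, ht⟩ : ∃ t : ℕ, (t : ℤ) = m - n := ⟨(m - n).toNat, Int.toNat_of_nonneg (by omega)⟩
    have ht1 : t ≠ 0 := by omega
    have e6 : toLaurent (C s * c' * b') = toLaurent (-(X ^ t * f)) := by
      rw [map_neg, map_mul toLaurent (X ^ t) f, toLaurent_X_pow]
      have e7 : (LaurentPolynomial.T (t : ℤ) * LaurentPolynomial.T (n - m) : RO O) = 1 := by
        rw [← LaurentPolynomial.T_add, ht]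
        simp
      linear_combination (LaurentPolynomial.T (t : ℤ)) * e4 -
        (toLaurent (C s * c' * b')) * e7
    have e8 := toLaurent_injective e6
    apply hne
    rw [e8, coeff_neg, mul_coeff_zero, coeff_X_pow, if_neg (fun h => ht1 h.symm), zero_mul,
      neg_zero]
  obtain ⟨t, ht⟩ : ∃ t : ℕ, (t : ℤ) = n - m := ⟨(n - m).toNat, Int.toNat_of_nonneg hnm⟩
  refine ⟨w2, C s * c', h, -(X ^ t * b'), hw2H, ?_, e3.symm, ?_⟩
  · rw [hw2, hn, map_neg, map_mul, toLaurent_X_pow, ht, neg_neg, sub_eq_add_neg,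
      LaurentPolynomial.T_add]
    ring
  · apply toLaurent_injective
    rw [← ht] at e4
    rw [map_mul toLaurent (C s * c') (-(X ^ t * b')), map_neg, map_mul toLaurent (X ^ t) b',
      toLaurent_X_pow]
    rw [map_mul toLaurent (C s * c') b'] at e4
    linear_combination e4

/-- The apex of a closing is zero-free in the open disc. -/
theorem apex_zf (hE2 : E2S) (hVZ : VZS) (hU : UnitRS) {P L : Type} [Fintype P] [DecidableEq P]
    [AddCommGroup L] [Module.Free ℤ L] [Module.Finite ℤ L] {phi : L →+ (P → ℤ)} {H : AO O L}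
    {b : L} {w u : (RO O)ˣ} {c0 : RO O} {q f : O[X]} (hD : DD phi H)
    (hrk : 2 ≤ Module.finrank ℤ L) (hS : Ray H b)
    (hq : (w : RO O) * (c0 * H.coeff 0) = toLaurent q)
    (hf : (w : RO O) * (c0 * ((u : RO O) * H.coeff b)) = -toLaurent f)
    (hq0 : q.coeff 0 ≠ 0) (hz : ZF (q.map Coef.emb)) : ZF ((q - f).map Coef.emb) := by
  obtain ⟨w2, cp, h, b', h1, h2, h3, h4⟩ := content_split hU hq hf hq0
  have hz1 : ∀ z : ℂ, ‖z‖ < 1 → (cp.map (Coef.emb : O →+* ℂ)).eval z ≠ 0 ∧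
      (h.map (Coef.emb : O →+* ℂ)).eval z ≠ 0 := by
    intro z hz'
    have h5 := hz z hz'
    rw [h3, Polynomial.map_mul, eval_mul] at h5
    exact ⟨left_ne_zero_of_mul h5, right_ne_zero_of_mul h5⟩
  obtain ⟨-, -, hlt⟩ := ray_polyU hE2 hVZ hD hrk hS h1 h2 (fun z hz' => (hz1 z hz').2)
  intro z hz' h0
  rw [h3, h4, ← mul_sub, Polynomial.map_mul, Polynomial.map_sub, eval_mul, eval_sub] at h0
  rcases mul_eq_zero.mp h0 with h5 | h5
  · exact (hz1 z hz').1 h5
  · have h6 := hlt z hz'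
    rw [sub_eq_zero.mp h5] at h6
    exact lt_irrefl _ h6

end

section

variable {P L : Type} [Fintype P] [DecidableEq P] [AddCommGroup L] [Module.Free ℤ L]
  [Module.Finite ℤ L] {phi : L →+ (P → ℤ)} {G : AO ℤ L} {r : ZMod 3 → L}
  {e : ZMod 3 → (RO ℤ)ˣ} {mu : ZMod 3 → L →+ ℤ}

theorem ro_zero {R : Type} [CommRing R] {F : LaurentPolynomial R} (h : ∀ k, F.coeff k = 0) :
    F = 0 := by
  apply AddMonoidAlgebra.ext
  apply Finsupp.ext
  intro k
  exact h k

/-- The class of an exponent has a non-zero coefficient in the `(eta, eta)`-closing. -/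
theorem t2_ne (h : Tri phi G r e mu) (hF1 : F1S) (hI : Function.Injective phi)
    (hb : ∀ a ∈ supp G, Bin phi a) {et : Eis} (he : Et et) {j0 j1 : P}
    (h0 : phi (r 0) j0 = 1) (h1 : phi (r 1) j1 = 1) {b : L} (hbs : b ∈ supp G) :
    phi (b - phi b j0 • r 0 - phi b j1 • r 1) j0 = 0 ∧
    phi (b - phi b j0 • r 0 - phi b j1 • r 1) j1 = 0 ∧
    t2co et G r e (b - phi b j0 • r 0 - phi b j1 • r 1) ≠ 0 := by
  have p10 : phi (r 1) j0 = 0 := (h.dis 0 1 (by decide) j0).resolve_left (by rw [h0]; norm_num)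
  have p01 : phi (r 0) j1 = 0 := (h.dis 1 0 (by decide) j1).resolve_left (by rw [h1]; norm_num)
  obtain ⟨sb, hsb⟩ : ∃ sb, sb = phi b j1 := ⟨_, rfl⟩
  obtain ⟨tb, htb⟩ : ∃ tb, tb = phi b j0 := ⟨_, rfl⟩
  rw [← hsb, ← htb]
  obtain ⟨x, hx⟩ : ∃ x, x = b - tb • r 0 - sb • r 1 := ⟨_, rfl⟩
  rw [← hx]
  have hbx : x + tb • r 0 + sb • r 1 = b := by rw [hx]; abel
  have hx0 : phi x j0 = 0 := by
    simp only [hx, map_sub, map_zsmul, Pi.sub_apply, Pi.smul_apply, smul_eq_mul, h0, p10, ← htb]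
    ring
  have hx1 : phi x j1 = 0 := by
    simp only [hx, map_sub, map_zsmul, Pi.sub_apply, Pi.smul_apply, smul_eq_mul, h1, p01, ← hsb]
    ring
  refine ⟨hx0, hx1, fun h2 => ?_⟩
  have hsb1 : sb = 0 ∨ sb = 1 := by rw [hsb]; exact hb b hbs j1
  have htb1 : tb = 0 ∨ tb = 1 := by rw [htb]; exact hb b hbs j0
  by_cases hex : Fr phi r mu x ∨ Fr phi r mu (x - r 2)
  · rcases hex with hu | hu
    · have k1 : G.coeff x = 0 := ro_zero fun k =>
        (t2co_u h hF1 hI hb he hu k (by rw [h2]; rfl)).1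
      have k2 : (e 0 : RO ℤ) * G.coeff (x + r 0) = 0 := ro_zero fun k =>
        (t2co_u h hF1 hI hb he hu k (by rw [h2]; rfl)).2
      have k3 := h.all_eq hF1 hI hb hu 0 1
      have k4 := h.pair hF1 hI hb hu (i := 0) (j := 1) (by decide) 0
      rw [k2] at k3 k4
      apply hbs
      rw [← hbx]
      rcases htb1 with ht | ht <;> rcases hsb1 with hs' | hs' <;> rw [ht, hs']
      · rw [zero_smul, zero_smul, add_zero, add_zero]; exact k1
      · rw [zero_smul, one_smul, add_zero]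
        exact (mul_eq_zero.mp k3.symm).resolve_left (e 1).ne_zero
      · rw [zero_smul, one_smul, add_zero]
        exact (mul_eq_zero.mp k2).resolve_left (e 0).ne_zero
      · rw [one_smul, one_smul]
        rw [neg_zero] at k4
        exact (mul_eq_zero.mp k4).resolve_left (mul_ne_zero (e 0).ne_zero (e 1).ne_zero)
    · obtain ⟨u, rfl⟩ : ∃ u, x = u + r 2 := ⟨x - r 2, by abel⟩
      rw [add_sub_cancel_right] at hu
      have k1 : (e 0 : RO ℤ) * G.coeff (u + r 0) = 0 := ro_zero fun k =>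
        (t2co_r h hF1 hI hb he hu k (by rw [h2, mul_zero]; rfl)).1
      have k2 : (e 0 : RO ℤ) * ((e 1 : RO ℤ) * ((e 2 : RO ℤ) *
        G.coeff (u + r 2 + r 0 + r 1))) = 0 := ro_zero fun k =>
        (t2co_r h hF1 hI hb he hu k (by rw [h2, mul_zero]; rfl)).2
      have k3 := h.all_eq hF1 hI hb hu 0 2
      have k4 := h.pair hF1 hI hb hu (i := 2) (j := 0) (by decide) 0
      have k5 := h.pair hF1 hI hb hu (i := 2) (j := 1) (by decide) 0
      rw [k1] at k3 k4 k5
      rw [neg_zero] at k4 k5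
      apply hbs
      rw [← hbx]
      rcases htb1 with ht | ht <;> rcases hsb1 with hs' | hs' <;> rw [ht, hs']
      · rw [zero_smul, zero_smul, add_zero, add_zero]
        exact (mul_eq_zero.mp k3.symm).resolve_left (e 2).ne_zero
      · rw [zero_smul, one_smul, add_zero]
        exact (mul_eq_zero.mp k5).resolve_left (mul_ne_zero (e 2).ne_zero (e 1).ne_zero)
      · rw [zero_smul, one_smul, add_zero]
        exact (mul_eq_zero.mp k4).resolve_left (mul_ne_zero (e 2).ne_zero (e 0).ne_zero)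
      · rw [one_smul, one_smul]
        have k6 := (mul_eq_zero.mp k2).resolve_left (e 0).ne_zero
        have k7 := (mul_eq_zero.mp k6).resolve_left (e 1).ne_zero
        exact (mul_eq_zero.mp k7).resolve_left (e 2).ne_zero
  · have hmb : ∀ i, mu i (x + tb • r 0 + sb • r 1) = 0 := by
      by_contra hcon
      push Not at hcon
      exact hex (h.cls hF1 hI hb h0 h1 hx0 hx1 (by rw [hbx]; exact hbs) hcon)
    obtain ⟨c, c', E', k1, k2⟩ := t2one h hF1 hI hb he h0 h1 hx0 hx1 htb1 hsb1 hmb hex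
    rw [hbx, h2] at k2
    have hc : LaurentPolynomial.C c ≠ (0 : RO Eis) := by
      intro h3
      have h4 := congrArg (fun F : RO Eis => LaurentPolynomial.C c' * F) h3
      simp only [mul_zero] at h4
      rw [← map_mul, k1, map_one] at h4
      exact one_ne_zero h4
    have k3 := (mul_eq_zero.mp k2.symm).resolve_left hc
    have k4 : (E' : RO ℤ) * G.coeff b = 0 := bcR_inj (k3.trans (map_zero bcR).symm)
    exact hbs ((mul_eq_zero.mp k4).resolve_left E'.ne_zero)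

/-- ROW T2L ON A CLOSED TRIPLE. -/
theorem tri_t2l (hG1 : G1pS) (hR : ResWDS) (hRS : ResStS) (hEv : EvS) (hEvm : EvmS)
    (hFcl : FclS) (hMp : MpaS)
    (hFD : FDS) (hE2 : E2S) (hVZ : VZS) (hU : UnitRS) (hMV : MVS)
    (hE1 : E1S) (hMm : MmulS) (hG0 : G0S) (hC0 : Coeff0S) (hW : WWfS)
    (hMin : MinS) (hRk : RkS) (hKm : KmuS)
    (hD2 : D2S) (hF1 : F1S) (hF2 : F2S) (hMco : McoS)
    (h : Tri phi G r e mu) (hD : DD phi G) (hray : ∀ i, Ray G (r i)) (him : ImT phi r)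
    {M' l : ℕ} (h2 : 2 ≤ l) (hl : l + 2 ≤ M') (hr : Module.finrank ℤ L + 2 = 2 * M')
    {w : (RO ℤ)ˣ} {p g : ℤ[X]} (hpz : ZF (p.map Coef.emb))
    (hp : (w : RO ℤ) * G.coeff 0 = toLaurent p) (hp0 : p.coeff 0 = M')
    (hg : (w : RO ℤ) * ((e 0 : RO ℤ) * G.coeff (r 0)) = -toLaurent g) (hg0 : g.coeff 0 = l)
    (hns : Nsm phi G r e)
    (hx : ∃ b ∈ supp G, ∀ s t : ℤ,
      (1 + LaurentPolynomial.T 1 : RO ℤ) ∣ G.coeff (b + s • r 0 + t • r 1)) : False := by
  classical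
  have hI := hD.inj
  have hb := hD.bin
  obtain ⟨j0, h0⟩ := h.port hI 0
  obtain ⟨j1, h1⟩ := h.port hI 1
  have p10 : phi (r 1) j0 = 0 := (h.dis 0 1 (by decide) j0).resolve_left (by rw [h0]; norm_num)
  have p01 : phi (r 0) j1 = 0 := (h.dis 1 0 (by decide) j1).resolve_left (by rw [h1]; norm_num)
  obtain ⟨et, he⟩ : ∃ et : Eis, Et et := ⟨_, BP90.et_g6⟩
  obtain ⟨eu, heu⟩ : IsUnit et := IsUnit.of_mul_eq_one _ (et_mul he)
  have huk : ∀ e' : (RO ℤ)ˣ, ∃ k kap : (RO Eis)ˣ, kap * bcU e' = k ∧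
      (kap : RO Eis) = LaurentPolynomial.C et ∧
      (k : RO Eis) = LaurentPolynomial.C et * bcR (e' : RO ℤ) := fun e' =>
    ⟨Units.map (LaurentPolynomial.C : Eis →+* RO Eis) eu * bcU e',
      Units.map (LaurentPolynomial.C : Eis →+* RO Eis) eu, rfl, by
      change LaurentPolynomial.C ((eu : Eisˣ) : Eis) = _
      rw [heu], by
      rw [Units.val_mul, H09.bcU_val]
      change LaurentPolynomial.C ((eu : Eisˣ) : Eis) * _ = _
      rw [heu]⟩
  obtain ⟨k0, kap, hkap, hkapv, hk0⟩ := huk (e 1)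
  obtain ⟨k1, -, -, -, hk1⟩ := huk (e 0)
  have hh0 : co phi j1 (r 1) = 1 := h1
  obtain ⟨R1', hR1⟩ : ∃ R1' : Ker (co phi j1), (R1' : L) = r 0 := ⟨⟨r 0, p01⟩, rfl⟩
  have hphO : ∀ (a : Ker (co phi j1)) (q : P), phi (r 1) q = 0 →
      phO phi (r 1) j1 a q = phi (a : L) q := by
    intro a q hq
    change (if phi (r 1) q = 0 then phi (a : L) q else 0) = _
    rw [if_pos hq]
  have hh1 : co (phO phi (r 1) j1) j0 R1' = 1 := by
    change phO phi (r 1) j1 R1' j0 = 1
    rw [hphO R1' j0 p10, hR1, h0]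
  have hmut := tri_mut h hray (i := 1) (k := 0) (by decide)
  have hmut' := tri_mut h hray (i := 0) (k := 1) (by decide)
  have hI0 := im_one h hI him 0
  have hI1 := im_one h hI him 1
  have hI1' := im_two him (i := 0) (k := 1) (by decide) h1 p01 hR1
  have fr0 : Fr phi r mu 0 := by
    refine ⟨fun i q => Or.inl ?_, fun i => map_zero _⟩
    rw [map_zero]
    rfl
  have g1 : (w : RO ℤ) * ((e 1 : RO ℤ) * G.coeff (r 1)) = -toLaurent g := by
    have h2 := h.all_eq hF1 hI hb fr0 0 1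
    rw [zero_add, zero_add] at h2
    rw [← h2]
    exact hg
  have hrk2 : 2 ≤ Module.finrank ℤ L := by omega
  -- over `Eis`
  have hDb : DD phi (bc G) := dd_bc hD (by omega)
  have hmb : Mut (bc G) (r 1) (r 0) (bcU (e 1)) (bcU (e 0)) :=
    (H09.mut_bc G (r 1) (r 0) (e 1) (e 0)).mpr hmut
  have hTb : Tri phi (bc G) r (fun i => bcU (e i)) mu :=
    ⟨h.bin, h.dis, h.slf, h.nxt, h.prv, h.sum, fun i a ha => h.us i a (by
      rwa [H09.us_bc] at ha), fun i a ha => h.val i a (by rwa [supp_bc] at ha)⟩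
  have hkap1 : kap ≠ 1 := by
    intro h3
    apply et_ne_one he
    apply C_injL
    rw [← hkapv, h3, Units.val_one, map_one]
  obtain ⟨hRay, hR0, hR1c, hR01⟩ := mugg hD2 hF1 hF2 hMco hDb hmb hI1 hI0 (i0 := j1) hh0 hR1 hkap1
  rw [hkap] at hRay hR0 hR1c
  have hv0 := eta_v0 (E := G) hk0 hp g1
  have hgb : ((bcU w : (RO Eis)ˣ) : RO Eis) *
      (((bcU (e 1) : (RO Eis)ˣ) : RO Eis) * (bc G).coeff (r 1)) = -toLaurent (pE g) := by
    have h2 := congrArg bcR g1
    rw [map_mul, map_mul, map_neg, bcR_L] at h2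
    rw [H09.bcU_val, H09.bcU_val, bc_co]
    exact h2
  have hetc : LaurentPolynomial.C et * (1 - LaurentPolynomial.C et) = (1 : RO Eis) := by
    rw [← map_one LaurentPolynomial.C, ← map_sub, ← map_mul, et_mul he]
  have hv1 : ((bcU w : (RO Eis)ˣ) : RO Eis) *
      ((k1 : RO Eis) * (cl (co phi j1) (r 1) hh0 k0 (bc G)).coeff R1') = -toLaurent (pE g) := by
    rw [← hgb, hk1]
    rw [hkapv] at hR1c
    have h3 : bcR (e 0 : RO ℤ) = ((bcU (e 0) : (RO Eis)ˣ) : RO Eis) := rfl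
    rw [h3]
    linear_combination (((bcU w : (RO Eis)ˣ) : RO Eis) * LaurentPolynomial.C et) * hR1c +
      (((bcU w : (RO Eis)ˣ) : RO Eis) *
        (((bcU (e 1) : (RO Eis)ˣ) : RO Eis) * (bc G).coeff (r 1))) * hetc
  have hl0 : (0 : ℝ) < l := by exact_mod_cast (by omega : 0 < l)
  have hlM : (l : ℝ) + 2 ≤ M' := by exact_mod_cast hl
  have hvc : (pE p - C et * pE g).coeff 0 = ((M' : ℤ) : Eis) - et * ((l : ℤ) : Eis) := by
    rw [coeff_sub, coeff_C_mul, pE_coeff, pE_coeff, hp0, hg0]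
  have hvc2 : (pE p - C et * pE g - pE g).coeff 0 =
      ((M' : ℤ) : Eis) - (1 + et) * ((l : ℤ) : Eis) := by
    rw [coeff_sub, hvc, pE_coeff, hg0]
    ring
  have hvn : (pE p - C et * pE g).coeff 0 ≠ 0 := by
    intro h3
    rw [hvc] at h3
    have h4 := congrArg (fun x : Eis => ((Coef.emb x : ℂ)).re) h3
    simp only [map_sub, map_mul, embN, map_zero, Complex.sub_re, Complex.mul_re, he.re,
      Complex.zero_re, Complex.intCast_re, Complex.intCast_im, mul_zero, sub_zero] at h4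
    push_cast at h4
    nlinarith
  have hvn2 : (pE p - C et * pE g - pE g).coeff 0 ≠ 0 := by
    intro h3
    rw [hvc2] at h3
    have h4 := congrArg (fun x : Eis => ((Coef.emb x : ℂ)).im) h3
    simp only [map_sub, map_mul, map_add, map_one, embN, map_zero, Complex.sub_im, Complex.mul_im,
      Complex.add_im, Complex.one_im, Complex.zero_im, Complex.intCast_re, Complex.intCast_im,
      mul_zero, zero_add, zero_sub] at h4
    push_cast at h4
    have h5 : (Coef.emb et : ℂ).im = 0 := by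
      have h6 : (Coef.emb et : ℂ).im * l = 0 := by linarith
      exact (mul_eq_zero.mp h6).resolve_right hl0.ne'
    have h6 := he.im
    rw [h5] at h6
    norm_num at h6
  have hcne : ∀ {q : Eis[X]}, q.coeff 0 ≠ 0 → (toLaurent q : RO Eis) ≠ 0 := by
    intro q hq h3
    rw [(toLaurent_eq_zero (f := q)).mp h3, coeff_zero] at hq
    exact hq rfl
  -- the first closing
  obtain ⟨c1, n1, F1, fd1⟩ := hFD Eis P L phi (bc G) (r 1) j1 k0 hh0
    ⟨hDb, hrk2, (H09.ray_bc G (r 1)).mpr (hray 1), hh0, by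
      intro h3
      rw [h3, mul_zero] at hv0
      exact hcne hvn hv0.symm⟩
  have hle : k0 ≠ bcU (e 1) := by
    intro h3
    apply hkap1
    rw [← mul_eq_right (a := kap) (b := bcU (e 1)), hkap, h3]
  obtain ⟨hn1, -, hF⟩ := KO90.i1 hF1 hMin hC0 hW hG0 hRk hKm hTb 1 hI1 fd1 hle (by omega)
  subst hn1
  obtain ⟨hcl1, hDH⟩ := hF 0
  obtain ⟨H, hH⟩ : ∃ H, H = F1 0 := ⟨_, rfl⟩
  rw [← hH] at hcl1 hDH
  have hc1 := fd1.c0
  have hsup : supp (cl (co phi j1) (r 1) hh0 k0 (bc G)) = supp H := by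
    rw [hcl1, KO.H71.cst_supp hc1]
  have hRayH : Ray H R1' := by
    unfold Ray at hRay ⊢
    rwa [hsup] at hRay
  have hco1 : ∀ a, (cl (co phi j1) (r 1) hh0 k0 (bc G)).coeff a = c1 * H.coeff a := fun a => by
    rw [hcl1, KO.H71.cst_co]
  rw [hR0.symm, hco1] at hv0
  rw [hco1] at hv1
  have hv1' : ((bcU w : (RO Eis)ˣ) : RO Eis) * (c1 * ((k1 : RO Eis) * H.coeff R1')) =
      -toLaurent (pE g) := by
    rw [← hv1]
    ring
  have hap : ((bcU w : (RO Eis)ˣ) : RO Eis) *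
      (c1 * (H.coeff 0 + (k1 : RO Eis) * H.coeff R1')) =
        toLaurent (pE p - C et * pE g - pE g) := by
    rw [map_sub, ← hv0, sub_eq_add_neg, ← hv1']
    ring
  have hker := finrank_kerO hRk hh0
  -- the second closing
  obtain ⟨c2, n2, F2', fd2⟩ := hFD Eis P (Ker (co phi j1)) (phO phi (r 1) j1) H R1' j0 k1 hh1
    ⟨hDH, by omega, hRayH, hh1, by
      intro h3
      rw [h3, mul_zero, mul_zero] at hap
      exact hcne hvn2 hap.symm⟩
  have hs := hns j1 j0 et k0 k1 hh0 R1' hh1 c1 H c2 n2 F2' he hk0 hk1 hR1 hc1 hcl1 fd2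
  have hbH : ∀ a ∈ supp (cl (co phi j1) (r 1) hh0 k0 (bc G)), Bin (phO phi (r 1) j1) a := by
    rw [hsup]
    exact hDH.bin
  have hfull := BP12.t2_full hMp hKm hRk hD (T := r 1) (b := r 0) (hT := hh0) (ib := j0) h0 hmut'
    (h.dis 1 0 (by decide)) (h.t2f hF1 hD) he hk0 hk1 hR1 (hj := hh1) hbH
  have hcl2 : cl (co (phO phi (r 1) j1) j0) R1' hh1 k1 (cl (co phi j1) (r 1) hh0 k0 (bc G)) =
      cst c1 * cl (co (phO phi (r 1) j1) j0) R1' hh1 k1 H := by
    rw [hcl1, map_mul, H71.cl_cst]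
  rw [hcl2, KO.H71.cst_supp hc1] at hfull
  -- zeros
  obtain ⟨hpcl, -, hlt⟩ := ray_polyU hE2 hVZ hD hrk2 (hray 0) hp hg hpz
  have hzf := apex_zf hE2 hVZ hU hDH (by omega) hRayH hv0 hv1' hvn (eta_zf he hlt)
  have hz1 : ((pE p - C et * pE g - pE g).map (Coef.emb : Eis →+* ℂ)).eval (-1) ≠ 0 := by
    intro h3
    rw [Polynomial.map_sub, Polynomial.map_sub, Polynomial.map_mul, map_C, eval_sub, eval_sub,
      eval_mul, eval_C, pE_eval, pE_eval] at h3
    have hint : ∀ f : ℤ[X], (f.map (Coef.emb : ℤ →+* ℂ)).eval (-1) = ((f.eval (-1) : ℤ) : ℂ) := by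
      intro f
      have h4 : (-1 : ℂ) = (Coef.emb : ℤ →+* ℂ) (-1) := by rw [map_neg, map_one]
      rw [h4, eval_map, eval₂_at_apply]
      rfl
    rw [hint, hint] at h3
    have h4 := congrArg Complex.im h3
    simp only [Complex.sub_im, Complex.mul_im, Complex.intCast_re, Complex.intCast_im, mul_zero,
      zero_add, zero_sub, sub_zero, Complex.zero_im] at h4
    have h5 : ((g.eval (-1) : ℤ) : ℝ) = 0 := by
      have h6 : (Coef.emb et : ℂ).im ≠ 0 := by
        intro h7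
        have h8 := he.im
        rw [h7] at h8
        norm_num at h8
      have h7 : (Coef.emb et : ℂ).im * ((g.eval (-1) : ℤ) : ℝ) = 0 := by linarith
      exact (mul_eq_zero.mp h7).resolve_left h6
    have h6 : ((g.eval (-1) : ℤ) : ℂ) = 0 := by
      have : g.eval (-1) = 0 := by exact_mod_cast h5
      rw [this, Int.cast_zero]
    rw [h6, mul_zero, sub_zero, sub_zero, ← hint] at h3
    exact hpcl (-1) (by rw [norm_neg, norm_one]) h3
  -- the exponent
  obtain ⟨b, hbs, hbd⟩ := hx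
  obtain ⟨hx0, hx1, hxne⟩ := t2_ne h hF1 hI hb he h0 h1 hbs
  obtain ⟨x, hx⟩ : ∃ x, x = b - phi b j0 • r 0 - phi b j1 • r 1 := ⟨_, rfl⟩
  rw [← hx] at hx0 hx1 hxne
  have hxd : ∀ s t : ℤ, (1 + LaurentPolynomial.T 1 : RO ℤ) ∣ G.coeff (x + s • r 0 + t • r 1) := by
    intro s t
    have h3 := hbd (s - phi b j0) (t - phi b j1)
    have h4 : b + (s - phi b j0) • r 0 + (t - phi b j1) • r 1 = x + s • r 0 + t • r 1 := by
      rw [hx, sub_smul, sub_smul]
      abel
    rwa [h4] at h3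
  have hxd' : ∀ s t : ℤ, (1 + LaurentPolynomial.T 1 : RO Eis) ∣
      bcR (G.coeff (x + s • r 0 + t • r 1)) := by
    intro s t
    have h3 := map_dvd bcR (hxd s t)
    rwa [map_add, map_one, bcR_T] at h3
  have d00 := hxd' 0 0
  have d10 := hxd' 1 0
  have d01 := hxd' 0 1
  have d11 := hxd' 1 1
  simp only [zero_smul, one_smul, add_zero] at d00 d10 d01 d11
  have hdt : (1 + LaurentPolynomial.T 1 : RO Eis) ∣ t2co et G r e x := by
    unfold t2co
    exact dvd_add (dvd_add (dvd_add d00 (d01.mul_left _)) (d10.mul_left _)) (d11.mul_left _)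
  obtain ⟨x', hx'⟩ : ∃ x' : Ker (co (phO phi (r 1) j1) j0), ((x' : Ker (co phi j1)) : L) = x := by
    refine ⟨⟨⟨x, hx1⟩, ?_⟩, rfl⟩
    rw [mem_Ker]
    change phO phi (r 1) j1 ⟨x, hx1⟩ j0 = 0
    rw [hphO _ j0 p10]
    exact hx0
  have hcox : c1 * (cl (co (phO phi (r 1) j1) j0) R1' hh1 k1 H).coeff x' = t2co et G r e x := by
    have h3 := BP12.dco hb hR1 (k1 := k1) (hj := hh1) hbH x'
    rw [hcl2, KO.H71.cst_co, hx', hk0, hk1] at h3
    rw [h3]
    rfl
  refine t2l hG1 hR hRS hEv hEvm hFcl hE1 hMV hMm hU hRk fd2 hs hI1' he h2 hl (by omega) hap hvc2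
    hzf hz1 hfull (x := x') ?_ ?_
  · intro h3
    rw [h3, mul_zero] at hcox
    exact hxne hcox.symm
  · rw [hcox]
    exact hdt

end

end Pool.Agent.B5.KO57
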