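import Pool.Agent.Lib.MP_b5021c_nt.KO.H57.Ln3
import Pool.Agent.Lib.MP_b5021c_nt.KO.H90.R1t
import Pool.Agent.Lib.MP_b5021c_nt.KO.H40.Aln

/-!
# MP_b5021c_nt, K ODD, l = 3, ALPHA, row R1 (LN) (helper57)

`ln` : `gR = f' - z^(-2) e e' D_(Z i + Z' l)` is zero or has a sign as its lowest coefficient.
-/

set_option linter.unusedSectionVars false

namespace Pool.Agent.B5.KO57

open scoped LaurentPolynomial
open Polynomial Pool.Agent.B5
open Pool.Agent.B5.KO.H71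
open Pool.Agent.B5.KE
open Pool.Agent.B5.KO.H96 (Alp)
open Pool.Agent.B5.KV67 (TT1 tA_val)
open Pool.Agent.B5.Nr (TrezS)
open Pool.Agent.B5.H61 (CuspS)
open Pool.Agent.B5.O4X
open Pool.Agent.B5.BP57 (ray_poly zf_of_unit embZ)
open Pool.Agent.B5.KO29 (gR)

/-- a point of the circle off the axes. -/
theorem pt_ex : ∃ z : Circle, (z : ℂ).re ≠ 0 ∧ (z : ℂ).im ≠ 0 := by
  have h : ‖(⟨3 / 5, 4 / 5⟩ : ℂ)‖ = 1 := by
    rw [Complex.norm_def, Complex.normSq_mk]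
    norm_num
  refine ⟨⟨⟨3 / 5, 4 / 5⟩, by simpa [Submonoid.unitSphere] using h⟩, ?_, ?_⟩
  · change (3 / 5 : ℝ) ≠ 0
    norm_num
  · change (4 / 5 : ℝ) ≠ 0
    norm_num

section

variable {P L : Type} [Fintype P] [DecidableEq P] [AddCommGroup L] [Module.Free ℤ L]
  [Module.Finite ℤ L] {phi : L →+ (P → ℤ)} {D : AO ℤ L} {eta : L → (RO ℤ)ˣ}
  {q f f' : ℤ[X]} {a : ℝ} {j : ℕ} {k : ℕ} {Z : ZMod (k + 3) → L}
  {mu : ZMod (k + 3) → L →+ ℤ} {Z' : ZMod 3 → L} {mu' : ZMod 3 → L →+ ℤ}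

/-- the coefficient of the closing A of a `Z i` at the other triple. -/
theorem ead_gr {i : ZMod (k + 3)} {Y : Dp phi (Z i) (Z (i + 1))} {c : RO ℤ}
    {G : AO ℤ (Ker (co phi Y.i0))} (h : EaD phi D q f f' j eta Z mu Z' mu' i Y c G) :
    c * ((eA phi eta Z' Y.i0 (eta (Z i) * tA) 0 : RO ℤ) * G.coeff (rA Z' Y.h0 0)) =
      LaurentPolynomial.T 1 * gR D eta f' (Z i) (Z' 0) := by
  rw [h.vR]
  exact KO.H40.alG_gR f' (Z i) (Z' 0)

/-- lead `j`, order zero: impossible. -/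
theorem ln_top (hMV : MVS) (hMm : MmulS) (hE1 : E1S) (hPc : PCZS) (hClp : ClpS) (hFD : FDS)
    (hCu : CuspS) (hSf : SfzS) (hI3 : Io3S) (hMfc : MfcS) (hCa : Ca5S) (hGlc : GlcS)
    (hFou : FouS) (hDti : DtiS) (hFcm : FcmS) (hF1 : F1S)
    (A : Alp phi D q f f' a j eta k 0 Z mu Z' mu')
    (hd : ∀ i l p, phi (Z i) p = 0 ∨ phi (Z' l) p = 0) (i : ZMod (k + 3)) {E U : ℤ[X]}
    (hE : f - q = X * E) (hE0 : E.coeff 0 = j + 1)
    (hV : ∀ z : ℂ, ‖z‖ < 1 → (aeval z (E - (1 + X) * f) : ℂ) ≠ 0) (hU0 : U.coeff 0 = j)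
    (hg : gR D eta f' (Z i) (Z' 0) = toLaurent U) : False := by
  have hH : Hh D eta (Z i) (Z' 0) = LaurentPolynomial.T 2 * toLaurent (f' - U) := by
    have h1 : Hh D eta (Z i) (Z' 0) =
        LaurentPolynomial.T 2 * (toLaurent f' - gR D eta f' (Z i) (Z' 0)) := by
      have e1 : (LaurentPolynomial.T 2 : RO ℤ) * LaurentPolynomial.T (-2) = 1 := by
        rw [← LaurentPolynomial.T_add]
        norm_num
      unfold gR Hh
      linear_combination (-((eta (Z i) : RO ℤ) * ((eta (Z' 0) : RO ℤ) *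
        D.coeff (Z i + Z' 0)))) * e1
    rw [h1, hg, map_sub]
  have hev : ∀ z : Circle, evR z (Hh D eta (Z i) (Z' 0)) =
      (z : ℂ) ^ 2 * (aeval (z : ℂ) f' - aeval (z : ℂ) U) := by
    intro z
    rw [hH, map_mul, H07.evR_T, evR_poly, map_sub]
    norm_cast
  have hqE : ∀ z : ℂ, (aeval z q : ℂ) = aeval z f - z * aeval z E := by
    intro z
    have h1 := congrArg (fun r : ℤ[X] => (aeval z r : ℂ)) hE
    simp only [map_sub, map_mul, aeval_X] at h1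
    linear_combination -h1
  obtain ⟨F, hF⟩ : ∃ F : ℤ[X], F = X * (1 + X) * f' + (1 - X - X ^ 2) * U := ⟨_, rfl⟩
  have hleft : ∀ z : Circle, (z * aeval (z : ℂ) f' + evR z (Hh D eta (Z i) (Z' 0)) *
      (1 + z - (z : ℂ)⁻¹) : ℂ) = z * aeval (z : ℂ) F := by
    intro z
    rw [hev, hF]
    have h1 := mul_inv_cancel₀ (Circle.coe_ne_zero z)
    simp only [map_add, map_sub, map_mul, map_one, map_pow, aeval_X]
    linear_combination (-(z : ℂ) * (aeval (z : ℂ) f' - aeval (z : ℂ) U)) * h1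
  have hright : ∀ z : Circle, (aeval (z : ℂ) q + z * aeval (z : ℂ) f * (1 + z - (z : ℂ)⁻¹) : ℂ) =
      -(z * aeval (z : ℂ) (E - (1 + X) * f)) := by
    intro z
    rw [hqE]
    have h1 := mul_inv_cancel₀ (Circle.coe_ne_zero z)
    simp only [map_add, map_sub, map_mul, map_one, aeval_X]
    linear_combination (-(aeval (z : ℂ) f : ℂ)) * h1
  have hmax : F.map Coef.emb = (E - (1 + X) * f).map Coef.emb := by
    refine (cmax _ le_rfl (fun z hz => ?_) (fun z hz => ?_)).2 ?_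
    · rw [ev_map]
      exact hV z hz
    · rw [ev_map, ev_map]
      obtain ⟨y, hy⟩ : ∃ y : Circle, (y : ℂ) = z :=
        ⟨⟨z, by simpa [Submonoid.unitSphere] using hz⟩, rfl⟩
      have h1 := alp_le hFcm hF1 A hd i y
      rw [hleft, hright, norm_neg, norm_mul, norm_mul, Circle.norm_coe, one_mul, one_mul, hy] at h1
      exact h1
    · rw [← coeff_zero_eq_eval_zero, ← coeff_zero_eq_eval_zero, coeff_map, coeff_map]
      congr 1
      rw [hF, coeff_add, coeff_sub, mul_coeff_zero, mul_coeff_zero, mul_coeff_zero, mul_coeff_zero,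
        hU0, hE0, A.u]
      simp
  obtain ⟨z, hre, him⟩ := pt_ex
  refine alp_ne hMV hMm hE1 hPc hClp hFD hCu hSf hI3 hMfc hCa hGlc hFou hDti hFcm hF1 A hd i hre
    him ?_
  rw [hleft, hright, neg_neg]
  congr 1
  rw [← ev_map, ← ev_map, hmax]

/-- ROW R1 (LN), the ray `Z' 0`. -/
theorem ln0 (hMm : MmulS) (hMV : MVS) (hE1 : E1S) (hClp : ClpS) (hC0 : Coeff0S) (hG0 : G0S)
    (hI1 : Inj1S) (hRk : RkS) (hFD : FDS) (hWW : WWfS) (hRF : RayFacS) (hMug : MugS)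
    (hMco : McoS) (hTr : TrezS) (hTsa : TsaS) (hF : FspS) (hRS : RaySpanS) (hE2 : E2S)
    (hF1 : F1S) (hVZ : VZS) (hU : UnitRS) (hUA : UnitAS) (hPc : PCZS) (hCu : CuspS)
    (hSf : SfzS) (hI3 : Io3S) (hMfc : MfcS) (hCa : Ca5S) (hGlc : GlcS) (hFou : FouS)
    (hDti : DtiS) (hFcm : FcmS) (hG1 : G1pS) (hRW : ResWDS) (hRs : ResStS) (hEv : EvS)
    (hEvm : EvmS) (hFcl : FclS) (hMp : MpaS) (hD2 : D2S) (hF2 : F2S) (hMin : MinS)
    (hKm : KmuS) (hSm : SmallS) (hEvz : EvzS) (hTrm : TrmS) (hPsz : Nr.PszRS) (hPmf : PmfS)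
    (hSnr : Nr.SnrS) (hEvR : EvRS) (hMu : MultiS) (hSS : StSpecS) (hCn : CnfS)
    (A : Alp phi D q f f' a j eta k 0 Z mu Z' mu')
    (hd : ∀ i l p, phi (Z i) p = 0 ∨ phi (Z' l) p = 0) (hj : 3 ≤ j) (i : ZMod (k + 3)) :
    gR D eta f' (Z i) (Z' 0) = 0 ∨ ∃ (s : ℤˣ) (m : ℤ) (g : ℤ[X]), g.coeff 0 = 1 ∧
      gR D eta f' (Z i) (Z' 0) = LaurentPolynomial.C (s : ℤ) * LaurentPolynomial.T m *
        toLaurent g := by
  obtain ⟨Y, c, G, EA⟩ := alp_ea hMm hMV hE1 hClp hC0 hG0 hI1 hRk hFD hWW hRF hMug hMco hTr hTsa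
    hF hRS hE2 hF1 A i
  obtain ⟨e, he, hRN⟩ := A.w.rn (Z i) ⟨i, rfl⟩
  obtain ⟨w, c', p, E, hE, hE0, hEz, hc'0, hEcp, hp0, hwG, hcc⟩ := ead_nf hMV EA.cv EA.v0 hRN.loc
    A.u hRN.ne A.n
  have key := ead_gr EA
  have TT : (LaurentPolynomial.T (-1) * LaurentPolynomial.T 1 : RO ℤ) = 1 := by
    rw [← LaurentPolynomial.T_add, neg_add_cancel, LaurentPolynomial.T_zero]
  by_cases h0 : G.coeff (rA Z' Y.h0 0) = 0
  · left
    rw [h0, mul_zero, mul_zero] at key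
    linear_combination (-LaurentPolynomial.T (-1) : RO ℤ) * key - gR D eta f' (Z i) (Z' 0) * TT
  have hray := EA.ray h0
  have hfr := EA.fr
  obtain ⟨hpz, -⟩ := zf_of_unit hU EA.cls hwG (by rw [hp0]; omega)
  -- the class of `Y.T`
  have hEm : (aeval (-1 : ℂ) E : ℂ) ≠ 0 := by
    intro h1
    apply cusp_w hMV hMm hE1 hPc hClp hFD hCu hSf hI3 hMfc hCa hGlc hFou hDti A.w A.u
      (z := -1) (by simp)
    have h2 := congrArg (fun r : ℤ[X] => (aeval (-1 : ℂ) r : ℂ)) hE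
    simp only [map_sub, map_mul, aeval_X] at h2
    rw [h1, mul_zero] at h2
    rw [map_add, map_mul, aeval_X]
    linear_combination -h2
  have hcm : evR zm c ≠ 0 := by
    rw [hcc, map_neg, map_mul, map_mul, H07.evR_T, evR_poly, zm_val, neg_ne_zero]
    refine mul_ne_zero (zpow_ne_zero _ (by norm_num)) (mul_ne_zero ?_ ?_)
    · intro h1
      apply hEm
      rw [hEcp, map_mul, h1, zero_mul]
    · exact ((w.isUnit).map (evR zm)).ne_zero
  have hx : ∃ b ∈ supp G, ∀ s t : ℤ,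
      (1 + LaurentPolynomial.T 1 : RO ℤ) ∣
        G.coeff (b + s • rA Z' Y.h0 0 + t • rA Z' Y.h0 1) := by
    refine ⟨Y.T, EA.rT.1, fun s t => ?_⟩
    have hrl : ∀ l, mu i ((rA Z' Y.h0 l : Ker (co phi Y.i0)) : L) = 0 := by
      intro l
      change mu i ((prj (co phi Y.i0) (Z i) Y.h0 (Z' l) : Ker (co phi Y.i0)) : L) = 0
      rw [prj_coe, map_sub, map_zsmul, A.z, cyc_slf A.c i, smul_zero, sub_zero]
    have h1 : mu i ((Y.T + s • rA Z' Y.h0 0 + t • rA Z' Y.h0 1 : Ker (co phi Y.i0)) : L) ≠ 0 := by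
      have h2 : ((Y.T + s • rA Z' Y.h0 0 + t • rA Z' Y.h0 1 : Ker (co phi Y.i0)) : L) =
          (Y.T : L) + s • ((rA Z' Y.h0 0 : Ker (co phi Y.i0)) : L) +
            t • ((rA Z' Y.h0 1 : Ker (co phi Y.i0)) : L) := rfl
      rw [h2, map_add, map_add, map_zsmul, map_zsmul, hrl, hrl, smul_zero, smul_zero, add_zero,
        add_zero, Y.eT, A.c.nxt]
      exact one_ne_zero
    have h2 := dvd_m1.mp (EA.dvd _ h1)
    rw [map_mul] at h2
    exact dvd_m1.mpr ((mul_eq_zero.mp h2).resolve_left hcm)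
  rcases KO90.r1_t hG1 hRW hRs hEv hEvm hFcl hMp hMm hD2 hF2 hMco hF1 hMin hC0 hWW hG0 hRk hKm
    hFD hE1 hMV hSm hEvz hE2 hVZ hU hUA EA.tri EA.dd hray EA.im (N := j + 1) (by omega) (by omega)
    hwG (by rw [hp0]; push_cast; ring) hpz hx with hT | ⟨m, g, hg, h1⟩
  · exfalso
    refine KO21.r6_a hTrm hPsz hPmf hSnr hEvR hE2 hF1 hSf hMV hMm hE1 hPc hClp hFD hMu hSS hCn A hd
      i rfl EA.cl EA.dd.inj EA.dd.bin EA.tri (fun l => ⟨co phi Y.i0 (Z' l), ?_, rfl⟩) hT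
    exact prj_coe _ _ _ _
  have hgR : gR D eta f' (Z i) (Z' 0) = LaurentPolynomial.T m * toLaurent (c' * g) := by
    have h2 : c * ((eA phi eta Z' Y.i0 (eta (Z i) * tA) 0 : RO ℤ) * G.coeff (rA Z' Y.h0 0)) =
        LaurentPolynomial.T 1 * (LaurentPolynomial.T m * toLaurent (c' * g)) := by
      rw [hcc, map_mul]
      linear_combination (-(LaurentPolynomial.T 1 * toLaurent c') : RO ℤ) * hg
    rw [key] at h2
    linear_combination (LaurentPolynomial.T (-1) : RO ℤ) * h2 +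
      (LaurentPolynomial.T m * toLaurent (c' * g) - gR D eta f' (Z i) (Z' 0)) * TT
  rcases h1 with h1 | h1 | ⟨hm, h1⟩
  · exact Or.inr ⟨1, m, c' * g, by rw [mul_coeff_zero, hc'0, h1, one_mul], by
      rw [hgR, Units.val_one, map_one, one_mul]⟩
  · refine Or.inr ⟨-1, m, -(c' * g), ?_, ?_⟩
    · rw [coeff_neg, mul_coeff_zero, hc'0, h1]
      norm_num
    · rw [hgR, Units.val_neg, Units.val_one, map_neg, map_one, map_neg]
      ring
  · exfalso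
    refine ln_top hMV hMm hE1 hPc hClp hFD hCu hSf hI3 hMfc hCa hGlc hFou hDti hFcm hF1 A hd i
      hE hE0 (fun z hz => ?_) (U := c' * g) ?_ ?_
    · exact vh_zf hE2 hVZ hU EA.dd (by omega) EA.rT EA.cls hEz hEcp hwG hp0 hcc EA.vT A.u hz
    · rw [mul_coeff_zero, hc'0, h1]
      push_cast
      ring
    · rw [hgR, hm, LaurentPolynomial.T_zero, one_mul]

/-- ROW R1 (LN). -/
theorem ln (hMm : MmulS) (hMV : MVS) (hE1 : E1S) (hClp : ClpS) (hC0 : Coeff0S) (hG0 : G0S)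
    (hI1 : Inj1S) (hRk : RkS) (hFD : FDS) (hWW : WWfS) (hRF : RayFacS) (hMug : MugS)
    (hMco : McoS) (hTr : TrezS) (hTsa : TsaS) (hF : FspS) (hRS : RaySpanS) (hE2 : E2S)
    (hF1 : F1S) (hVZ : VZS) (hU : UnitRS) (hUA : UnitAS) (hPc : PCZS) (hCu : CuspS)
    (hSf : SfzS) (hI3 : Io3S) (hMfc : MfcS) (hCa : Ca5S) (hGlc : GlcS) (hFou : FouS)
    (hDti : DtiS) (hFcm : FcmS) (hG1 : G1pS) (hRW : ResWDS) (hRs : ResStS) (hEv : EvS)
    (hEvm : EvmS) (hFcl : FclS) (hMp : MpaS) (hD2 : D2S) (hF2 : F2S) (hMin : MinS)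
    (hKm : KmuS) (hSm : SmallS) (hEvz : EvzS) (hTrm : TrmS) (hPsz : Nr.PszRS) (hPmf : PmfS)
    (hSnr : Nr.SnrS) (hEvR : EvRS) (hMu : MultiS) (hSS : StSpecS) (hCn : CnfS)
    (A : Alp phi D q f f' a j eta k 0 Z mu Z' mu')
    (hd : ∀ i l p, phi (Z i) p = 0 ∨ phi (Z' l) p = 0) (hj : 3 ≤ j) (i : ZMod (k + 3))
    (l : ZMod 3) :
    gR D eta f' (Z i) (Z' l) = 0 ∨ ∃ (s : ℤˣ) (m : ℤ) (g : ℤ[X]), g.coeff 0 = 1 ∧
      gR D eta f' (Z i) (Z' l) = LaurentPolynomial.C (s : ℤ) * LaurentPolynomial.T m *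
        toLaurent g := by
  have h1 : gR D eta f' (Z i) (Z' l) = gR D eta f' (Z i) (Z' 0) := by
    have h2 := KO.H40.alH_all hF1 A hd i i l 0
    unfold KO.H40.alH at h2
    unfold gR
    rw [h2]
  rw [h1]
  exact ln0 hMm hMV hE1 hClp hC0 hG0 hI1 hRk hFD hWW hRF hMug hMco hTr hTsa hF hRS hE2 hF1 hVZ hU
    hUA hPc hCu hSf hI3 hMfc hCa hGlc hFou hDti hFcm hG1 hRW hRs hEv hEvm hFcl hMp hD2 hF2 hMin
    hKm hSm hEvz hTrm hPsz hPmf hSnr hEvR hMu hSS hCn A hd hj i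

end

end Pool.Agent.B5.KO57
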