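import Pool.Agent.Lib.MP_b5021c_nt.KO.H57.Fam
import Pool.Agent.Lib.MP_b5021c_nt.KO.H96.Red2
import Pool.Agent.Lib.MP_b5021c_nt.KO.H40.Side

/-!
# MP_b5021c_nt, K ODD, l = 3, ALPHA, row R4, the `E^A` side (helper57)

The closing A of a ray `Z i` in case ALPHA: one factor `G` in `DD`, class `V(j + 1)`, rank `2 j`,
with the closed triple `Z'`.
-/

set_option linter.unusedSectionVars false

namespace Pool.Agent.B5.KO57

open scoped LaurentPolynomial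
open Polynomial Pool.Agent.B5
open Pool.Agent.B5.KO.H71
open Pool.Agent.B5.KE
open Pool.Agent.B5.KO.H96 (Alp)
open Pool.Agent.B5.KV67 (TT1 tA_val)
open Pool.Agent.B5.KO67 (first)
open Pool.Agent.B5.Nr (TrezS)

section

variable {P L : Type} [Fintype P] [DecidableEq P] [AddCommGroup L] [Module.Free ℤ L]
  [Module.Finite ℤ L] {phi : L →+ (P → ℤ)} {D : AO ℤ L} {eta : L → (RO ℤ)ˣ}

theorem cyc_slf {k : ℕ} {Z : ZMod (k + 3) → L} {mu : ZMod (k + 3) → L →+ ℤ}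
    (h : Cyc phi D eta k Z mu) (i : ZMod (k + 3)) : mu i (Z i) = 0 :=
  (h.ker i (Z i)).mp (H47.S_mem _ _ _)

theorem cyc_prv {k : ℕ} {Z : ZMod (k + 3) → L} {mu : ZMod (k + 3) → L →+ ℤ}
    (h : Cyc phi D eta k Z mu) (i : ZMod (k + 3)) : mu (i + 1) (Z i) = -1 := by
  have h1 := h.prv (i + 1)
  rwa [add_sub_cancel_right] at h1

theorem cyc_pos {k : ℕ} {Z : ZMod (k + 3) → L} {mu : ZMod (k + 3) → L →+ ℤ}
    (h : Cyc phi D eta k Z mu) (i : ZMod (k + 3)) {T : L} (hT : Ray D T) (hne : T ≠ Z i) :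
    0 ≤ mu (i + 1) T := by
  by_cases h1 : T = Z (i + 1 + 1)
  · rw [h1, h.nxt]
    norm_num
  · rw [h.oth (i + 1) T hT h1 (by rw [add_sub_cancel_right]; exact hne)]

theorem cyc_neg {k : ℕ} {Z : ZMod (k + 3) → L} {mu : ZMod (k + 3) → L →+ ℤ}
    (h : Cyc phi D eta k Z mu) (i : ZMod (k + 3)) {T : L} (hT : Ray D T) (hne : T ≠ Z (i + 1)) :
    0 ≤ (-mu i) T := by
  rw [AddMonoidHom.neg_apply]
  by_cases h1 : T = Z (i - 1)
  · rw [h1, h.prv]
    norm_num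
  · rw [h.oth i T hT hne h1, neg_zero]

variable {q f f' : ℤ[X]} {a : ℝ} {j : ℕ} {k k' : ℕ} {Z : ZMod (k + 3) → L}
  {mu : ZMod (k + 3) → L →+ ℤ} {Z' : ZMod (k' + 3) → L} {mu' : ZMod (k' + 3) → L →+ ℤ}

/-- The family `Z i, Z (i+1), Z' l, Z' (l+1)`. -/
def vF (Z : ZMod (k + 3) → L) (Z' : ZMod (k' + 3) → L) (i : ZMod (k + 3)) (l : ZMod (k' + 3)) :
    Fin 4 → L := ![Z i, Z (i + 1), Z' l, Z' (l + 1)]

/-- The dual functionals. -/
def nF (mu : ZMod (k + 3) → L →+ ℤ) (mu' : ZMod (k' + 3) → L →+ ℤ) (i : ZMod (k + 3))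
    (l : ZMod (k' + 3)) : Fin 4 → L →+ ℤ := ![mu (i + 1), -mu i, mu' (l + 1), -mu' l]

theorem alp_fam (hF : FspS) (hRS : RaySpanS) (hE2 : E2S)
    (A : Alp phi D q f f' a j eta k k' Z mu Z' mu') (i : ZMod (k + 3)) (l : ZMod (k' + 3)) :
    Fam phi D (vF Z Z' i l) (nF mu mu' i l) := by
  have h2 : 2 ≤ Module.finrank ℤ L := by have := A.w.ko.rk; have := A.w.ko.j2; omega
  refine mk_fam hF hRS hE2 A.w.ko.min.fp h2 ?_ ?_ ?_ ?_
  · intro m
    fin_cases m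
    · exact (A.c.mtl i).r0
    · exact (A.c.mtl i).r1
    · exact (A.c'.mtl l).r0
    · exact (A.c'.mtl l).r1
  · intro m
    fin_cases m
    · exact cyc_prv A.c i
    · change (-mu i) (Z (i + 1)) = -1
      rw [AddMonoidHom.neg_apply, A.c.nxt]
    · exact cyc_prv A.c' l
    · change (-mu' l) (Z' (l + 1)) = -1
      rw [AddMonoidHom.neg_apply, A.c'.nxt]
  · intro m n hmn
    fin_cases m <;> fin_cases n
    · exact absurd rfl hmn
    · exact cyc_slf A.c (i + 1)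
    · exact A.z (i + 1) l
    · exact A.z (i + 1) (l + 1)
    · change (-mu i) (Z i) = 0
      rw [AddMonoidHom.neg_apply, cyc_slf A.c i, neg_zero]
    · exact absurd rfl hmn
    · change (-mu i) (Z' l) = 0
      rw [AddMonoidHom.neg_apply, A.z, neg_zero]
    · change (-mu i) (Z' (l + 1)) = 0
      rw [AddMonoidHom.neg_apply, A.z, neg_zero]
    · exact A.z' i (l + 1)
    · exact A.z' (i + 1) (l + 1)
    · exact absurd rfl hmn
    · exact cyc_slf A.c' (l + 1)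
    · change (-mu' l) (Z i) = 0
      rw [AddMonoidHom.neg_apply, A.z', neg_zero]
    · change (-mu' l) (Z (i + 1)) = 0
      rw [AddMonoidHom.neg_apply, A.z', neg_zero]
    · change (-mu' l) (Z' l) = 0
      rw [AddMonoidHom.neg_apply, cyc_slf A.c' l, neg_zero]
    · exact absurd rfl hmn
  · intro m T hT hne
    fin_cases m
    · exact cyc_pos A.c i hT hne
    · exact cyc_neg A.c i hT hne
    · exact cyc_pos A.c' l hT hne
    · exact cyc_neg A.c' l hT hne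

end

/-- `ImT` from the families of all pairs of neighbours. -/
theorem imt_fam {P M : Type} [Fintype P] [DecidableEq P] [AddCommGroup M] [Module.Free ℤ M]
    [Module.Finite ℤ M] {psi : M →+ (P → ℤ)} {G : AO ℤ M} {n : ℕ} {r : ZMod 3 → M}
    {v : ZMod 3 → Fin n → M} {nu : ZMod 3 → Fin n → M →+ ℤ}
    (h : ∀ l, Fam psi G (v l) (nu l)) {x y : Fin n} (hxy : x ≠ y) (hx : ∀ l, v l x = r l)
    (hy : ∀ l, v l y = r (l + 1)) : ImT psi r := by
  have key : ∀ l b, (∀ p, psi (r l) p = 0 → psi (r (l + 1)) p = 0 → psi b p = 0) →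
      ∃ s t : ℤ, b = s • r l + t • r (l + 1) := by
    intro l b hb
    have h1 := (h l).prt {x, y} ⟨x, by simp⟩ b (fun q hq => by
      apply hb q
      · rw [← hx l]
        exact hq x (by simp)
      · rw [← hy l]
        exact hq y (by simp))
    rw [Finset.sum_pair hxy, hx, hy] at h1
    exact ⟨_, _, h1⟩
  intro i k hik b hb
  rcases z3h i k with h3 | h3 | h3
  · exact absurd h3.symm hik
  · obtain ⟨s, t, h4⟩ := key i b (by rw [← h3]; exact hb)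
    exact ⟨s, t, by rw [h3]; exact h4⟩
  · have h5 : k + 1 = i := by rw [h3]; ring
    obtain ⟨s, t, h4⟩ := key k b (by rw [h5]; exact fun p h6 h7 => hb p h7 h6)
    rw [h5] at h4
    exact ⟨t, s, by rw [h4]; abel⟩

section

variable {P L : Type} [Fintype P] [DecidableEq P] [AddCommGroup L] [Module.Free ℤ L]
  [Module.Finite ℤ L] {phi : L →+ (P → ℤ)} {D : AO ℤ L} {eta : L → (RO ℤ)ˣ}
  {q f f' : ℤ[X]} {a : ℝ} {j : ℕ} {k : ℕ} {Z : ZMod (k + 3) → L}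
  {mu : ZMod (k + 3) → L →+ ℤ} {Z' : ZMod 3 → L} {mu' : ZMod 3 → L →+ ℤ}

/-- The triple after the closing of `Z i`. -/
noncomputable def rA (Z' : ZMod 3 → L) {S : L} {i0 : P} (h0 : co phi i0 S = 1) :
    ZMod 3 → Ker (co phi i0) := fun l => prj (co phi i0) S h0 (Z' l)

/-- Its loads. -/
noncomputable def eA (phi : L →+ (P → ℤ)) (eta : L → (RO ℤ)ˣ) (Z' : ZMod 3 → L) (i0 : P)
    (u0 : (RO ℤ)ˣ) : ZMod 3 → (RO ℤ)ˣ :=
  fun l => eta (Z' l) * u0 ^ (-(co phi i0 (Z' l)))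

/-- The functionals. -/
def mA (mu' : ZMod 3 → L →+ ℤ) (phi : L →+ (P → ℤ)) (i0 : P) :
    ZMod 3 → Ker (co phi i0) →+ ℤ := fun l => (mu' l).comp (incl (Ker (co phi i0)))

/-- `E^A` IN CASE ALPHA. -/
structure EaD (phi : L →+ (P → ℤ)) (D : AO ℤ L) (q f f' : ℤ[X]) (j : ℕ) (eta : L → (RO ℤ)ˣ)
    {k : ℕ} (Z : ZMod (k + 3) → L) (mu : ZMod (k + 3) → L →+ ℤ) (Z' : ZMod 3 → L)
    (mu' : ZMod 3 → L →+ ℤ) (i : ZMod (k + 3)) (Y : Dp phi (Z i) (Z (i + 1))) (c : RO ℤ)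
    (G : AO ℤ (Ker (co phi Y.i0))) : Prop where
  o0 : phi (Z' 0) Y.i0 = 0
  k1 : co (phO phi (Z i) Y.i0) Y.i1 = Y.k1
  cv : ClassV 1 c
  cl : cl (co phi Y.i0) (Z i) Y.h0 (eta (Z i) * tA) D = cst c * G
  dd : DD (phO phi (Z i) Y.i0) G
  cls : ClassV ((j + 1 : ℕ) : ℝ) (G.coeff 0)
  fr : Module.finrank ℤ (Ker (co phi Y.i0)) = 2 * j
  rT : Ray G Y.T
  imT : ImS (phO phi (Z i) Y.i0) Y.T
  v0 : c * G.coeff 0 = toLaurent (q - f)
  vT : ∃ w : (RO ℤ)ˣ, (w : RO ℤ) * (c * G.coeff Y.T) = toLaurent ((1 + X) * f)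
  tri : Tri (phO phi (Z i) Y.i0) G (rA Z' Y.h0) (eA phi eta Z' Y.i0 (eta (Z i) * tA))
    (mA mu' phi Y.i0)
  im : ImT (phO phi (Z i) Y.i0) (rA Z' Y.h0)
  ray : G.coeff (rA Z' Y.h0 0) ≠ 0 → ∀ l, Ray G (rA Z' Y.h0 l)
  vR : c * ((eA phi eta Z' Y.i0 (eta (Z i) * tA) 0 : RO ℤ) * G.coeff (rA Z' Y.h0 0)) =
    toLaurent (X * f') - LaurentPolynomial.T (-1) *
      ((eta (Z i) : RO ℤ) * ((eta (Z' 0) : RO ℤ) * D.coeff (Z i + Z' 0)))
  dvd : ∀ b : Ker (co phi Y.i0), mu i (b : L) ≠ 0 →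
    (1 + LaurentPolynomial.T 1 : RO ℤ) ∣ c * G.coeff b

theorem alp_ea (hMm : MmulS) (hMV : MVS) (hE1 : E1S) (hClp : ClpS) (hC0 : Coeff0S) (hG0 : G0S)
    (hI1 : Inj1S) (hRk : RkS) (hFD : FDS) (hWW : WWfS) (hRF : RayFacS) (hMug : MugS)
    (hMco : McoS) (hTr : TrezS) (hTsa : TsaS) (hF : FspS) (hRS : RaySpanS) (hE2 : E2S)
    (hF1 : F1S) (A : Alp phi D q f f' a j eta k 0 Z mu Z' mu') (i : ZMod (k + 3)) :
    ∃ (Y : Dp phi (Z i) (Z (i + 1))) (c : RO ℤ) (G : AO ℤ (Ker (co phi Y.i0))),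
      EaD phi D q f f' j eta Z mu Z' mu' i Y c G := by
  classical
  have fp := A.w.ko.min.fp
  have hD := fp.dd
  have hrk := A.w.ko.rk
  have hj := A.w.ko.j2
  have hM := A.c.mtl i
  obtain ⟨dis, -, -, -⟩ := hMco ℤ P L phi D _ _ _ _ hD.inj hD.bin hM
  obtain ⟨Y, x, hx⟩ := KO.H40.dp_of hI1 fp hM.r0 hM.r1 (A.c'.mtl 0).r0 dis (A.ne i 0)
    (A.ne (i + 1) 0)
  have ho0 : phi (Z' 0) Y.i0 = 0 := by
    have h1 : phi ((x : Ker (co phi Y.i0)) : L) Y.i0 = 0 := (x : Ker (co phi Y.i0)).2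
    rwa [hx] at h1
  obtain ⟨e, he, hR⟩ := A.w.rn (Z i) ⟨i, rfl⟩
  have hM' : Mut D (Z i) (Z (i + 1)) (ld e 1) (eta (Z (i + 1))) := by
    rw [← he]
    exact hM
  obtain ⟨nu, hnu2, hnu, c, G, hc, hcl, hDG, hVG, hrayG, hco0, hw, hIm, hi1⟩ := first hMm hMV hE1
    hClp hC0 hG0 hI1 hRk hFD hWW hRF hMug hMco hTr hTsa A.w A.u ⟨i, rfl⟩ he hR hM' Y
  have hload : -e = eta (Z i) * tA := by
    rw [he, mul_comm]
    exact (kap_ld e).symm
  rw [hload] at hcl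
  have hcne : c ≠ 0 := ((hMV ℤ).1 _ _ hc).1
  have hsup := cst_supp hcne G
  have hT := Alp.tri' hE2 A
  have hT1 := (hT.close Y.h0 (fun l => A.z' i l) (eta (Z i) * tA))
  rw [hcl] at hT1
  have hT2 := (Tri.cst_iff hcne).mp hT1
  have hfam : ∀ l : ZMod 3, Fam (phO phi (Z i) Y.i0) G
      (fun m : Fin 3 => prj (co phi Y.i0) (Z i) Y.h0 (vF Z Z' i l m.succ))
      (fun m : Fin 3 => (nF mu mu' i l m.succ).comp (incl (Ker (co phi Y.i0)))) := by
    intro l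
    have h1 := (alp_fam hF hRS hE2 A i l).close (i0 := Y.i0) Y.h0 (eta (Z i) * tA)
    change Fam (phO phi (Z i) Y.i0) (cl (co phi Y.i0) (Z i) Y.h0 (eta (Z i) * tA) D) _ _ at h1
    rw [hcl] at h1
    exact h1.congr hsup.symm
  have hco : ∀ b : Ker (co phi Y.i0), c * G.coeff b =
      D.coeff (b : L) + ((eta (Z i) * tA : (RO ℤ)ˣ) : RO ℤ) * D.coeff ((b : L) + Z i) := by
    intro b
    rw [← cst_co, ← hcl]
    exact H47.cl_coeff_bin (co phi Y.i0) (Z i) Y.h0 _ D (fun y hy => hD.bin y hy Y.i0) b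
  have hr0 : ((rA Z' Y.h0 0 : Ker (co phi Y.i0)) : L) = Z' 0 := by
    change ((prj (co phi Y.i0) (Z i) Y.h0 (Z' 0) : Ker (co phi Y.i0)) : L) = Z' 0
    rw [prj_coe]
    have h1 : co phi Y.i0 (Z' 0) = 0 := ho0
    rw [h1, zero_smul, sub_zero]
  have he0 : eA phi eta Z' Y.i0 (eta (Z i) * tA) 0 = eta (Z' 0) := by
    unfold eA
    have h1 : co phi Y.i0 (Z' 0) = 0 := ho0
    rw [h1, neg_zero, zpow_zero, mul_one]
  refine ⟨Y, c, G, ⟨ho0, hi1, hc, hcl, hDG, ?_, ?_, hrayG, hIm, hco0, hw, hT2, ?_, ?_, ?_, ?_⟩⟩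
  · have h1 : nu = j + 1 := by have := A.n; omega
    rw [← h1]
    exact hVG
  · have := finrank_ker hRk Y.h0
    omega
  · exact imt_fam hfam (x := 1) (y := 2) (by decide) (fun l => rfl) (fun l => rfl)
  · intro h0 l
    have h1 : G.coeff (rA Z' Y.h0 l) ≠ 0 := by
      intro h2
      apply h0
      have h3 := hT2.all_eq hF1 hDG.inj hDG.bin (u := 0)
        ⟨fun i q => Or.inl (by rw [map_zero]; rfl), fun i => map_zero _⟩ 0 l
      rw [zero_add, zero_add] at h3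
      have h4 : G.coeff (prj (co phi Y.i0) (Z i) Y.h0 (Z' l)) = 0 := h2
      rw [h4, mul_zero] at h3
      exact (mul_eq_zero.mp h3).resolve_left (Units.ne_zero _)
    exact (hfam l).ray (i := 1) hDG.inj hDG.bin h1
  · rw [he0]
    have h1 := hco (rA Z' Y.h0 0)
    rw [hr0] at h1
    have h2 : c * ((eta (Z' 0) : RO ℤ) * G.coeff (rA Z' Y.h0 0)) =
        (eta (Z' 0) : RO ℤ) * (c * G.coeff (rA Z' Y.h0 0)) := by ring
    rw [h2, h1]
    obtain ⟨e', he', hR'⟩ := A.w'.rn (Z' 0) ⟨0, rfl⟩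
    have h3 : (eta (Z' 0) : RO ℤ) * D.coeff (Z' 0) = toLaurent (X * f') := by
      have h4 := ld_S hR' 1
      rw [pow_one] at h4
      rw [he']
      exact h4
    rw [← h3, Units.val_mul, tA_val, add_comm (Z' 0) (Z i)]
    ring
  · intro b hb
    rw [hco b]
    have h1 : (b : L) ∉ US (eta (Z i)) (Z i) D := fun h2 => hb ((A.c.ker i _).mp h2)
    have hS := hF1 ℤ P L phi D (Z i) (eta (Z i)) hD.inj hD.bin (hD.bin _ hM.r0.1) hM.r0.2.1
    have hb0 : phi (b : L) Y.i0 = 0 := b.2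
    have hS0 : phi (Z i) Y.i0 = 1 := Y.h0
    by_cases hdis : ∀ p, phi (b : L) p = 0 ∨ phi (Z i) p = 0
    · have h3 := (hS _ h1).2 hdis
      refine ⟨LaurentPolynomial.T (-1) * D.coeff (b : L), ?_⟩
      rw [Units.val_mul, tA_val]
      linear_combination (-LaurentPolynomial.T (-1) : RO ℤ) * h3 - D.coeff (b : L) * TT1
    · push Not at hdis
      obtain ⟨p, hp1, hp2⟩ := hdis
      have hSp : phi (Z i) p = 1 := (hD.bin _ hM.r0.1 p).resolve_left hp2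
      have h3 : D.coeff (b : L) = 0 := by
        by_contra hne
        exact hne ((hS _ h1).1 ⟨p, (hD.bin _ hne p).resolve_left hp1, hSp⟩ ⟨Y.i0, hb0, hS0⟩)
      have h4 : D.coeff ((b : L) + Z i) = 0 := by
        by_contra hne
        have h5 : (b : L) + Z i ∉ US (eta (Z i)) (Z i) D := fun h6 => h1 (by
          have h7 := Submodule.sub_mem _ h6 (H47.S_mem (eta (Z i)) (Z i) D)
          rwa [add_sub_cancel_right] at h7)
        have h6 : phi ((b : L) + Z i) Y.i0 = 1 := by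
          rw [map_add, Pi.add_apply, hb0, hS0, zero_add]
        have h7 : phi ((b : L) + Z i) p = 0 := by
          rcases hD.bin _ hne p with h8 | h8
          · exact h8
          · exfalso
            rw [map_add, Pi.add_apply, hSp] at h8
            exact hp1 (by linarith)
        exact hne ((hS _ h5).1 ⟨Y.i0, h6, hS0⟩ ⟨p, h7, hSp⟩)
      rw [h3, h4, mul_zero, add_zero]
      exact dvd_zero _

end

end Pool.Agent.B5.KO57
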