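import Pool.Agent.Lib.MP_b5021c_nt.KO.H57.T2m
import Pool.Agent.Lib.MP_b5021c_nt.KO.H67.Imd
import Pool.Agent.Lib.MP_b5021c_nt.KO.H71.Ncl

/-!
# MP_b5021c_nt, K ODD, l = 3, ALPHA: families of rays with dual functionals (helper57)

`Fam phi G v nu`: the `v i` are exponents with the functionals `nu i` (`-1` at `v i`, zero at the
others), every subfamily spans a face of `G` and the ports are injective modulo it.  It is stable
under the closing of the first member.
-/

set_option linter.unusedSectionVars false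

namespace Pool.Agent.B5.KO57

open scoped LaurentPolynomial
open Polynomial Pool.Agent.B5
open Pool.Agent.B5.KO.H71
open Pool.Agent.B5.KE

/-- A family of rays with dual functionals. -/
structure Fam {O : Type} [CommRing O] {P : Type} [Fintype P] [DecidableEq P] {L : Type}
    [AddCommGroup L] (phi : L →+ (P → ℤ)) (G : AO O L) {n : ℕ} (v : Fin n → L)
    (nu : Fin n → L →+ ℤ) : Prop where
  bin : ∀ i q, phi (v i) q = 0 ∨ phi (v i) q = 1
  slf : ∀ i, nu i (v i) = -1
  oth : ∀ i j, i ≠ j → nu i (v j) = 0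
  fac : ∀ J : Finset (Fin n), J.Nonempty → ∃ lam : L →+ ℤ, (∀ i ∈ J, lam (v i) = 0) ∧
    ∀ a ∈ supp G, 0 ≤ lam a ∧ (lam a = 0 → a = ∑ i ∈ J, (-nu i a) • v i)
  prt : ∀ J : Finset (Fin n), J.Nonempty → ∀ b : L,
    (∀ q, (∀ i ∈ J, phi (v i) q = 0) → phi b q = 0) → b = ∑ i ∈ J, (-nu i b) • v i

section

variable {O : Type} [CommRing O] [IsDomain O] [IsPrincipalIdealRing O] [Coef O] {P L : Type}
  [Fintype P] [DecidableEq P] [AddCommGroup L] [Module.Free ℤ L] [Module.Finite ℤ L]
  {phi : L →+ (P → ℤ)} {G : AO O L} {n : ℕ}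

/-- a private port. -/
theorem Fam.pri {v : Fin n → L} {nu : Fin n → L →+ ℤ} (h : Fam phi G v nu) {i : Fin n}
    {J : Finset (Fin n)} (hJ : J.Nonempty) (hi : i ∉ J) :
    ∃ q, phi (v i) q = 1 ∧ ∀ j ∈ J, phi (v j) q = 0 := by
  by_contra hcon
  push Not at hcon
  have h1 := h.prt J hJ (v i) (fun q hq => by
    rcases h.bin i q with h2 | h2
    · exact h2
    · obtain ⟨j, hj, h3⟩ := hcon q h2
      exact absurd (hq j hj) h3)
  have h2 := congrArg (nu i) h1
  rw [h.slf, map_sum] at h2
  have h3 : ∑ x ∈ J, (nu i) (-(nu x) (v i) • v x) = 0 := by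
    refine Finset.sum_eq_zero fun x hx => ?_
    have hxi : i ≠ x := by
      rintro rfl
      exact hi hx
    rw [map_zsmul, h.oth i x hxi, smul_zero]
  rw [h3] at h2
  norm_num at h2

theorem Fam.port {v : Fin n → L} {nu : Fin n → L →+ ℤ} (h : Fam phi G v nu)
    (hI : Function.Injective phi) (i : Fin n) : ∃ q, phi (v i) q = 1 := by
  by_contra hcon
  push Not at hcon
  have h1 : v i = 0 := by
    apply hI
    rw [map_zero]
    ext q
    exact (h.bin i q).resolve_right (hcon q)
  have h2 := h.slf i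
  rw [h1, map_zero] at h2
  norm_num at h2

/-- the members which are exponents are rays. -/
theorem Fam.ray {v : Fin n → L} {nu : Fin n → L →+ ℤ} (h : Fam phi G v nu)
    (hI : Function.Injective phi) (hb : ∀ a ∈ supp G, Bin phi a) {i : Fin n}
    (hi : G.coeff (v i) ≠ 0) : Ray G (v i) := by
  obtain ⟨q, hq⟩ := h.port hI i
  have hne : v i ≠ 0 := by
    intro h1
    have h2 := h.slf i
    rw [h1, map_zero] at h2
    norm_num at h2
  obtain ⟨lam, h1, h2⟩ := h.fac {i} (Finset.singleton_nonempty i)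
  refine ⟨hi, hne, lam, h1 i (Finset.mem_singleton_self i), fun a ha ha0 hai => ?_⟩
  obtain ⟨h3, h4⟩ := h2 a ha
  rcases lt_or_eq_of_le h3 with h5 | h5
  · exact h5
  exfalso
  have h6 := h4 h5.symm
  rw [Finset.sum_singleton] at h6
  have h7 := congrArg (fun y => phi y q) h6
  simp only [map_zsmul, Pi.smul_apply, hq, smul_eq_mul, mul_one] at h7
  rcases hb a ha q with h8 | h8
  · rw [h8] at h7
    rw [← h7, zero_smul] at h6
    exact ha0 h6
  · rw [h8] at h7
    rw [← h7, one_smul] at h6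
    exact hai h6

/-- only the support counts. -/
theorem Fam.congr {v : Fin n → L} {nu : Fin n → L →+ ℤ} (h : Fam phi G v nu) {G' : AO O L}
    (hs : supp G' = supp G) : Fam phi G' v nu :=
  ⟨h.bin, h.slf, h.oth, fun J hJ => by rw [hs]; exact h.fac J hJ, h.prt⟩

/-- THE CLOSING OF THE FIRST MEMBER. -/
theorem Fam.close {v : Fin (n + 1) → L} {nu : Fin (n + 1) → L →+ ℤ} (h : Fam phi G v nu)
    {i0 : P} (hS : co phi i0 (v 0) = 1) (eta : (RO O)ˣ) :
    Fam (phO phi (v 0) i0) (cl (co phi i0) (v 0) hS eta G)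
      (fun i : Fin n => prj (co phi i0) (v 0) hS (v i.succ))
      (fun i : Fin n => (nu i.succ).comp (incl (Ker (co phi i0)))) := by
  have hnu : ∀ (i : Fin n) (a : L), ((nu i.succ).comp (incl (Ker (co phi i0))))
      (prj (co phi i0) (v 0) hS a) = nu i.succ a := by
    intro i a
    change nu i.succ ((prj (co phi i0) (v 0) hS a : Ker (co phi i0)) : L) = _
    rw [prj_coe, map_sub, map_zsmul, h.oth i.succ 0 (Fin.succ_ne_zero i), smul_zero, sub_zero]
  have hprj0 : prj (co phi i0) (v 0) hS (v 0) = 0 := by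
    apply Subtype.ext
    rw [prj_coe, hS, one_smul, sub_self]
    rfl
  have hself : ∀ b : Ker (co phi i0), prj (co phi i0) (v 0) hS (b : L) = b := by
    intro b
    apply Subtype.ext
    have h1 : co phi i0 (b : L) = 0 := b.2
    rw [prj_coe, h1, zero_smul, sub_zero]
  have hpt : ∀ (a : L) (q : P), phi (v 0) q = 0 →
      phO phi (v 0) i0 (prj (co phi i0) (v 0) hS a) q = phi a q := by
    intro a q hq
    change (if phi (v 0) q = 0 then phi ((prj (co phi i0) (v 0) hS a : Ker (co phi i0)) : L) q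
      else 0) = _
    rw [if_pos hq, prj_coe, map_sub, map_zsmul, Pi.sub_apply, Pi.smul_apply, hq, smul_zero,
      sub_zero]
  -- the sums
  have hsum : ∀ (J : Finset (Fin n)) (a : L),
      a = ∑ i ∈ insert 0 (J.map (Fin.succEmb n)), (-nu i a) • v i →
      prj (co phi i0) (v 0) hS a =
        ∑ i ∈ J, (-nu i.succ a) • prj (co phi i0) (v 0) hS (v i.succ) := by
    intro J a ha
    have h1 := congrArg (prj (co phi i0) (v 0) hS) ha
    rw [map_sum, Finset.sum_insert, map_zsmul, hprj0, smul_zero, zero_add, Finset.sum_map] at h1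
    · rw [h1]
      refine Finset.sum_congr rfl fun i _ => ?_
      rw [map_zsmul]
      rfl
    · rw [Finset.mem_map]
      rintro ⟨i, -, hi⟩
      exact Fin.succ_ne_zero i hi
  refine ⟨?_, ?_, ?_, ?_, ?_⟩
  · intro i q
    by_cases hq : phi (v 0) q = 0
    · rw [hpt _ _ hq]
      exact h.bin i.succ q
    · left
      change (if phi (v 0) q = 0 then _ else 0) = 0
      rw [if_neg hq]
  · intro i
    rw [hnu]
    exact h.slf i.succ
  · intro i j hij
    rw [hnu]
    exact h.oth i.succ j.succ (fun h1 => hij (Fin.succ_injective n h1))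
  · intro J hJ
    obtain ⟨lam, h1, h2⟩ := h.fac (insert 0 (J.map (Fin.succEmb n))) ⟨0, Finset.mem_insert_self _ _⟩
    have h10 : lam (v 0) = 0 := h1 0 (Finset.mem_insert_self _ _)
    have hlp : ∀ a : L, lam ((prj (co phi i0) (v 0) hS a : Ker (co phi i0)) : L) = lam a := by
      intro a
      rw [prj_coe, map_sub, map_zsmul, h10, smul_zero, sub_zero]
    refine ⟨lam.comp (incl (Ker (co phi i0))), fun i hi => ?_, fun a' ha' => ?_⟩
    · change lam ((prj (co phi i0) (v 0) hS (v i.succ) : Ker (co phi i0)) : L) = 0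
      rw [hlp]
      exact h1 i.succ (Finset.mem_insert_of_mem (Finset.mem_map_of_mem (Fin.succEmb n) hi))
    · obtain ⟨a, ha, rfl⟩ := cl_supp hS eta ha'
      obtain ⟨h3, h4⟩ := h2 a ha
      have h5 : (lam.comp (incl (Ker (co phi i0)))) (prj (co phi i0) (v 0) hS a) = lam a := hlp a
      rw [h5]
      refine ⟨h3, fun h6 => ?_⟩
      refine (hsum J a (h4 h6)).trans (Finset.sum_congr rfl fun i _ => ?_)
      rw [hnu]
  · intro J hJ b hb
    have h1 := h.prt (insert 0 (J.map (Fin.succEmb n))) ⟨0, Finset.mem_insert_self _ _⟩ (b : L)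
      (fun q hq => by
        have hq0 := hq 0 (Finset.mem_insert_self _ _)
        have h2 := hb q (fun i hi => by
          rw [hpt _ _ hq0]
          exact hq i.succ (Finset.mem_insert_of_mem (Finset.mem_map_of_mem (Fin.succEmb n) hi)))
        have h3 := hpt (b : L) q hq0
        rw [hself] at h3
        rw [← h3]
        exact h2)
    have h2 := hsum J (b : L) h1
    rw [hself] at h2
    refine h2.trans (Finset.sum_congr rfl fun i _ => ?_)
    have h3 := hnu i (b : L)
    rw [hself] at h3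
    rw [h3]

/-- members of the span in the dual basis. -/
theorem span_dual {v : Fin n → L} {nu : Fin n → L →+ ℤ} (slf : ∀ i, nu i (v i) = -1)
    (oth : ∀ i j, i ≠ j → nu i (v j) = 0) {J : Finset (Fin n)} {x : L}
    (hx : x ∈ Submodule.span ℤ (v '' (J : Set (Fin n)))) : x = ∑ i ∈ J, (-nu i x) • v i := by
  classical
  induction hx using Submodule.span_induction with
  | mem y hy =>
    obtain ⟨j, hj, rfl⟩ := hy
    rw [Finset.sum_eq_single j]
    · rw [slf, neg_neg, one_smul]
    · intro i _ hij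
      rw [oth i j hij, neg_zero, zero_smul]
    · intro h1
      exact absurd hj h1
  | zero => simp
  | add y z _ _ h1 h2 =>
    have h3 : ∑ i ∈ J, (-nu i (y + z)) • v i =
        ∑ i ∈ J, (-nu i y) • v i + ∑ i ∈ J, (-nu i z) • v i := by
      rw [← Finset.sum_add_distrib]
      refine Finset.sum_congr rfl fun i _ => ?_
      rw [map_add, neg_add, add_smul]
    rw [h3, ← h1, ← h2]
  | smul m y _ h1 =>
    have h3 : ∑ i ∈ J, (-nu i (m • y)) • v i = m • ∑ i ∈ J, (-nu i y) • v i := by
      rw [Finset.smul_sum]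
      refine Finset.sum_congr rfl fun i _ => ?_
      rw [map_zsmul, smul_smul, smul_eq_mul, mul_neg]
    rw [h3, ← h1]

/-- a multiple in the span. -/
theorem sat_dual {v : Fin n → L} {nu : Fin n → L →+ ℤ} (slf : ∀ i, nu i (v i) = -1)
    (oth : ∀ i j, i ≠ j → nu i (v j) = 0) {J : Finset (Fin n)} {x : L} {m : ℤ} (hm : m ≠ 0)
    (hx : m • x ∈ Submodule.span ℤ (v '' (J : Set (Fin n)))) : x = ∑ i ∈ J, (-nu i x) • v i := by
  have h1 := span_dual slf oth hx
  have h3 : ∑ i ∈ J, (-nu i (m • x)) • v i = m • ∑ i ∈ J, (-nu i x) • v i := by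
    rw [Finset.smul_sum]
    refine Finset.sum_congr rfl fun i _ => ?_
    rw [map_zsmul, smul_smul, smul_eq_mul, mul_neg]
  rw [h3, ← sub_eq_zero, ← smul_sub] at h1
  rcases smul_eq_zero.mp h1 with h4 | h4
  · exact absurd h4 hm
  · exact sub_eq_zero.mp h4

/-- RAYS WITH DUAL FUNCTIONALS of a facet-port element. -/
theorem mk_fam (hF : FspS) (hRS : RaySpanS) (hE : E2S) (fp : FP phi G)
    (h2 : 2 ≤ Module.finrank ℤ L) {v : Fin n → L} {nu : Fin n → L →+ ℤ}
    (ray : ∀ i, Ray G (v i)) (slf : ∀ i, nu i (v i) = -1) (oth : ∀ i j, i ≠ j → nu i (v j) = 0)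
    (pos : ∀ i T, Ray G T → T ≠ v i → 0 ≤ nu i T) : Fam phi G v nu := by
  classical
  have hD := fp.dd
  have hne : ∀ i j, i ≠ j → v i ≠ v j := by
    intro i j hij h1
    have h3 := slf i
    rw [h1, oth i j hij] at h3
    norm_num at h3
  -- the functionals
  have hfun : ∀ J : Finset (Fin n), J.Nonempty → ∃ lam : L →+ ℤ, (∀ i ∈ J, lam (v i) = 0) ∧
      ∀ T, Ray G T → (∀ i ∈ J, T ≠ v i) → 0 < lam T := by
    intro J hJ
    obtain ⟨i', hi'⟩ := hJ
    obtain ⟨-, -, l, hl0, hl⟩ := ray i'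
    have hlv : ∀ i, i ≠ i' → 0 < l (v i) := fun i hi =>
      hl (v i) (ray i).1 (ray i).2.1 (hne i i' hi)
    refine ⟨l + ∑ i ∈ J.erase i', l (v i) • nu i, fun j hj => ?_, fun T hT hTJ => ?_⟩
    · rw [AddMonoidHom.add_apply, AddMonoidHom.finset_sum_apply]
      by_cases hji : j = i'
      · subst hji
        rw [hl0, zero_add]
        refine Finset.sum_eq_zero fun i hi => ?_
        rw [AddMonoidHom.smul_apply, oth i j (Finset.ne_of_mem_erase hi), smul_zero]
      · rw [Finset.sum_eq_single j]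
        · rw [AddMonoidHom.smul_apply, slf, smul_eq_mul]
          ring
        · intro i _ hij
          rw [AddMonoidHom.smul_apply, oth i j hij, smul_zero]
        · intro h1
          exact absurd (Finset.mem_erase.mpr ⟨hji, hj⟩) h1
    · rw [AddMonoidHom.add_apply, AddMonoidHom.finset_sum_apply]
      have h1 := hl T hT.1 hT.2.1 (hTJ i' hi')
      have h3 : 0 ≤ ∑ i ∈ J.erase i', (l (v i) • nu i) T := by
        refine Finset.sum_nonneg fun i hi => ?_
        rw [AddMonoidHom.smul_apply, smul_eq_mul]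
        exact mul_nonneg (hlv i (Finset.ne_of_mem_erase hi)).le
          (pos i T hT (hTJ i (Finset.mem_of_mem_erase hi)))
      linarith
  obtain ⟨-, hthin, -⟩ := hE O P L phi G hD h2
  obtain ⟨lam0, hlam0, -⟩ := hD.st.2
  have hclos : ∀ J : Finset (Fin n), J.Nonempty → ∀ lam : L →+ ℤ, (∀ i ∈ J, lam (v i) = 0) →
      (∀ T, Ray G T → (∀ i ∈ J, T ≠ v i) → 0 < lam T) → ∀ a ∈ supp G,
      0 ≤ lam a ∧ (lam a = 0 → a = ∑ i ∈ J, (-nu i a) • v i) := by
    intro J hJ lam hl1 hl2 a ha
    by_cases ha0 : a = 0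
    · subst ha0
      refine ⟨(map_zero lam).ge, fun _ => ?_⟩
      simp
    obtain ⟨m, hm, hmem⟩ := (hRS O L G ⟨lam0, hlam0⟩ hthin).1 a ha ha0
    have hind : 0 ≤ lam (m • a) ∧ (lam (m • a) = 0 →
        m • a ∈ Submodule.span ℤ (v '' (J : Set (Fin n)))) := by
      obtain ⟨y0, hy0⟩ : ∃ y, y = m • a := ⟨_, rfl⟩
      rw [← hy0] at hmem ⊢
      clear hy0
      induction hmem using AddSubmonoid.closure_induction with
      | mem y hy =>
        by_cases h3 : ∃ i ∈ J, y = v i
        · obtain ⟨i, hi, rfl⟩ := h3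
          exact ⟨(hl1 i hi).ge, fun _ => Submodule.subset_span ⟨i, hi, rfl⟩⟩
        · push Not at h3
          have h4 := hl2 y hy h3
          exact ⟨h4.le, fun h5 => absurd h5 h4.ne'⟩
      | zero => exact ⟨(map_zero lam).ge, fun _ => Submodule.zero_mem _⟩
      | add y z _ _ hy hz =>
        rw [map_add]
        refine ⟨add_nonneg hy.1 hz.1, fun h5 => ?_⟩
        exact Submodule.add_mem _ (hy.2 (by linarith [hz.1, hy.1])) (hz.2 (by linarith [hz.1, hy.1]))
    have hnz : (0 : ℤ) < (m : ℤ) := by exact_mod_cast hm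
    rw [map_nsmul, nsmul_eq_mul] at hind
    refine ⟨?_, fun h3 => ?_⟩
    · by_contra hneg
      push Not at hneg
      have := mul_neg_of_pos_of_neg hnz hneg
      omega
    · refine sat_dual slf oth (m := (m : ℤ)) hnz.ne' ?_
      rw [natCast_zsmul]
      exact hind.2 (by rw [h3, mul_zero])
  refine ⟨fun i => hD.bin (v i) (ray i).1, slf, oth, fun J hJ => ?_, fun J hJ b hb => ?_⟩
  · obtain ⟨lam, h3, h4⟩ := hfun J hJ
    exact ⟨lam, h3, hclos J hJ lam h3 h4⟩
  · obtain ⟨lam, h3, h4⟩ := hfun J hJ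
    obtain ⟨K, hK⟩ : ∃ K : Submodule ℤ L, K = satur (Submodule.span ℤ (v '' (J : Set (Fin n)))) :=
      ⟨_, rfl⟩
    have hin : ∀ y ∈ Submodule.span ℤ (v '' (J : Set (Fin n))), y ∈ K := fun y hy => by
      rw [hK]
      exact H63.le_satur _ hy
    have hvK : ∀ i ∈ J, v i ∈ K := fun i hi => hin _ (Submodule.subset_span ⟨i, hi, rfl⟩)
    have hmem : ∀ y ∈ K, ∃ m : ℤ, m ≠ 0 ∧ m • y ∈ Submodule.span ℤ (v '' (J : Set (Fin n))) := by
      intro y hy
      rw [hK] at hy
      exact hy
    have hlsp : ∀ y ∈ Submodule.span ℤ (v '' (J : Set (Fin n))), lam y = 0 := by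
      intro y hy
      rw [span_dual slf oth hy, map_sum]
      refine Finset.sum_eq_zero fun i hi => ?_
      rw [map_zsmul, h3 i hi, smul_zero]
    have hlK : ∀ y ∈ K, lam y = 0 := by
      intro y hy
      obtain ⟨m, hm, h5⟩ := hmem y hy
      have h6 := hlsp _ h5
      rw [map_zsmul, smul_eq_mul] at h6
      exact (mul_eq_zero.mp h6).resolve_left hm
    have hpos : ∀ y ∈ supp G, y ∉ K → 0 < lam y := by
      intro y hy hyK
      obtain ⟨h5, h6⟩ := hclos J hJ lam h3 h4 y hy
      rcases lt_or_eq_of_le h5 with h7 | h7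
      · exact h7
      · exfalso
        apply hyK
        rw [h6 h7.symm]
        exact K.sum_mem fun i hi => K.smul_mem _ (hvK i hi)
    have hrkK : rk {y | y ∈ supp G ∧ y ∈ K} = Module.finrank ℤ K := by
      unfold rk
      apply le_antisymm
      · apply Submodule.finrank_mono
        rw [Submodule.span_le]
        exact fun y hy => hy.2
      · have h5 : Module.finrank ℤ K =
            Module.finrank ℤ (Submodule.span ℤ (v '' (J : Set (Fin n)))) := by
          rw [hK, H07.finrank_satur]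
        rw [h5]
        apply Submodule.finrank_mono
        apply Submodule.span_mono
        rintro y ⟨i, hi, rfl⟩
        exact ⟨(ray i).1, hvK i hi⟩
    have hbK : b ∈ K := by
      by_contra hc
      obtain ⟨i, h5, h6⟩ := hF O P L phi G fp K lam (by rw [hK]; exact H63.satur_sat _) hlK hpos
        hrkK b hc
      exact h6 (hb i fun x hx => h5 (v x) (hvK x hx))
    obtain ⟨m, hm, h5⟩ := hmem b hbK
    exact sat_dual slf oth hm h5

end

end Pool.Agent.B5.KO57
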