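import Pool.Agent.Lib.MP_b5021c_nt.KO.H57.Ga
import Pool.Agent.Lib.MP_b5021c_nt.KO.H21.HurA
import Pool.Agent.Lib.MP_b5021c_nt.IfaceOF

/-!
# MP_b5021c_nt, K ODD, l = 3, ALPHA, row R1 (LN), the face of `Z i`, `Z (i+1)`, `Z' 0` (helper57)

`|u'| ≤ |V_h|` on the circle and `u' ≠ V_h`.
-/

set_option linter.unusedSectionVars false

namespace Pool.Agent.B5.KO57

open scoped LaurentPolynomial
open Polynomial Pool.Agent.B5

/-! ## One variable -/

/-- the maximum principle for polynomials, base case. -/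
theorem cmax0 {F R : ℂ[X]} (h0 : ∀ z : ℂ, ‖z‖ ≤ 1 → R.eval z ≠ 0)
    (h1 : ∀ z : ℂ, ‖z‖ = 1 → ‖F.eval z‖ ≤ ‖R.eval z‖) :
    ‖F.eval 0‖ ≤ ‖R.eval 0‖ ∧ (F.eval 0 = R.eval 0 → F = R) := by
  have hd : DiffContOnCl ℂ (fun w : ℂ => F.eval w / R.eval w) (Metric.ball 0 1) := by
    have h2 : DifferentiableOn ℂ (fun w : ℂ => F.eval w / R.eval w) (Metric.closedBall 0 1) := by
      refine DifferentiableOn.div ?_ ?_ ?_
      · exact F.differentiable.differentiableOn
      · exact R.differentiable.differentiableOn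
      · intro w hw
        exact h0 w (by simpa using hw)
    refine ⟨h2.mono Metric.ball_subset_closedBall, ?_⟩
    rw [closure_ball (0 : ℂ) one_ne_zero]
    exact h2.continuousOn
  have hle : ∀ z : ℂ, ‖z‖ ≤ 1 → ‖F.eval z / R.eval z‖ ≤ 1 := by
    intro z hz
    refine Complex.norm_le_of_forall_mem_frontier_norm_le Metric.isBounded_ball hd (fun w hw => ?_)
      (by rw [closure_ball (0 : ℂ) one_ne_zero]; simpa using hz)
    rw [frontier_ball (0 : ℂ) one_ne_zero] at hw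
    have hw1 : ‖w‖ = 1 := by simpa using hw
    have h2 := h0 w hw1.le
    rw [norm_div, div_le_one (norm_pos_iff.mpr h2)]
    exact h1 w hw1
  have h00 := h0 0 (by simp)
  constructor
  · have h2 := hle 0 (by simp)
    rwa [norm_div, div_le_one (norm_pos_iff.mpr h00)] at h2
  · intro he
    have h2 : Set.EqOn (fun w : ℂ => F.eval w / R.eval w)
        (Function.const ℂ (F.eval 0 / R.eval 0)) (Metric.ball 0 1) := by
      refine Complex.eqOn_of_isPreconnected_of_isMaxOn_norm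
        (convex_ball (0 : ℂ) 1).isPreconnected Metric.isOpen_ball hd.differentiableOn
        (Metric.mem_ball_self one_pos) ?_
      intro w hw
      have hw1 : ‖w‖ < 1 := by simpa using hw
      change ‖F.eval w / R.eval w‖ ≤ ‖F.eval 0 / R.eval 0‖
      rw [he, div_self h00, norm_one]
      exact hle w hw1.le
    refine Polynomial.eq_of_infinite_eval_eq F R ?_
    have h3 : Set.Infinite (Metric.ball (0 : ℂ) 1) := by
      have h4 : (Metric.ball (0 : ℂ) 1).Nonempty := ⟨0, Metric.mem_ball_self one_pos⟩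
      exact infinite_of_mem_nhds (0 : ℂ) (Metric.ball_mem_nhds 0 one_pos)
    refine h3.mono ?_
    intro w hw
    have hw1 : ‖w‖ < 1 := by simpa using hw
    have h4 := h2 hw
    simp only [Function.const_apply] at h4
    rw [he, div_self h00, div_eq_one_iff_eq (h0 w hw1.le)] at h4
    exact h4

/-- points of the circle near `ζ`. -/
theorem near_pt {F R : ℂ[X]} {ζ : ℂ} (hζ : ‖ζ‖ = 1)
    (h : ∀ z : ℂ, ‖z‖ = 1 → z ≠ ζ → ‖F.eval z‖ ≤ ‖R.eval z‖) : ‖F.eval ζ‖ ≤ ‖R.eval ζ‖ := by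
  have hζ0 : ζ ≠ 0 := by
    intro h0
    rw [h0, norm_zero] at hζ
    exact zero_ne_one hζ
  obtain ⟨g, hg⟩ : ∃ g : ℝ → ℂ, g = fun t : ℝ => ζ * Complex.exp ((t : ℂ) * Complex.I) := ⟨_, rfl⟩
  have hgc : Continuous g := by rw [hg]; fun_prop
  have hg0 : g 0 = ζ := by rw [hg]; simp
  have hgn : ∀ t, ‖g t‖ = 1 := by
    intro t
    rw [hg]
    change ‖ζ * Complex.exp (t * Complex.I)‖ = 1
    rw [norm_mul, hζ, Complex.norm_exp_ofReal_mul_I, one_mul]
  have hgne : ∀ t, 0 < t → t < 1 → g t ≠ ζ := by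
    intro t ht0 ht1 h1
    have h2 : Complex.exp (t * Complex.I) = 1 := by
      apply mul_left_cancel₀ hζ0
      rw [mul_one]
      rw [hg] at h1
      exact h1
    rw [Complex.exp_eq_one_iff] at h2
    obtain ⟨n, hn⟩ := h2
    have h3 : (t : ℂ) = n * (2 * Real.pi) := by
      apply mul_right_cancel₀ Complex.I_ne_zero
      rw [hn]
      ring
    have h4 : t = n * (2 * Real.pi) := by exact_mod_cast h3
    have hpi := Real.pi_gt_three
    rcases le_or_gt n 0 with h5 | h5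
    · have h6 : (n : ℝ) ≤ 0 := by exact_mod_cast h5
      nlinarith
    · have h6 : (1 : ℝ) ≤ n := by exact_mod_cast h5
      nlinarith
  have hF : Filter.Tendsto (fun t => ‖F.eval (g t)‖) (nhdsWithin 0 (Set.Ioi 0))
      (nhds ‖F.eval ζ‖) := by
    have h1 : Continuous fun t => ‖F.eval (g t)‖ := (F.continuous.comp hgc).norm
    have h2 := h1.continuousAt (x := 0)
    have h3 : Filter.Tendsto (fun t => ‖F.eval (g t)‖) (nhds 0) (nhds ‖F.eval (g 0)‖) := h2
    rw [hg0] at h3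
    exact h3.mono_left nhdsWithin_le_nhds
  have hR : Filter.Tendsto (fun t => ‖R.eval (g t)‖) (nhdsWithin 0 (Set.Ioi 0))
      (nhds ‖R.eval ζ‖) := by
    have h1 : Continuous fun t => ‖R.eval (g t)‖ := (R.continuous.comp hgc).norm
    have h2 := h1.continuousAt (x := 0)
    have h3 : Filter.Tendsto (fun t => ‖R.eval (g t)‖) (nhds 0) (nhds ‖R.eval (g 0)‖) := h2
    rw [hg0] at h3
    exact h3.mono_left nhdsWithin_le_nhds
  refine le_of_tendsto_of_tendsto hF hR ?_
  filter_upwards [Ioo_mem_nhdsGT (show (0 : ℝ) < 1 by norm_num)] with t ht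
  exact h _ (hgn t) (hgne t ht.1 ht.2)

/-- THE MAXIMUM PRINCIPLE, zeros of `R` on the circle allowed. -/
theorem cmax : ∀ (n : ℕ) {F R : ℂ[X]}, R.natDegree ≤ n → (∀ z : ℂ, ‖z‖ < 1 → R.eval z ≠ 0) →
    (∀ z : ℂ, ‖z‖ = 1 → ‖F.eval z‖ ≤ ‖R.eval z‖) →
    ‖F.eval 0‖ ≤ ‖R.eval 0‖ ∧ (F.eval 0 = R.eval 0 → F = R) := by
  intro n
  induction n with
  | zero =>
    intro F R hn h0 h1
    apply cmax0 _ h1
    intro z hz h2
    rw [Polynomial.eq_C_of_natDegree_le_zero hn, eval_C] at h2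
    apply h0 0 (by simp)
    rw [← coeff_zero_eq_eval_zero]
    exact h2
  | succ n ih =>
    intro F R hn h0 h1
    by_cases hc : ∀ z : ℂ, ‖z‖ = 1 → R.eval z ≠ 0
    · apply cmax0 _ h1
      intro z hz
      rcases lt_or_eq_of_le hz with h2 | h2
      · exact h0 z h2
      · exact hc z h2
    push Not at hc
    obtain ⟨ζ, hζ, hRζ⟩ := hc
    have hFζ : F.eval ζ = 0 := by
      have h2 := h1 ζ hζ
      rw [hRζ, norm_zero] at h2
      exact norm_le_zero_iff.mp h2
    obtain ⟨R1, hR1⟩ := Polynomial.dvd_iff_isRoot.mpr hRζ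
    obtain ⟨F1, hF1⟩ := Polynomial.dvd_iff_isRoot.mpr hFζ
    have hRne : R ≠ 0 := by
      intro h2
      apply h0 0 (by simp)
      rw [h2, eval_zero]
    have hR1ne : R1 ≠ 0 := by
      intro h2
      rw [h2, mul_zero] at hR1
      exact hRne hR1
    have hdeg : R1.natDegree ≤ n := by
      have h2 := congrArg natDegree hR1
      rw [Polynomial.natDegree_mul (X_sub_C_ne_zero ζ) hR1ne, natDegree_X_sub_C] at h2
      omega
    have hev : ∀ z, R.eval z = (z - ζ) * R1.eval z := fun z => by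
      rw [hR1, eval_mul, eval_sub, eval_X, eval_C]
    have hevF : ∀ z, F.eval z = (z - ζ) * F1.eval z := fun z => by
      rw [hF1, eval_mul, eval_sub, eval_X, eval_C]
    have hz1 : ∀ z : ℂ, ‖z‖ = 1 → z ≠ ζ → ‖F1.eval z‖ ≤ ‖R1.eval z‖ := by
      intro z hz hne
      have h2 := h1 z hz
      rw [hev, hevF, norm_mul, norm_mul] at h2
      exact le_of_mul_le_mul_left h2 (norm_pos_iff.mpr (sub_ne_zero.mpr hne))
    obtain ⟨h3, h4⟩ := ih (F := F1) (R := R1) hdeg (fun z hz h2 => h0 z hz (by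
      rw [hev, h2, mul_zero])) (fun z hz => by
      by_cases hne : z = ζ
      · rw [hne]
        exact near_pt hζ hz1
      · exact hz1 z hz hne)
    have hζ0 : (0 : ℂ) - ζ ≠ 0 := by
      rw [zero_sub, neg_ne_zero]
      intro h2
      rw [h2, norm_zero] at hζ
      exact zero_ne_one hζ
    constructor
    · rw [hev, hevF, norm_mul, norm_mul]
      exact mul_le_mul_of_nonneg_left h3 (norm_nonneg _)
    · intro h5
      rw [hev, hevF] at h5
      have h6 := h4 (mul_left_cancel₀ hζ0 h5)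
      rw [hR1, hF1, h6]

/-- An affine family. -/
theorem aff_lem {A al be : ℂ} (hA : A ≠ 0) {δ : ℝ} (hδ : 0 < δ)
    (h : ∀ t : ℂ, ‖t‖ < δ → ‖-A + be * t‖ ≤ ‖A + al * t‖) : al + be = 0 := by
  by_contra hne
  have hn : 0 < ‖al + be‖ := norm_pos_iff.mpr hne
  have hAn : 0 < ‖A‖ := norm_pos_iff.mpr hA
  -- the direction
  obtain ⟨ρ, hρ⟩ : ∃ ρ : ℂ, ρ = -(A * (starRingEnd ℂ) (al + be)) := ⟨_, rfl⟩
  have hρn : ‖ρ‖ = ‖A‖ * ‖al + be‖ := by
    rw [hρ, norm_neg, norm_mul, Complex.norm_conj]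
  have hρ0 : 0 < ‖ρ‖ := by rw [hρn]; positivity
  have key : ∀ s : ℝ, 0 < s → s * ‖ρ‖ < δ → 2 * (‖A‖ ^ 2 * ‖al + be‖ ^ 2) ≤
      s * (‖al‖ ^ 2 * ‖ρ‖ ^ 2) := by
    intro s hs hs1
    have h1 := h (s * ρ) (by
      rw [norm_mul, Complex.norm_real, Real.norm_eq_abs, abs_of_pos hs]
      exact hs1)
    have h2 : ‖-A + be * (s * ρ)‖ ^ 2 ≤ ‖A + al * (s * ρ)‖ ^ 2 := by
      exact pow_le_pow_left₀ (norm_nonneg _) h1 2
    rw [← Complex.normSq_eq_norm_sq, ← Complex.normSq_eq_norm_sq] at h2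
    have e1 : Complex.normSq (-A + be * (s * ρ)) = Complex.normSq A +
        s ^ 2 * (Complex.normSq be * Complex.normSq ρ) -
          2 * s * ((starRingEnd ℂ) A * (be * ρ)).re := by
      simp only [Complex.normSq_apply, Complex.add_re, Complex.add_im, Complex.neg_re,
        Complex.neg_im, Complex.mul_re, Complex.mul_im, Complex.ofReal_re, Complex.ofReal_im,
        Complex.conj_re, Complex.conj_im]
      ring
    have e2 : Complex.normSq (A + al * (s * ρ)) = Complex.normSq A +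
        s ^ 2 * (Complex.normSq al * Complex.normSq ρ) +
          2 * s * ((starRingEnd ℂ) A * (al * ρ)).re := by
      simp only [Complex.normSq_apply, Complex.add_re, Complex.add_im,
        Complex.mul_re, Complex.mul_im, Complex.ofReal_re, Complex.ofReal_im,
        Complex.conj_re, Complex.conj_im]
      ring
    have e3 : ((starRingEnd ℂ) A * (al * ρ)).re + ((starRingEnd ℂ) A * (be * ρ)).re =
        -(Complex.normSq A * Complex.normSq (al + be)) := by
      rw [hρ]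
      simp only [Complex.normSq_apply, Complex.add_re, Complex.add_im, Complex.neg_re,
        Complex.neg_im, Complex.mul_re, Complex.mul_im, map_add,
        Complex.conj_re, Complex.conj_im]
      ring
    rw [e1, e2] at h2
    have h3 : 0 ≤ Complex.normSq be * Complex.normSq ρ :=
      mul_nonneg (Complex.normSq_nonneg _) (Complex.normSq_nonneg _)
    have h4 : 2 * s * (Complex.normSq A * Complex.normSq (al + be)) ≤
        s ^ 2 * (Complex.normSq al * Complex.normSq ρ) := by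
      have h5 : 0 ≤ s ^ 2 * (Complex.normSq be * Complex.normSq ρ) := by positivity
      nlinarith
    rw [← Complex.normSq_eq_norm_sq, ← Complex.normSq_eq_norm_sq, ← Complex.normSq_eq_norm_sq,
      ← Complex.normSq_eq_norm_sq]
    have h6 : s * (2 * (Complex.normSq A * Complex.normSq (al + be))) ≤
        s * (s * (Complex.normSq al * Complex.normSq ρ)) := by nlinarith
    exact le_of_mul_le_mul_left h6 hs
  obtain ⟨B, hB⟩ : ∃ B : ℝ, B = ‖al‖ ^ 2 * ‖ρ‖ ^ 2 := ⟨_, rfl⟩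
  obtain ⟨C1, hC1⟩ : ∃ C1 : ℝ, C1 = 2 * (‖A‖ ^ 2 * ‖al + be‖ ^ 2) := ⟨_, rfl⟩
  have hC0 : 0 < C1 := by rw [hC1]; positivity
  have hB0 : 0 ≤ B := by rw [hB]; positivity
  rw [← hB, ← hC1] at key
  obtain ⟨s, hs⟩ : ∃ s : ℝ, s = min (δ / (2 * ‖ρ‖)) (C1 / (2 * (B + 1))) := ⟨_, rfl⟩
  have hs0 : 0 < s := by
    rw [hs]
    exact lt_min (by positivity) (by positivity)
  have hs1 : s * ‖ρ‖ < δ := by
    have h1 : s ≤ δ / (2 * ‖ρ‖) := by rw [hs]; exact min_le_left _ _
    have h2 : s * ‖ρ‖ ≤ δ / (2 * ‖ρ‖) * ‖ρ‖ := mul_le_mul_of_nonneg_right h1 hρ0.le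
    have h3 : δ / (2 * ‖ρ‖) * ‖ρ‖ = δ / 2 := by field_simp
    rw [h3] at h2
    linarith
  have h1 := key s hs0 hs1
  have h2 : s ≤ C1 / (2 * (B + 1)) := by rw [hs]; exact min_le_right _ _
  have h3 : s * (B + 1) ≤ C1 / 2 := by
    have h4 : s * (B + 1) ≤ C1 / (2 * (B + 1)) * (B + 1) :=
      mul_le_mul_of_nonneg_right h2 (by positivity)
    have h5 : C1 / (2 * (B + 1)) * (B + 1) = C1 / 2 := by field_simp
    rwa [h5] at h4
  nlinarith

/-! ## The face -/

open Pool.Agent.B5.KO.H71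
open Pool.Agent.B5.KE
open Pool.Agent.B5.KO.H96 (Alp)
open Pool.Agent.B5.KV67 (TT1 tA_val)
open Pool.Agent.B5.O4X

/-- The sum over the subsets of `Fin 3`. -/
theorem sum_sets3 (g : Finset (Fin 3) → ℂ) : ∑ I : Finset (Fin 3), g I =
    g ∅ + (g {0} + (g {1} + (g {2} + (g {0, 1} + (g {0, 2} + (g {1, 2} + g {0, 1, 2})))))) := by
  have hu : (Finset.univ : Finset (Finset (Fin 3))) =
      {∅, {0}, {1}, {2}, {0, 1}, {0, 2}, {1, 2}, {0, 1, 2}} := by decide
  rw [hu, Finset.sum_insert (by decide), Finset.sum_insert (by decide),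
    Finset.sum_insert (by decide), Finset.sum_insert (by decide), Finset.sum_insert (by decide),
    Finset.sum_insert (by decide), Finset.sum_insert (by decide), Finset.sum_singleton]

section

variable {P L : Type} [Fintype P] [DecidableEq P] [AddCommGroup L] [Module.Free ℤ L]
  [Module.Finite ℤ L] {phi : L →+ (P → ℤ)} {D : AO ℤ L} {eta : L → (RO ℤ)ˣ}
  {q f f' : ℤ[X]} {a : ℝ} {j : ℕ} {k : ℕ} {Z : ZMod (k + 3) → L}
  {mu : ZMod (k + 3) → L →+ ℤ} {Z' : ZMod 3 → L} {mu' : ZMod 3 → L →+ ℤ}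

/-- the common value of the pairs `Z i + Z' 0`. -/
noncomputable def Hh (D : AO ℤ L) (eta : L → (RO ℤ)ˣ) (S R : L) : RO ℤ :=
  (eta S : RO ℤ) * ((eta R : RO ℤ) * D.coeff (S + R))

theorem alp_face (hFcm : FcmS) (hF1 : F1S) (A : Alp phi D q f f' a j eta k 0 Z mu Z' mu')
    (hd : ∀ i l p, phi (Z i) p = 0 ∨ phi (Z' l) p = 0) (i : ZMod (k + 3)) (z : Circle)
    {x0 x1 x2 : ℂ} (h0 : ‖x0‖ < 1) (h1 : ‖x1‖ < 1) (h2 : ‖x2‖ < 1) :
    (aeval (z : ℂ) q + z * aeval (z : ℂ) f * (x0 + x1 - x0 * x1)) +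
      (z * aeval (z : ℂ) f' + evR z (Hh D eta (Z i) (Z' 0)) * (x0 + x1 - x0 * x1)) * x2 ≠ 0 := by
  have fp := A.w.ko.min.fp
  have hD := fp.dd
  have hrk := A.w.ko.rk
  have hj := A.w.ko.j2
  have hM := A.c.mtl i
  have r0 := hM.r0
  have r1 := hM.r1
  have rR := (A.c'.mtl 0).r0
  obtain ⟨S, hSd⟩ : ∃ S, S = Z i := ⟨_, rfl⟩
  obtain ⟨S1, hS1d⟩ : ∃ S1, S1 = Z (i + 1) := ⟨_, rfl⟩
  obtain ⟨R, hRd⟩ : ∃ R, R = Z' 0 := ⟨_, rfl⟩
  have hne01 : i ≠ i + 1 := (KO.H40.idx k i).1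
  have dSS : ∀ p, phi S p = 0 ∨ phi S1 p = 0 := by
    rw [hSd, hS1d]
    exact A.c.dis i (i + 1) hne01
  have dSR : ∀ p, phi S p = 0 ∨ phi R p = 0 := by rw [hSd, hRd]; exact hd i 0
  have dS1R : ∀ p, phi S1 p = 0 ∨ phi R p = 0 := by rw [hS1d, hRd]; exact hd (i + 1) 0
  rw [← hSd] at hM r0
  rw [← hS1d] at hM r1
  rw [← hRd] at rR
  have hF := hF1 ℤ P L phi D S (eta S) hD.inj hD.bin (hD.bin S r0.1) r0.2.1
  have hG := hF1 ℤ P L phi D S1 (eta S1) hD.inj hD.bin (hD.bin S1 r1.1) r1.2.1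
  have hRU : R ∈ US (eta S) S D := by
    rw [hSd, hRd]
    exact A.nu i 0 _
  have hRU1 : R ∈ US (eta S1) S1 D := by
    rw [hS1d, hRd]
    exact A.nu (i + 1) 0 _
  have a0 : R + S ∉ US (eta S1) S1 D := fun h => hM.m1 (by
    have := Submodule.sub_mem _ h hRU1
    rwa [add_sub_cancel_left] at this)
  have a1 : R + S1 ∉ US (eta S) S D := fun h => hM.m0 (by
    have := Submodule.sub_mem _ h hRU
    rwa [add_sub_cancel_left] at this)
  have e0 := (hG _ a0).2 (fun p => by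
    rw [map_add, Pi.add_apply]
    rcases dSS p with h | h
    · rw [h, add_zero]
      exact (dS1R p).symm
    · exact Or.inr h)
  have e1 := (hF _ a1).2 (fun p => by
    rw [map_add, Pi.add_apply]
    rcases dSS p with h | h
    · exact Or.inr h
    · rw [h, add_zero]
      exact (dSR p).symm)
  have e2 := (hF _ hM.m0).2 (fun p => (dSS p).symm)
  have c0 : D.coeff 0 = toLaurent q := A.w.ko.D0
  have rnf : ∀ n, (eta (Z n) : RO ℤ) * D.coeff (Z n) = toLaurent (X * f) := by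
    intro n
    obtain ⟨e, he, hR⟩ := A.w.rn (Z n) ⟨n, rfl⟩
    have h4 := ld_S hR 1
    rw [pow_one] at h4
    rw [he]
    exact h4
  have cS : (eta S : RO ℤ) * D.coeff S = toLaurent (X * f) := by rw [hSd]; exact rnf i
  have cS1 : (eta S1 : RO ℤ) * D.coeff S1 = toLaurent (X * f) := by rw [hS1d]; exact rnf (i + 1)
  have cR : (eta R : RO ℤ) * D.coeff R = toLaurent (X * f') := by
    obtain ⟨e, he, hR⟩ := A.w'.rn (Z' 0) ⟨0, rfl⟩
    have h4 := ld_S hR 1
    rw [pow_one] at h4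
    rw [hRd, he]
    exact h4
  obtain ⟨H, hH⟩ : ∃ H, H = Hh D eta (Z i) (Z' 0) := ⟨_, rfl⟩
  rw [← hH]
  rw [← hSd, ← hRd] at hH
  unfold Hh at hH
  have cSR : (eta S : RO ℤ) * ((eta R : RO ℤ) * D.coeff (S + R)) = H := hH.symm
  have eSR : R + S = S + R := add_comm _ _
  have eS1R : R + S1 = S1 + R := add_comm _ _
  have eT1 : S + R + S1 = S + S1 + R := by abel
  have eT2 : S1 + R + S = S + S1 + R := by abel
  rw [eSR, eT1] at e0
  rw [eS1R, eT2] at e1
  rw [add_comm S1 S] at e2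
  have cS1R : (eta S1 : RO ℤ) * ((eta R : RO ℤ) * D.coeff (S1 + R)) = H := by
    rw [← cSR]
    linear_combination (eta S1 : RO ℤ) * (eta R : RO ℤ) * e1 - (eta S : RO ℤ) * (eta R : RO ℤ) * e0
  have cT : (eta S : RO ℤ) * ((eta S1 : RO ℤ) * ((eta R : RO ℤ) * D.coeff (S + S1 + R))) = -H := by
    rw [← cSR]
    linear_combination (eta S : RO ℤ) * (eta R : RO ℤ) * e0
  have cSS : (eta S : RO ℤ) * ((eta S1 : RO ℤ) * D.coeff (S + S1)) = -toLaurent (X * f) := by
    rw [← cS1]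
    linear_combination (eta S1 : RO ℤ) * e2
  -- evaluation
  have nu : ∀ u : (RO ℤ)ˣ, ‖evR z (u : RO ℤ)‖ = 1 := fun u => H36.norm_evR_unit z _ u.isUnit
  have key := hFcm ℤ P L phi D 3 ![S, S1, R] hD (by omega)
    (fun m => by fin_cases m; exacts [hD.bin _ r0.1, hD.bin _ r1.1, hD.bin _ rR.1])
    (fun m => by fin_cases m; exacts [r0.2.1, r1.2.1, rR.2.1])
    (fun m n hmn p => by
      fin_cases m <;> fin_cases n
      · exact absurd rfl hmn
      · exact dSS p
      · exact dSR p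
      · exact (dSS p).symm
      · exact absurd rfl hmn
      · exact dS1R p
      · exact (dSR p).symm
      · exact (dS1R p).symm
      · exact absurd rfl hmn) z
    ![evR z (eta S : RO ℤ) * x0, evR z (eta S1 : RO ℤ) * x1, evR z (eta R : RO ℤ) * x2]
    (fun m => by
      fin_cases m
      · change ‖evR z (eta S : RO ℤ) * x0‖ < 1
        rw [norm_mul, nu, one_mul]; exact h0
      · change ‖evR z (eta S1 : RO ℤ) * x1‖ < 1
        rw [norm_mul, nu, one_mul]; exact h1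
      · change ‖evR z (eta R : RO ℤ) * x2‖ < 1
        rw [norm_mul, nu, one_mul]; exact h2)
  intro hz
  apply key
  rw [sum_sets3]
  have n01 : (0 : Fin 3) ≠ 1 := by decide
  have n02 : (0 : Fin 3) ≠ 2 := by decide
  have n12 : (1 : Fin 3) ≠ 2 := by decide
  have n012 : (0 : Fin 3) ∉ ({1, 2} : Finset (Fin 3)) := by decide
  simp only [Finset.sum_empty, Finset.prod_empty, Finset.sum_singleton, Finset.prod_singleton,
    Finset.sum_pair n01, Finset.sum_pair n02, Finset.sum_pair n12, Finset.prod_pair n01,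
    Finset.prod_pair n02, Finset.prod_pair n12, Finset.sum_insert n012, Finset.prod_insert n012,
    mul_one, Matrix.cons_val_zero, Matrix.cons_val_one, Matrix.cons_val]
  have t0 : evR z (D.coeff 0) = aeval (z : ℂ) q := by rw [c0, evR_poly]
  have tS : evR z (eta S : RO ℤ) * evR z (D.coeff S) = z * aeval (z : ℂ) f := by
    rw [← map_mul, cS, evR_poly, map_mul, aeval_X]
  have tS1 : evR z (eta S1 : RO ℤ) * evR z (D.coeff S1) = z * aeval (z : ℂ) f := by
    rw [← map_mul, cS1, evR_poly, map_mul, aeval_X]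
  have tR : evR z (eta R : RO ℤ) * evR z (D.coeff R) = z * aeval (z : ℂ) f' := by
    rw [← map_mul, cR, evR_poly, map_mul, aeval_X]
  have tSR : evR z (eta S : RO ℤ) * (evR z (eta R : RO ℤ) * evR z (D.coeff (S + R))) = evR z H := by
    rw [← map_mul, ← map_mul, cSR]
  have tS1R : evR z (eta S1 : RO ℤ) * (evR z (eta R : RO ℤ) * evR z (D.coeff (S1 + R))) =
      evR z H := by
    rw [← map_mul, ← map_mul, cS1R]
  have tSS : evR z (eta S : RO ℤ) * (evR z (eta S1 : RO ℤ) * evR z (D.coeff (S + S1))) =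
      -(z * aeval (z : ℂ) f) := by
    rw [← map_mul, ← map_mul, cSS, map_neg, evR_poly, map_mul, aeval_X]
  have tT : evR z (eta S : RO ℤ) * (evR z (eta S1 : RO ℤ) * (evR z (eta R : RO ℤ) *
      evR z (D.coeff (S + S1 + R)))) = -evR z H := by
    rw [← map_mul, ← map_mul, ← map_mul, cT, map_neg]
  have eT3 : S + (S1 + R) = S + S1 + R := (add_assoc _ _ _).symm
  rw [eT3, t0]
  linear_combination hz + x0 * tS + x1 * tS1 + x2 * tR + (x0 * x1) * tSS + (x0 * x2) * tSR +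
    (x1 * x2) * tS1R + (x0 * x1 * x2) * tT

end

end Pool.Agent.B5.KO57
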