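import Pool.Agent.Lib.MP_b5021c_nt.KO.H57.Ln1
import Pool.Agent.Lib.MP_b5021c_nt.KO.H57.Ln2
import Pool.Agent.Lib.MP_b5021c_nt.KO.H21.HurF
import Pool.Agent.Lib.MP_b5021c_nt.KO.H71.Sf6

/-!
# MP_b5021c_nt, K ODD, l = 3, ALPHA, row R1 (LN) (helper57)

`gR = f' - z^(-2) e e' D_(Z i + Z' 0)` is zero or has a sign as its lowest coefficient.
-/

set_option linter.unusedSectionVars false

namespace Pool.Agent.B5.KO57

open scoped LaurentPolynomial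
open Polynomial Pool.Agent.B5
open Pool.Agent.B5.KO.H71
open Pool.Agent.B5.KE
open Pool.Agent.B5.KO.H96 (Alp)
open Pool.Agent.B5.KV67 (TT1 tA_val)
open Pool.Agent.B5.Nr (TrezS)
open Pool.Agent.B5.H61 (CuspS)
open Pool.Agent.B5.O4X
open Pool.Agent.B5.BP57 (ray_poly zf_of_unit embZ)

/-! ## The point `-1` -/

/-- the point `-1`. -/
noncomputable def zm : Circle := ⟨-1, by simp [Submonoid.unitSphere]⟩

theorem zm_val : (zm : ℂ) = -1 := rfl

/-- divisibility by `1 + z`. -/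
theorem dvd_m1 {y : RO ℤ} : (1 + LaurentPolynomial.T 1 : RO ℤ) ∣ y ↔ evR zm y = 0 := by
  constructor
  · rintro ⟨x, rfl⟩
    have h1 : evR zm (1 + LaurentPolynomial.T 1 : RO ℤ) = 0 := by
      rw [map_add, map_one, H07.evR_T, zm_val, zpow_one]
      norm_num
    rw [map_mul, h1, zero_mul]
  · intro h
    by_cases hy : y = 0
    · rw [hy]
      exact dvd_zero _
    obtain ⟨m, p, hm, -⟩ := H40.exists_normal y hy
    rw [hm, map_mul, H07.evR_T, zm_val] at h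
    have h1 : evR zm (toLaurent p : RO ℤ) = 0 := by
      rcases mul_eq_zero.mp h with h2 | h2
      · exact absurd h2 (zpow_ne_zero m (by norm_num))
      · exact h2
    rw [evR_poly, zm_val] at h1
    have h2 : p.eval (-1) = 0 := by
      have h3 := KO67.aeval_int p (-1)
      rw [Int.cast_neg, Int.cast_one, h1] at h3
      exact_mod_cast h3.symm
    obtain ⟨x, hx⟩ := Polynomial.dvd_iff_isRoot.mpr h2
    refine ⟨LaurentPolynomial.T m * toLaurent x, ?_⟩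
    rw [hm, hx, map_mul, map_sub, toLaurent_X, toLaurent_C, map_neg, map_one]
    ring

section

variable {P L : Type} [Fintype P] [DecidableEq P] [AddCommGroup L] [Module.Free ℤ L]
  [Module.Finite ℤ L] {phi : L →+ (P → ℤ)} {D : AO ℤ L} {eta : L → (RO ℤ)ˣ}

/-- no zero of `q + z f` on the circle. -/
theorem cusp_w (hMV : MVS) (hMm : MmulS) (hE1 : E1S) (hPc : PCZS) (hClp : ClpS) (hFD : FDS)
    (hCu : CuspS) (hSf : SfzS) (hI3 : Io3S) (hMfc : MfcS) (hCa : Ca5S) (hGlc : GlcS)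
    (hFou : FouS) (hDti : DtiS) {q f : ℤ[X]} {a : ℝ} {j : ℕ} {C : Set L}
    (W : KcB phi D q f a j eta 1 C) (hu : f.coeff 0 = 1) {z : ℂ} (hz : ‖z‖ = 1) :
    (aeval z (q + X * f) : ℂ) ≠ 0 := by
  have hD := W.ko.min.fp.dd
  have h2 : 2 ≤ Module.finrank ℤ L := by have := W.ko.rk; have := W.ko.j2; omega
  obtain ⟨S, hS⟩ := W.kc.ne
  obtain ⟨S1, -, hM⟩ := W.kc.ex S hS
  obtain ⟨e, he, hRN⟩ := W.rn S hS
  obtain ⟨-, hzero, -⟩ := KO67.upper hMV hMm hE1 hPc hClp hFD hSf hI3 hMfc hCa hGlc hFou hDti W hu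
    hS he hRN
  rw [he] at hM
  exact cusp_m1 hCu hD h2 hRN hM hzero hz

/-- THE NORMAL FORM of the closing A. -/
theorem ead_nf (hMV : MVS) {q f : ℤ[X]} {a : ℝ} {j : ℕ} {K : Type} [AddCommGroup K]
    {G : AO ℤ K} {c : RO ℤ} (hc : ClassV 1 c) (h0 : c * G.coeff 0 = toLaurent (q - f))
    (hloc : Nr.Sch.Loc q f a) (hu : f.coeff 0 = 1)
    (hne : ∃ z : ℂ, ‖z‖ = 1 ∧ ‖aeval z f‖ ≠ ‖aeval z q‖)
    (hn : f.coeff 1 - q.coeff 1 = j + 1) :
    ∃ (w : (RO ℤ)ˣ) (c' p E : ℤ[X]), f - q = X * E ∧ E.coeff 0 = j + 1 ∧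
      (∀ z : ℂ, ‖z‖ < 1 → aeval z E ≠ 0) ∧ c'.coeff 0 = 1 ∧ E = c' * p ∧ p.coeff 0 = j + 1 ∧
      (w : RO ℤ) * G.coeff 0 = toLaurent p ∧
      c = -(LaurentPolynomial.T 1 * (toLaurent c' * (w : RO ℤ))) := by
  obtain ⟨E, hE, hE0, -, hEz⟩ := typa hloc hu hne
  rw [hn] at hE0
  obtain ⟨k, pc, hcp, hp1, hp0, hpz⟩ := H78.classV_nf hc
  have hpu : pc.coeff 0 = 1 ∨ pc.coeff 0 = -1 := by
    have h2 : |pc.coeff 0| = 1 := by exact_mod_cast hp1
    exact (abs_eq (by norm_num)).1 h2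
  have hG0' : c * G.coeff 0 = LaurentPolynomial.T 1 * toLaurent (-E) := by
    rw [h0]
    have h3 : q - f = X * -E := by rw [mul_neg, ← hE]; ring
    rw [h3, map_mul, toLaurent_X]
  obtain ⟨q', hq', hpq⟩ := H66.div_nf hp0 hcp hG0'
  obtain ⟨σ, hσ⟩ : ∃ σ : ℤ, σ = pc.coeff 0 := ⟨_, rfl⟩
  rw [← hσ] at hpu
  have hσσ : σ * σ = 1 := by rcases hpu with h | h <;> rw [h] <;> norm_num
  have hCC : (C σ * C σ : ℤ[X]) = 1 := by rw [← C_mul, hσσ, C_1]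
  -- the unit
  have hCCL : (LaurentPolynomial.C σ * LaurentPolynomial.C σ : RO ℤ) = 1 := by
    rw [← map_mul, hσσ, map_one]
  have hTT : ∀ n : ℤ, (LaurentPolynomial.T n * LaurentPolynomial.T (-n) : RO ℤ) = 1 := fun n => by
    rw [← LaurentPolynomial.T_add, add_neg_cancel, LaurentPolynomial.T_zero]
  obtain ⟨w, hw⟩ : ∃ w : (RO ℤ)ˣ, (w : RO ℤ) =
      -(LaurentPolynomial.C σ * LaurentPolynomial.T (k - 1)) :=
    ⟨⟨-(LaurentPolynomial.C σ * LaurentPolynomial.T (k - 1)),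
      -(LaurentPolynomial.C σ * LaurentPolynomial.T (-(k - 1))), by
        linear_combination (LaurentPolynomial.T (k - 1) * LaurentPolynomial.T (-(k - 1)) : RO ℤ) *
          hCCL + hTT (k - 1), by
        linear_combination (LaurentPolynomial.T (k - 1) * LaurentPolynomial.T (-(k - 1)) : RO ℤ) *
          hCCL + hTT (k - 1)⟩, rfl⟩
  refine ⟨w, C σ * pc, -(C σ * q'), E, hE, hE0, hEz, ?_, ?_, ?_, ?_, ?_⟩
  · rw [coeff_C_mul, ← hσ, hσσ]
  · have h1 : C σ * pc * -(C σ * q') = -((C σ * C σ) * (pc * q')) := by ring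
    rw [h1, hCC, hpq]
    ring
  · have h1 := congrArg (fun r : ℤ[X] => r.coeff 0) hpq
    simp only [mul_coeff_zero, coeff_neg] at h1
    rw [← hσ, hE0] at h1
    rw [coeff_neg, coeff_C_mul]
    linarith
  · rw [hw, hq', map_neg, map_mul, toLaurent_C]
    have h1 : (LaurentPolynomial.T (k - 1) * LaurentPolynomial.T (1 - k) : RO ℤ) = 1 := by
      have h2 := hTT (k - 1)
      rwa [neg_sub] at h2
    linear_combination (-(LaurentPolynomial.C σ * toLaurent q') : RO ℤ) * h1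
  · rw [hw, hcp, map_mul, toLaurent_C]
    have h1 : (LaurentPolynomial.T 1 * LaurentPolynomial.T (k - 1) : RO ℤ) =
        LaurentPolynomial.T k := by
      rw [← LaurentPolynomial.T_add]
      congr 1
      ring
    linear_combination (-(toLaurent pc) : RO ℤ) * h1 -
      (LaurentPolynomial.T 1 * LaurentPolynomial.T (k - 1) * toLaurent pc : RO ℤ) * hCCL

/-- `V_h = E - (1 + z) f` has no zero in the open disc. -/
theorem vh_zf (hE2 : E2S) (hVZ : VZS) (hU : UnitRS) {f : ℤ[X]} {j : ℕ} {K : Type}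
    [AddCommGroup K] [Module.Free ℤ K] [Module.Finite ℤ K] {Q : Type} [Fintype Q] [DecidableEq Q]
    {psi : K →+ (Q → ℤ)} {G : AO ℤ K} (hD : DD psi G) (hr : 2 ≤ Module.finrank ℤ K) {T : K}
    (hT : Ray G T) (hV : ClassV ((j + 1 : ℕ) : ℝ) (G.coeff 0)) {c : RO ℤ} {w : (RO ℤ)ˣ}
    {c' p E : ℤ[X]} (hEz : ∀ z : ℂ, ‖z‖ < 1 → (aeval z E : ℂ) ≠ 0) (hEp : E = c' * p)
    (hp : (w : RO ℤ) * G.coeff 0 = toLaurent p) (hp0 : p.coeff 0 = j + 1)
    (hc : c = -(LaurentPolynomial.T 1 * (toLaurent c' * (w : RO ℤ))))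
    (hw : ∃ u : (RO ℤ)ˣ, (u : RO ℤ) * (c * G.coeff T) = toLaurent ((1 + X) * f))
    (hf : f.coeff 0 = 1) {z : ℂ} (hz : ‖z‖ < 1) : (aeval z (E - (1 + X) * f) : ℂ) ≠ 0 := by
  have hpne : p.coeff 0 ≠ 0 := by rw [hp0]; omega
  obtain ⟨hpz, -⟩ := zf_of_unit hU hV hp hpne
  have hwi : ∃ (s n : ℤ), (s = 1 ∨ s = -1) ∧ ((w⁻¹ : (RO ℤ)ˣ) : RO ℤ) =
      LaurentPolynomial.C s * LaurentPolynomial.T n := by
    obtain ⟨s, n, hs, h1, -⟩ := KO90.unit_mono hU w⁻¹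
    exact ⟨s, n, hs, h1⟩
  obtain ⟨s, n, hs, hwi⟩ := hwi
  have hG0 : G.coeff 0 = LaurentPolynomial.T n * toLaurent (C s * p) := by
    have h1 : G.coeff 0 = ((w⁻¹ : (RO ℤ)ˣ) : RO ℤ) * ((w : RO ℤ) * G.coeff 0) := by
      rw [← mul_assoc, Units.inv_mul, one_mul]
    rw [h1, hp, hwi, map_mul, toLaurent_C]
    ring
  have hsn : ‖(Coef.emb s : ℂ)‖ = 1 := by
    rw [embZ, Complex.norm_intCast]
    rcases hs with h1 | h1 <;> rw [h1] <;> norm_num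
  have hsz : ZF ((C s * p).map Coef.emb) := by
    intro y hy h1
    rw [Polynomial.map_mul, map_C, eval_mul, eval_C] at h1
    rcases mul_eq_zero.mp h1 with h2 | h2
    · rw [h2, norm_zero] at hsn
      exact zero_ne_one hsn
    · exact hpz y hy h2
  obtain ⟨m, g, hg, hg0, -, -, hlt⟩ := ray_poly hE2 hVZ hD hr hT hG0 hsz
  have h1 := hlt z hz
  rw [Polynomial.map_mul, map_C, eval_mul, eval_C, norm_mul, hsn, one_mul, ev_map, ev_map] at h1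
  -- `(1 + X) f` and `c' g`
  obtain ⟨u, hu⟩ := hw
  obtain ⟨s1, n1, hs1, hu1, -⟩ := KO90.unit_mono hU u
  obtain ⟨s2, n2, hs2, hw2, -⟩ := KO90.unit_mono hU w
  have hs10 : s1 ≠ 0 := by rcases hs1 with h2 | h2 <;> rw [h2] <;> norm_num
  have hs20 : s2 ≠ 0 := by rcases hs2 with h2 | h2 <;> rw [h2] <;> norm_num
  have hc'0 : c'.coeff 0 ≠ 0 := by
    intro h2
    apply hEz 0 (by simp)
    rw [← coeff_zero_eq_aeval_zero', hEp, mul_coeff_zero, h2, zero_mul, map_zero]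
  have key : (LaurentPolynomial.T (n1 + 1 + n2 + m) : RO ℤ) *
      toLaurent (C (-(s1 * s2)) * (c' * g)) = LaurentPolynomial.T 0 * toLaurent ((1 + X) * f) := by
    rw [LaurentPolynomial.T_zero, one_mul, ← hu, hc, hg, hu1, hw2]
    simp only [map_mul, toLaurent_C, map_neg, LaurentPolynomial.T_add]
    ring
  obtain ⟨-, h2⟩ := H56.nf_unique _ _ _ _ (by
    rw [coeff_C_mul, mul_coeff_zero]
    exact mul_ne_zero (neg_ne_zero.mpr (mul_ne_zero hs10 hs20)) (mul_ne_zero hc'0 hg0)) (by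
    rw [mul_coeff_zero, hf, mul_one, coeff_add, coeff_one_zero, coeff_X_zero, add_zero]
    exact one_ne_zero) key
  intro h3
  rw [map_sub, sub_eq_zero, ← h2, hEp, map_mul, map_mul, map_mul] at h3
  have h4 := congrArg norm h3
  rw [norm_mul, norm_mul, norm_mul, aeval_C] at h4
  have h5 : ‖((algebraMap ℤ ℂ) (-(s1 * s2)))‖ = 1 := by
    have h6 : (algebraMap ℤ ℂ) (-(s1 * s2)) = ((-(s1 * s2) : ℤ) : ℂ) := by simp
    rw [h6, Complex.norm_intCast]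
    rcases hs1 with h7 | h7 <;> rcases hs2 with h8 | h8 <;> rw [h7, h8] <;> norm_num
  rw [h5, one_mul] at h4
  have h6 : 0 < ‖(aeval z c' : ℂ)‖ := by
    rw [norm_pos_iff]
    intro h7
    apply hEz z hz
    rw [hEp, map_mul, h7, zero_mul]
  have h7 := mul_lt_mul_of_pos_left h1 h6
  linarith

variable {q f f' : ℤ[X]} {a : ℝ} {j : ℕ} {k : ℕ} {Z : ZMod (k + 3) → L}
  {mu : ZMod (k + 3) → L →+ ℤ} {Z' : ZMod 3 → L} {mu' : ZMod 3 → L →+ ℤ}

theorem lin_le {A B : ℂ} (h : ∀ x : ℂ, ‖x‖ < 1 → A + B * x ≠ 0) : ‖B‖ ≤ ‖A‖ := by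
  by_contra hlt
  push Not at hlt
  have hB : B ≠ 0 := by
    intro h0
    rw [h0, norm_zero] at hlt
    exact absurd (norm_nonneg A) (not_le.mpr hlt)
  apply h (-(A / B))
  · rw [norm_neg, norm_div, div_lt_one (norm_pos_iff.mpr hB)]
    exact hlt
  · field_simp
    ring

/-- `|u'| ≤ |V_h|` on the circle. -/
theorem alp_le (hFcm : FcmS) (hF1 : F1S) (A : Alp phi D q f f' a j eta k 0 Z mu Z' mu')
    (hd : ∀ i l p, phi (Z i) p = 0 ∨ phi (Z' l) p = 0) (i : ZMod (k + 3)) (z : Circle) :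
    ‖(z * aeval (z : ℂ) f' + evR z (Hh D eta (Z i) (Z' 0)) * (1 + z - (z : ℂ)⁻¹) : ℂ)‖ ≤
      ‖(aeval (z : ℂ) q + z * aeval (z : ℂ) f * (1 + z - (z : ℂ)⁻¹) : ℂ)‖ := by
  obtain ⟨s, hs⟩ : ∃ s : ℝ → ℂ, s = fun t : ℝ => -((t : ℂ) * (z : ℂ)⁻¹) + (t : ℂ) * z -
      -((t : ℂ) * (z : ℂ)⁻¹) * ((t : ℂ) * z) := ⟨_, rfl⟩
  have hz0 : (z : ℂ) ≠ 0 := Circle.coe_ne_zero z
  have hsc : Continuous s := by rw [hs]; fun_prop
  have hs1 : s 1 = 1 + z - (z : ℂ)⁻¹ := by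
    rw [hs]
    change -(((1 : ℝ) : ℂ) * (z : ℂ)⁻¹) + ((1 : ℝ) : ℂ) * z -
      -(((1 : ℝ) : ℂ) * (z : ℂ)⁻¹) * (((1 : ℝ) : ℂ) * z) = _
    rw [Complex.ofReal_one]
    have h1 := inv_mul_cancel₀ hz0
    linear_combination h1
  have hle : ∀ t : ℝ, 0 ≤ t → t < 1 →
      ‖(z * aeval (z : ℂ) f' + evR z (Hh D eta (Z i) (Z' 0)) * s t : ℂ)‖ ≤
      ‖(aeval (z : ℂ) q + z * aeval (z : ℂ) f * s t : ℂ)‖ := by
    intro t ht0 ht1
    apply lin_le
    intro x hx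
    have h0 : ‖-((t : ℂ) * (z : ℂ)⁻¹)‖ < 1 := by
      rw [norm_neg, norm_mul, norm_inv, Circle.norm_coe, inv_one, mul_one, Complex.norm_real,
        Real.norm_eq_abs, abs_of_nonneg ht0]
      exact ht1
    have h1 : ‖(t : ℂ) * (z : ℂ)‖ < 1 := by
      rw [norm_mul, Circle.norm_coe, mul_one, Complex.norm_real, Real.norm_eq_abs,
        abs_of_nonneg ht0]
      exact ht1
    have h2 := alp_face hFcm hF1 A hd i z h0 h1 hx
    rw [hs]
    exact h2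
  have hF : Filter.Tendsto (fun t : ℝ =>
      ‖(z * aeval (z : ℂ) f' + evR z (Hh D eta (Z i) (Z' 0)) * s t : ℂ)‖) (nhdsWithin 1 (Set.Iio 1))
      (nhds ‖(z * aeval (z : ℂ) f' + evR z (Hh D eta (Z i) (Z' 0)) * s 1 : ℂ)‖) := by
    have h1 : Continuous fun t : ℝ =>
      ‖(z * aeval (z : ℂ) f' + evR z (Hh D eta (Z i) (Z' 0)) * s t : ℂ)‖ := by fun_prop
    exact (h1.tendsto 1).mono_left nhdsWithin_le_nhds
  have hR : Filter.Tendsto (fun t : ℝ =>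
      ‖(aeval (z : ℂ) q + z * aeval (z : ℂ) f * s t : ℂ)‖) (nhdsWithin 1 (Set.Iio 1))
      (nhds ‖(aeval (z : ℂ) q + z * aeval (z : ℂ) f * s 1 : ℂ)‖) := by
    have h1 : Continuous fun t : ℝ =>
      ‖(aeval (z : ℂ) q + z * aeval (z : ℂ) f * s t : ℂ)‖ := by fun_prop
    exact (h1.tendsto 1).mono_left nhdsWithin_le_nhds
  rw [hs1] at hF hR
  refine le_of_tendsto_of_tendsto hF hR ?_
  filter_upwards [Ioo_mem_nhdsLT (show (0 : ℝ) < 1 by norm_num)] with t ht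
  exact hle t ht.1.le ht.2

/-- `u' = V_h` is impossible. -/
theorem alp_ne (hMV : MVS) (hMm : MmulS) (hE1 : E1S) (hPc : PCZS) (hClp : ClpS) (hFD : FDS)
    (hCu : CuspS) (hSf : SfzS) (hI3 : Io3S) (hMfc : MfcS) (hCa : Ca5S) (hGlc : GlcS)
    (hFou : FouS) (hDti : DtiS) (hFcm : FcmS) (hF1 : F1S)
    (A : Alp phi D q f f' a j eta k 0 Z mu Z' mu')
    (hd : ∀ i l p, phi (Z i) p = 0 ∨ phi (Z' l) p = 0) (i : ZMod (k + 3)) {z : Circle}
    (hre : (z : ℂ).re ≠ 0) (him : (z : ℂ).im ≠ 0)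
    (h : (z * aeval (z : ℂ) f' + evR z (Hh D eta (Z i) (Z' 0)) * (1 + z - (z : ℂ)⁻¹) : ℂ) =
      -(aeval (z : ℂ) q + z * aeval (z : ℂ) f * (1 + z - (z : ℂ)⁻¹) : ℂ)) : False := by
  obtain ⟨τ, hτ, hτ2⟩ := KO21.kap_root hre him
  obtain ⟨A0, hA0⟩ : ∃ A0 : ℂ, A0 = aeval (z : ℂ) q + z * aeval (z : ℂ) f * (1 + z - (z : ℂ)⁻¹) :=
    ⟨_, rfl⟩
  obtain ⟨B0, hB0⟩ : ∃ B0 : ℂ, B0 = evR z (Hh D eta (Z i) (Z' 0)) := ⟨_, rfl⟩
  obtain ⟨F, hF⟩ : ∃ F : ℂ, F = z * aeval (z : ℂ) f := ⟨_, rfl⟩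
  have hs : τ + τ - τ * τ = 1 + z - (z : ℂ)⁻¹ := by linear_combination -hτ2
  have hAne : A0 ≠ 0 := by
    have h1 := alp_face hFcm hF1 A hd i z hτ hτ (x2 := 0) (by simp)
    rw [mul_zero, add_zero, hs] at h1
    rw [hA0]
    exact h1
  have hτ1 : (1 : ℂ) - τ ≠ 0 := by
    intro h1
    rw [sub_eq_zero] at h1
    rw [← h1, norm_one] at hτ
    exact lt_irrefl _ hτ
  have h3 : F * (1 - τ) + B0 * (1 - τ) = 0 := by
    apply aff_lem hAne (δ := 1 - ‖τ‖) (by linarith)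
    intro t ht
    have h4 : ‖τ + t‖ < 1 := lt_of_le_of_lt (norm_add_le _ _) (by linarith)
    have h5 : ∀ x : ℂ, ‖x‖ < 1 → (A0 + F * (1 - τ) * t) + (-A0 + B0 * (1 - τ) * t) * x ≠ 0 := by
      intro x hx
      have h6 := alp_face hFcm hF1 A hd i z hτ h4 hx
      rw [← hB0, ← hF] at h6
      rw [← hA0, ← hB0] at h
      rw [← hF] at hA0
      intro h7
      apply h6
      have h8 : τ + (τ + t) - τ * (τ + t) = (1 + z - (z : ℂ)⁻¹) + (1 - τ) * t := by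
        linear_combination hs
      rw [h8]
      linear_combination h7 - hA0 + x * h
    exact lin_le h5
  have h4 : F + B0 = 0 := by
    rcases mul_eq_zero.mp (show (F + B0) * (1 - τ) = 0 by linear_combination h3) with h5 | h5
    · exact h5
    · exact absurd h5 hτ1
  have h5 : (aeval (z : ℂ) (q + X * f') : ℂ) = 0 := by
    rw [map_add, map_mul, aeval_X]
    rw [← hB0, ← hF] at h
    linear_combination h + (-(1 + z - (z : ℂ)⁻¹)) * h4
  exact cusp_w hMV hMm hE1 hPc hClp hFD hCu hSf hI3 hMfc hCa hGlc hFou hDti A.w' A.u'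
    (Circle.norm_coe z) h5

end

end Pool.Agent.B5.KO57
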