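import Pool.Agent.Lib.MP_b5021c_nt.BP.H57.T2n
import Pool.Agent.Lib.MP_b5021c_nt.KE.H96.Fin

/-!
# MP_b5021c_nt, K ODD, l = 3, ALPHA, row AL_T2: the one-variable part (helper57)

From the output of `t2n`: `p = N`, and `g = 1` or (`N = 3` and `g = 1 ± X^d`).
-/

namespace Pool.Agent.B5.KO57

open scoped LaurentPolynomial
open Polynomial Pool.Agent.B5
open Pool.Agent.MP_b5021c_nt (Eis)
open Pool.Agent.B5.BP90 (Et pE pE_inj embN et_im_ne)
open Pool.Agent.B5.BP57 (pE_coeff bin_of_et)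

/-- the two primitive sixth roots of unity. -/
theorem et_cases {et : Eis} (he : Et et) : (et.re = 1 ∧ et.im = 1) ∨ (et.re = 0 ∧ et.im = -1) := by
  have h1 : (Eis.emb et).re = 1 / 2 := he.re
  have h2 : (Eis.emb et).im ^ 2 = 3 / 4 := he.im
  rw [Eis.emb_re] at h1
  rw [Eis.emb_im] at h2
  have h3 : ((et.im : ℝ)) ^ 2 = 1 := by
    have := Eis.sqrt3_sq
    have h4 : ((et.im : ℝ)) ^ 2 * (√3 * √3) = 3 := by linear_combination 4 * h2
    rw [this] at h4
    linarith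
  have h4 : et.im ^ 2 = 1 := by exact_mod_cast h3
  have h5 : et.im = 1 ∨ et.im = -1 := by
    have h6 : (et.im - 1) * (et.im + 1) = 0 := by linear_combination h4
    rcases mul_eq_zero.mp h6 with h7 | h7
    · left; omega
    · right; omega
  rcases h5 with h6 | h6
  · left
    rw [h6] at h1
    refine ⟨?_, h6⟩
    have : (et.re : ℝ) = 1 := by push_cast at h1; linarith
    exact_mod_cast this
  · right
    rw [h6] at h1
    refine ⟨?_, h6⟩
    have : (et.re : ℝ) = 0 := by push_cast at h1; linarith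
    exact_mod_cast this

/-- the six units. -/
theorem unit_cases (s : Eisˣ) : ((s : Eis).re = 1 ∧ (s : Eis).im = 0) ∨
    ((s : Eis).re = -1 ∧ (s : Eis).im = 0) ∨ ((s : Eis).re = 0 ∧ (s : Eis).im = 1) ∨
    ((s : Eis).re = 0 ∧ (s : Eis).im = -1) ∨ ((s : Eis).re = 1 ∧ (s : Eis).im = 1) ∨
    ((s : Eis).re = -1 ∧ (s : Eis).im = -1) := by
  have h1 := Eis.isUnit_iff.mp s.isUnit
  rw [Eis.norm_eq] at h1
  obtain ⟨a, ha⟩ : ∃ a, a = (s : Eis).re := ⟨_, rfl⟩
  obtain ⟨b, hb⟩ : ∃ b, b = (s : Eis).im := ⟨_, rfl⟩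
  rw [← ha, ← hb] at h1 ⊢
  have ha1 : a ^ 2 ≤ 1 := by
    have h2 : 3 * a ^ 2 + (a - 2 * b) ^ 2 = 4 := by linear_combination 4 * h1
    nlinarith [sq_nonneg (a - 2 * b)]
  have hb1 : b ^ 2 ≤ 1 := by
    have h2 : 3 * b ^ 2 + (b - 2 * a) ^ 2 = 4 := by linear_combination 4 * h1
    nlinarith [sq_nonneg (b - 2 * a)]
  have ha2 : a = 1 ∨ a = 0 ∨ a = -1 := by
    have h3 : a ≤ 1 := by nlinarith
    have h4 : -1 ≤ a := by nlinarith
    omega
  have hb2 : b = 1 ∨ b = 0 ∨ b = -1 := by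
    have h3 : b ≤ 1 := by nlinarith
    have h4 : -1 ≤ b := by nlinarith
    omega
  clear ha hb ha1 hb1
  rcases ha2 with rfl | rfl | rfl <;> rcases hb2 with rfl | rfl | rfl <;>
    first | (norm_num at h1; done) | norm_num

/-- the coefficients. -/
theorem ab_cases {et : Eis} (he : Et et) {N : ℕ} {s : Eisˣ} {a b : ℤ}
    (h : ((a : ℤ) : Eis) - et * ((b : ℤ) : Eis) - ((b : ℤ) : Eis) =
      -((((N : ℤ) : Eis) - et - 1) * (s : Eis))) :
    ∃ e : ℤ, (e = 1 ∨ e = -1) ∧ ((a = e * N ∧ b = e) ∨ (a = e * (2 * N - 3) ∧ b = e * (N - 1)) ∨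
      (a = e * (N - 3) ∧ b = e * (N - 2))) := by
  have hre := congrArg QuadraticAlgebra.re h
  have him := congrArg QuadraticAlgebra.im h
  simp only [QuadraticAlgebra.re_sub, QuadraticAlgebra.im_sub, QuadraticAlgebra.re_mul,
    QuadraticAlgebra.im_mul, QuadraticAlgebra.re_neg, QuadraticAlgebra.im_neg,
    QuadraticAlgebra.re_intCast, QuadraticAlgebra.im_intCast, QuadraticAlgebra.re_one,
    QuadraticAlgebra.im_one, Int.cast_id] at hre him
  rcases et_cases he with ⟨h1, h2⟩ | ⟨h1, h2⟩ <;>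
    rcases unit_cases s with ⟨h3, h4⟩ | ⟨h3, h4⟩ | ⟨h3, h4⟩ | ⟨h3, h4⟩ | ⟨h3, h4⟩ | ⟨h3, h4⟩ <;>
    rw [h1, h2, h3, h4] at hre him
  · exact ⟨-1, Or.inr rfl, Or.inl ⟨by linarith, by linarith⟩⟩
  · exact ⟨1, Or.inl rfl, Or.inl ⟨by linarith, by linarith⟩⟩
  · exact ⟨1, Or.inl rfl, Or.inr (Or.inl ⟨by linarith, by linarith⟩)⟩
  · exact ⟨-1, Or.inr rfl, Or.inr (Or.inl ⟨by linarith, by linarith⟩)⟩
  · exact ⟨1, Or.inl rfl, Or.inr (Or.inr ⟨by linarith, by linarith⟩)⟩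
  · exact ⟨-1, Or.inr rfl, Or.inr (Or.inr ⟨by linarith, by linarith⟩)⟩
  · exact ⟨-1, Or.inr rfl, Or.inl ⟨by linarith, by linarith⟩⟩
  · exact ⟨1, Or.inl rfl, Or.inl ⟨by linarith, by linarith⟩⟩
  · exact ⟨-1, Or.inr rfl, Or.inr (Or.inr ⟨by linarith, by linarith⟩)⟩
  · exact ⟨1, Or.inl rfl, Or.inr (Or.inr ⟨by linarith, by linarith⟩)⟩
  · exact ⟨-1, Or.inr rfl, Or.inr (Or.inl ⟨by linarith, by linarith⟩)⟩
  · exact ⟨1, Or.inl rfl, Or.inr (Or.inl ⟨by linarith, by linarith⟩)⟩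

theorem aC (z : ℂ) (n : ℤ) : (aeval z (C n : ℤ[X]) : ℂ) = n := by
  rw [aeval_C]
  rfl

/-- a point of the circle with a given `d`-th power. -/
theorem pow_pt {d : ℕ} (hd : 1 ≤ d) {w : ℂ} (hw : ‖w‖ = 1) : ∃ z : ℂ, ‖z‖ = 1 ∧ z ^ d = w := by
  obtain ⟨z, hz⟩ := IsAlgClosed.exists_pow_nat_eq w (by omega : 0 < d)
  refine ⟨z, ?_, hz⟩
  have h1 : ‖z‖ ^ d = 1 := by rw [← norm_pow, hz, hw]
  exact (pow_eq_one_iff_of_nonneg (norm_nonneg z) (by omega)).1 h1

/-- the pair `(N + e (N-3) X^d, 1 + e (N-2) X^d)` is impossible for `4 ≤ N`. -/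
theorem no_third {p g : ℤ[X]} {N d : ℕ} {e : ℤ} (hN : 4 ≤ N) (hd : 1 ≤ d) (he : e = 1 ∨ e = -1)
    (hp : p = C (N : ℤ) + C (e * (N - 3)) * X ^ d) (hg : g = 1 + C (e * (N - 2)) * X ^ d)
    (hf : ∀ z : ℂ, ‖z‖ = 1 → ∀ x y : ℂ, ‖x‖ < 1 → ‖y‖ < 1 →
      (aeval z p : ℂ) - aeval z g * (x + y - x * y) ≠ 0) : False := by
  have hee : (e : ℂ) * e = 1 := by
    rcases he with rfl | rfl <;> norm_num
  have hpe : ∀ z : ℂ, (aeval z p : ℂ) = N + e * (N - 3) * z ^ d := by
    intro z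
    rw [hp]
    rw [map_add, map_mul, map_pow, aeval_X, aC, aC]
    push_cast
    ring
  have hge : ∀ z : ℂ, (aeval z g : ℂ) = 1 + e * (N - 2) * z ^ d := by
    intro z
    rw [hg]
    rw [map_add, map_mul, map_pow, aeval_X, map_one, aC]
    push_cast
    ring
  have hne : ‖(e : ℂ)‖ = 1 := by rcases he with rfl | rfl <;> simp
  rcases Nat.lt_or_ge N 5 with h5 | h5
  · -- `N = 4`
    have hN4 : N = 4 := by omega
    subst hN4
    obtain ⟨z, hz, hzd⟩ := pow_pt hd (w := e * Complex.I) (by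
      rw [norm_mul, hne, Complex.norm_I, one_mul])
    refine hf z hz ((2 - 9 * Complex.I) / 10) ((7 - 26 * Complex.I) / 29) ?_ ?_ ?_
    · rw [← sq_lt_one_iff₀ (norm_nonneg _), ← Complex.normSq_eq_norm_sq, Complex.normSq_apply]
      norm_num
    · rw [← sq_lt_one_iff₀ (norm_nonneg _), ← Complex.normSq_eq_norm_sq, Complex.normSq_apply]
      norm_num
    · rw [hpe, hge, hzd]
      have hI := Complex.I_mul_I
      push_cast
      have h1 : (e : ℂ) * (4 - 3) * (e * Complex.I) = Complex.I := by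
        linear_combination Complex.I * hee
      have h2 : (e : ℂ) * (4 - 2) * (e * Complex.I) = 2 * Complex.I := by
        linear_combination 2 * Complex.I * hee
      rw [h1, h2]
      ring_nf
      have hI2 : Complex.I ^ 2 = -1 := Complex.I_sq
      have hI3 : Complex.I ^ 3 = -Complex.I := by
        rw [pow_succ, hI2]; ring
      simp only [hI2, hI3]
      ring
  · -- `5 ≤ N`
    have hN5 : (5 : ℝ) ≤ N := by exact_mod_cast h5
    obtain ⟨z, hz, hzd⟩ := pow_pt hd (w := -e) (by rw [norm_neg, hne])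
    obtain ⟨r, hr⟩ : ∃ r : ℝ, r = √((N : ℝ) / (N - 3)) := ⟨_, rfl⟩
    have hr2 : r * r = (N : ℝ) / (N - 3) := by
      rw [hr]
      exact Real.mul_self_sqrt (div_nonneg (by linarith) (by linarith))
    have hr0 : 0 < r := by
      rw [hr]
      exact Real.sqrt_pos.mpr (div_pos (by linarith) (by linarith))
    have hr4 : r < 2 := by
      have h1 : r * r < 4 := by
        rw [hr2, div_lt_iff₀ (by linarith)]
        linarith
      nlinarith
    have hx : ‖((1 - r : ℝ) : ℂ)‖ < 1 := by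
      rw [Complex.norm_real, Real.norm_eq_abs, abs_lt]
      constructor <;> linarith
    refine hf z hz ((1 - r : ℝ) : ℂ) ((1 - r : ℝ) : ℂ) hx hx ?_
    rw [hpe, hge, hzd]
    have h3 : ((r : ℂ) * r) * (N - 3) = N := by
      have h4 : (r * r) * ((N : ℝ) - 3) = N := by
        rw [hr2]
        field_simp [(by linarith : (N : ℝ) - 3 ≠ 0)]
      exact_mod_cast h4
    push_cast
    linear_combination (-((N : ℂ) - 3) + ((N : ℂ) - 2) * (1 - (r : ℂ) * r)) * hee - h3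

/-- AL_T2, one variable. -/
theorem pg_of_t2 {et : Eis} (he : Et et) {p g : ℤ[X]} {N : ℕ} (hN : 3 ≤ N)
    (hp0 : p.coeff 0 = N) (hg0 : g.coeff 0 = 1)
    (hz : ∀ z : ℂ, ‖z‖ ≤ 1 → (aeval z p : ℂ) ≠ 0)
    (hf : ∀ z : ℂ, ‖z‖ = 1 → ∀ x y : ℂ, ‖x‖ < 1 → ‖y‖ < 1 →
      (aeval z p : ℂ) - aeval z g * (x + y - x * y) ≠ 0)
    (h : pE p - C et * pE g - pE g = C (((N : ℤ) : Eis) - et - 1) ∨
      ∃ (d : ℕ) (s : Eisˣ), 1 ≤ d ∧ pE p - C et * pE g - pE g =
        C (((N : ℤ) : Eis) - et - 1) * (1 - C (s : Eis) * X ^ d)) :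
    p = C (N : ℤ) ∧ (g = 1 ∨ N = 3 ∧ ∃ (d : ℕ) (e : ℤ), 1 ≤ d ∧ (e = 1 ∨ e = -1) ∧
      g = 1 + C e * X ^ d) := by
  have key : ∀ k : ℕ, (pE p - C et * pE g - pE g).coeff k =
      ((p.coeff k : ℤ) : Eis) - et * ((g.coeff k : ℤ) : Eis) - ((g.coeff k : ℤ) : Eis) := by
    intro k
    rw [coeff_sub, coeff_sub, coeff_C_mul, pE_coeff, pE_coeff]
  have zero : ∀ {a b : ℤ}, ((a : ℤ) : Eis) - et * ((b : ℤ) : Eis) - ((b : ℤ) : Eis) = 0 →
      a = 0 ∧ b = 0 := by
    intro a b h1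
    have h2 : (((a - b : ℤ)) : Eis) - et * ((b : ℤ) : Eis) = 0 := by
      push_cast
      linear_combination h1
    have h3 := BP90.et_zero he h2
    rw [h3] at h2
    have h4 : ((a - 0 : ℤ) : Eis) = ((0 : ℤ) : Eis) := by
      rw [Int.cast_zero, ← h2]
      push_cast
      ring
    have h5 := congrArg QuadraticAlgebra.re h4
    simp only [QuadraticAlgebra.re_intCast, Int.cast_id] at h5
    exact ⟨by omega, h3⟩
  rcases h with h | ⟨d, s, hd, h⟩
  · have h1 : ∀ k, k ≠ 0 → p.coeff k = 0 ∧ g.coeff k = 0 := by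
      intro k hk
      apply zero
      rw [← key, h, coeff_C, if_neg hk]
    refine ⟨?_, Or.inl ?_⟩
    · ext k
      by_cases hk : k = 0
      · subst hk; rw [hp0, coeff_C_zero]
      · rw [(h1 k hk).1, coeff_C, if_neg hk]
    · ext k
      by_cases hk : k = 0
      · subst hk; rw [hg0, coeff_one_zero]
      · rw [(h1 k hk).2, coeff_one, if_neg hk]
  · have h1 : ∀ k, k ≠ 0 → k ≠ d → p.coeff k = 0 ∧ g.coeff k = 0 := by
      intro k hk hkd
      apply zero
      rw [← key, h, coeff_C_mul, coeff_sub, coeff_one, if_neg hk, coeff_C_mul, coeff_X_pow,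
        if_neg hkd, mul_zero, sub_zero, mul_zero]
    have hd0 : d ≠ 0 := by omega
    have hp : p = C (N : ℤ) + C (p.coeff d) * X ^ d := by
      ext k
      rw [coeff_add, coeff_C, coeff_C_mul, coeff_X_pow]
      by_cases hk : k = 0
      · subst hk
        rw [if_pos rfl, if_neg hd0.symm, mul_zero, add_zero, hp0]
      · by_cases hkd : k = d
        · subst hkd
          rw [if_neg hk, if_pos rfl, mul_one, zero_add]
        · rw [if_neg hk, if_neg hkd, mul_zero, add_zero, (h1 k hk hkd).1]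
    have hg : g = 1 + C (g.coeff d) * X ^ d := by
      ext k
      rw [coeff_add, coeff_one, coeff_C_mul, coeff_X_pow]
      by_cases hk : k = 0
      · subst hk
        rw [if_pos rfl, if_neg hd0.symm, mul_zero, add_zero, hg0]
      · by_cases hkd : k = d
        · subst hkd
          rw [if_neg hk, if_pos rfl, mul_one, zero_add]
        · rw [if_neg hk, if_neg hkd, mul_zero, add_zero, (h1 k hk hkd).2]
    have h2 := key d
    rw [h, coeff_C_mul, coeff_sub, coeff_one, if_neg hd0, coeff_C_mul, coeff_X_pow, if_pos rfl,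
      mul_one] at h2
    obtain ⟨e, he1, h3⟩ := ab_cases he (s := s) (a := p.coeff d) (b := g.coeff d) (N := N) (by
      rw [← h2]; ring)
    -- the bound
    have hlt : |p.coeff d| < N := by
      refine KE.t_lt hd fun z hz1 => ?_
      have h4 := hz z hz1
      rw [hp, map_add, map_mul, map_pow, aeval_X, aC, aC] at h4
      simpa [coeff_C, hd0] using h4
    have habs : |e| = 1 := by rcases he1 with rfl | rfl <;> simp
    rcases h3 with ⟨h4, -⟩ | ⟨h4, -⟩ | ⟨h4, h5⟩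
    · exfalso
      rw [h4, abs_mul, habs, one_mul, Nat.abs_cast] at hlt
      exact lt_irrefl _ hlt
    · exfalso
      rw [h4, abs_mul, habs, one_mul] at hlt
      have h6 : (2 : ℤ) * N - 3 ≤ |(2 : ℤ) * N - 3| := le_abs_self _
      omega
    · rcases Nat.lt_or_ge N 4 with h6 | h6
      · have hN3 : N = 3 := by omega
        subst hN3
        refine ⟨?_, Or.inr ⟨rfl, d, e, hd, he1, ?_⟩⟩
        · rw [hp, h4]
          simp
        · rw [hg, h5]
          simp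
      · exfalso
        rw [h4] at hp
        rw [h5] at hg
        exact no_third h6 hd he1 hp hg hf

end Pool.Agent.B5.KO57
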