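import Pool.Agent.Lib.MP_b5021c_nt.KO.H57.T2a

/-!
# MP_b5021c_nt, K ODD, l = 3, ALPHA, row AL_T2: the exceptional pair is terminal (helper57)
-/

namespace Pool.Agent.B5.KO57

open scoped LaurentPolynomial
open Polynomial Pool.Agent.B5
open Pool.Agent.MP_b5021c_nt (Eis)
open Pool.Agent.B5.H25.Bch
open Pool.Agent.B5.BP90 (Et pE pE_inj embN et_im_ne)
open Pool.Agent.B5.BP57 (pE_coeff bin_of_et et_mul)

theorem bcR_co (F : RO ℤ) (n : ℤ) : (bcR F).coeff n = ((F.coeff n : ℤ) : Eis) := by
  simp [bcR]

theorem Cmul_co (a : Eis) (F : RO Eis) (n : ℤ) :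
    (LaurentPolynomial.C a * F).coeff n = a * F.coeff n := by
  have h : (LaurentPolynomial.C a : RO Eis) = AddMonoidAlgebra.single 0 a := rfl
  rw [h, AddMonoidAlgebra.coeff_single_mul_apply]
  congr 2
  ring

theorem T_co (n k : ℤ) : (LaurentPolynomial.T n : RO ℤ).coeff k = if n = k then 1 else 0 := by
  have h : (LaurentPolynomial.T n : RO ℤ) = AddMonoidAlgebra.single n 1 := rfl
  rw [h, AddMonoidAlgebra.coeff_single, Finsupp.single_apply]

theorem CT_co (a n k : ℤ) : (LaurentPolynomial.C a * LaurentPolynomial.T n : RO ℤ).coeff k =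
    if n = k then a else 0 := by
  have h : (LaurentPolynomial.C a * LaurentPolynomial.T n : RO ℤ) =
      AddMonoidAlgebra.single n a := (LaurentPolynomial.single_eq_C_mul_T a n).symm
  rw [h, AddMonoidAlgebra.coeff_single, Finsupp.single_apply]

/-- the basis `1, eta`. -/
theorem basis {et : Eis} (he : Et et) {F G : RO ℤ}
    (h : bcR F + LaurentPolynomial.C et * bcR G = 0) : F = 0 ∧ G = 0 := by
  have key : ∀ n, F.coeff n = 0 ∧ G.coeff n = 0 := by
    intro n
    have h1 : (bcR F + LaurentPolynomial.C et * bcR G).coeff n = (0 : RO Eis).coeff n := by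
      rw [h]
    have h2 : ((F.coeff n : ℤ) : Eis) - et * (((-(G.coeff n) : ℤ)) : Eis) = 0 := by
      have h3 : (bcR F + LaurentPolynomial.C et * bcR G).coeff n =
          (bcR F).coeff n + (LaurentPolynomial.C et * bcR G).coeff n := rfl
      rw [h3, bcR_co, Cmul_co, bcR_co] at h1
      have h4 : ((0 : RO Eis)).coeff n = 0 := rfl
      rw [h4] at h1
      push_cast
      linear_combination h1
    have h5 := BP90.et_zero he h2
    rw [h5] at h2
    have h6 : ((F.coeff n : ℤ) : Eis) = ((0 : ℤ) : Eis) := by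
      rw [Int.cast_zero, ← h2]
      push_cast
      ring
    have h7 := congrArg QuadraticAlgebra.re h6
    simp only [QuadraticAlgebra.re_intCast, Int.cast_id] at h7
    exact ⟨h7, by omega⟩
  constructor
  · apply AddMonoidAlgebra.ext
    apply Finsupp.ext
    intro n
    exact (key n).1
  · apply AddMonoidAlgebra.ext
    apply Finsupp.ext
    intro n
    exact (key n).2

/-- every Eisenstein integer in the basis `1, eta`. -/
theorem eis_basis {et : Eis} (he : Et et) (c : Eis) : ∃ a b : ℤ, c = (a : Eis) + et * (b : Eis) := by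
  rcases et_cases he with ⟨h1, h2⟩ | ⟨h1, h2⟩
  · refine ⟨c.re - c.im, c.im, ?_⟩
    ext
    · simp only [QuadraticAlgebra.re_add, QuadraticAlgebra.re_mul, QuadraticAlgebra.re_intCast,
        QuadraticAlgebra.im_intCast, Int.cast_id, h1, h2]
      ring
    · simp only [QuadraticAlgebra.im_add, QuadraticAlgebra.im_mul, QuadraticAlgebra.re_intCast,
        QuadraticAlgebra.im_intCast, Int.cast_id, h1, h2]
      ring
  · refine ⟨c.re, -c.im, ?_⟩
    ext
    · simp only [QuadraticAlgebra.re_add, QuadraticAlgebra.re_mul, QuadraticAlgebra.re_intCast,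
        QuadraticAlgebra.im_intCast, Int.cast_id, h1, h2]
      ring
    · simp only [QuadraticAlgebra.im_add, QuadraticAlgebra.im_mul, QuadraticAlgebra.re_intCast,
        QuadraticAlgebra.im_intCast, Int.cast_id, h1, h2]
      ring

/-- the exceptional pair: the coefficient of the third ray. -/
theorem exc_m {et : Eis} (he : Et et) {e : ℤ} (he1 : e = 1 ∨ e = -1) {d : ℕ} (hd : 1 ≤ d)
    {s : Eisˣ} (hs : pE (C 3) - C et * pE (1 + C e * X ^ d) - pE (1 + C e * X ^ d) =
      C (((3 : ℤ) : Eis) - et - 1) * (1 - C (s : Eis) * X ^ d)) {m : RO ℤ} {c : Eis} {l : ℤ}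
    (h : LaurentPolynomial.C (et * et) * bcR m -
      LaurentPolynomial.C (1 - 2 * et) * bcR (toLaurent (1 + C e * X ^ d)) =
        toLaurent (1 - C (s : Eis) * X ^ d) * (LaurentPolynomial.C c * LaurentPolynomial.T l)) :
    m = toLaurent (C 3 - 3 * (1 + C e * X ^ d)) := by
  have hd0 : d ≠ 0 := by omega
  have hm := et_mul he
  have he2 : et * et = et - 1 := by linear_combination -hm
  have he3 : et * et * et = -1 := by rw [he2]; linear_combination he2
  have hee : (e : Eis) * e = 1 := by
    rcases he1 with rfl | rfl <;> norm_num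
  -- the unit `s`
  have hsv : (s : Eis) = (e : Eis) * et := by
    have h1 := congrArg (fun f : Eis[X] => f.coeff d) hs
    simp only [coeff_sub, coeff_C_mul, pE_coeff, coeff_add, coeff_C, coeff_one, coeff_X_pow,
      if_neg hd0, if_pos, mul_one, zero_add] at h1
    push_cast at h1
    have h2 : (2 - et) * ((s : Eis) - (e : Eis) * et) = 0 := by
      linear_combination h1 + (e : Eis) * he2
    rcases mul_eq_zero.mp h2 with h3 | h3
    · exfalso
      have h4 : ((2 : ℤ) : Eis) - et * ((1 : ℤ) : Eis) = 0 := by push_cast; linear_combination h3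
      have h5 := BP90.et_zero he h4
      exact absurd h5 (by norm_num)
    · exact sub_eq_zero.mp h3
  obtain ⟨a, b, hab⟩ := eis_basis he (-(et * c))
  -- Laurent form
  have hC : ∀ x y : Eis, (LaurentPolynomial.C (x * y) : RO Eis) =
      LaurentPolynomial.C x * LaurentPolynomial.C y := fun x y => map_mul _ _ _
  obtain ⟨E, hE⟩ : ∃ E : RO Eis, E = LaurentPolynomial.C et := ⟨_, rfl⟩
  have hE2 : E * E = E - 1 := by
    rw [hE, ← hC, he2, map_sub, map_one]
  have hcE : E * LaurentPolynomial.C c = -(bcR (LaurentPolynomial.C a) +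
      E * bcR (LaurentPolynomial.C b)) := by
    rw [hE, ← hC, bcR_C, bcR_C, ← hC, ← map_add, ← hab, map_neg, neg_neg]
  have ht1 : (toLaurent (1 + C e * X ^ d) : RO ℤ) =
      1 + LaurentPolynomial.C e * LaurentPolynomial.T d := by
    rw [map_add, map_one, map_mul, toLaurent_C, toLaurent_X_pow]
  have ht2 : (toLaurent (1 - C (s : Eis) * X ^ d) : RO Eis) =
      1 - bcR (LaurentPolynomial.C e) * E * bcR (LaurentPolynomial.T d) := by
    rw [map_sub, map_one, map_mul, toLaurent_C, toLaurent_X_pow, hsv, hC, bcR_C, bcR_T, hE]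
  obtain ⟨ce, hce⟩ : ∃ x : RO ℤ, x = LaurentPolynomial.C e := ⟨_, rfl⟩
  obtain ⟨ca, hca⟩ : ∃ x : RO ℤ, x = LaurentPolynomial.C a := ⟨_, rfl⟩
  obtain ⟨cb, hcb⟩ : ∃ x : RO ℤ, x = LaurentPolynomial.C b := ⟨_, rfl⟩
  obtain ⟨Td, hTd⟩ : ∃ x : RO ℤ, x = LaurentPolynomial.T (d : ℤ) := ⟨_, rfl⟩
  obtain ⟨Tl, hTl⟩ : ∃ x : RO ℤ, x = LaurentPolynomial.T l := ⟨_, rfl⟩
  rw [← hce, ← hTd] at ht1
  rw [← hce, ← hTd] at ht2
  rw [← hca, ← hcb] at hcE
  have hTl' : (LaurentPolynomial.T l : RO Eis) = bcR Tl := by rw [hTl, bcR_T]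
  have h1 : E * E * bcR m - (1 - 2 * E) * (1 + bcR ce * bcR Td) =
      (1 - bcR ce * E * bcR Td) * (LaurentPolynomial.C c * bcR Tl) := by
    have h2 := h
    rw [hC, ← hE, ht1, ht2, hTl'] at h2
    rw [map_add, map_one, map_mul, map_sub, map_one, map_mul, ← hE] at h2
    have h3 : (LaurentPolynomial.C (2 : Eis) : RO Eis) = 2 := by
      rw [show (2 : Eis) = 1 + 1 by norm_num, map_add, map_one]
      norm_num
    rw [h3] at h2
    exact h2
  -- multiply by `-eta`
  have hb := basis he (F := m + 2 * (1 + ce * Td) - (ca * Tl + ce * cb * Tl * Td))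
    (G := -(1 + ce * Td) - (cb * Tl - ce * (ca + cb) * Tl * Td)) (by
      rw [← hE]
      simp only [map_add, map_sub, map_neg, map_mul, map_one, map_ofNat]
      have hE3 : E * E * E = -1 := by rw [hE2]; linear_combination hE2
      linear_combination (-E) * h1 + (bcR m) * hE3 +
        (2 * (1 + bcR ce * bcR Td)) * hE2 +
        (-(1 - bcR ce * E * bcR Td) * bcR Tl) * hcE +
        (- bcR ce * bcR cb * bcR Tl * bcR Td) * hE2)
  obtain ⟨hF, hG⟩ := hb
  -- compare
  have hco : ∀ k : ℤ, (if (0 : ℤ) = k then (-1 : ℤ) else 0) - (if (d : ℤ) = k then e else 0) =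
      (if l = k then b else 0) - (if l + d = k then e * (a + b) else 0) := by
    intro k
    have h2 : -(1 + ce * Td) = cb * Tl - ce * (ca + cb) * Tl * Td := sub_eq_zero.mp hG
    have h3 : (-(LaurentPolynomial.C 1 * LaurentPolynomial.T 0) -
        LaurentPolynomial.C e * LaurentPolynomial.T (d : ℤ) : RO ℤ) =
        LaurentPolynomial.C b * LaurentPolynomial.T l -
          LaurentPolynomial.C (e * (a + b)) * LaurentPolynomial.T (l + d) := by
      rw [LaurentPolynomial.T_add, map_mul, map_add, LaurentPolynomial.T_zero, map_one, ← hce,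
        ← hca, ← hcb, ← hTd, ← hTl]
      linear_combination h2
    have h4 : (-(LaurentPolynomial.C 1 * LaurentPolynomial.T 0) -
        LaurentPolynomial.C e * LaurentPolynomial.T (d : ℤ) : RO ℤ).coeff k =
        (LaurentPolynomial.C b * LaurentPolynomial.T l -
          LaurentPolynomial.C (e * (a + b)) * LaurentPolynomial.T (l + d) : RO ℤ).coeff k := by
      rw [h3]
    have h5 : ∀ x y : RO ℤ, (x - y).coeff k = x.coeff k - y.coeff k := fun _ _ => rfl
    have h6 : ∀ x : RO ℤ, (-x).coeff k = -x.coeff k := fun _ => rfl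
    rw [h5, h5, h6, CT_co, CT_co, CT_co, CT_co] at h4
    rw [← h4]
    split_ifs <;> rfl
  have hdpos : (0 : ℤ) < d := by exact_mod_cast hd
  have he0 : e ≠ 0 := by rcases he1 with rfl | rfl <;> norm_num
  have hl : l = 0 := by
    by_contra hl0
    have c0 := hco 0
    have cd := hco d
    rw [if_pos rfl, if_neg (by omega), if_neg hl0] at c0
    have hld : l + d = 0 := by
      by_contra h2
      rw [if_neg h2] at c0
      norm_num at c0
    rw [if_neg (by omega), if_pos rfl, if_neg (by omega : l ≠ d), if_neg (by omega)] at cd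
    apply he0
    linarith
  subst hl
  have c0 := hco 0
  have cd := hco d
  rw [if_pos rfl, if_neg (by omega), if_pos rfl, if_neg (by omega)] at c0
  rw [if_neg (by omega), if_pos rfl, if_neg (by omega), if_pos (by ring)] at cd
  have hb1 : b = -1 := by linarith
  have ha2 : a = 2 := by
    have h2 : e * (a + b - 1) = 0 := by linear_combination cd
    have h3 := (mul_eq_zero.mp h2).resolve_left he0
    omega
  have hcb' : cb = -1 := by rw [hcb, hb1, map_neg, map_one]
  have hca' : ca = 2 := by
    rw [hca, ha2, show (2 : ℤ) = 1 + 1 by norm_num, map_add, map_one]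
    norm_num
  have hTl1 : Tl = 1 := by rw [hTl, LaurentPolynomial.T_zero]
  rw [hcb', hca', hTl1] at hF
  rw [map_sub, map_mul, ht1, toLaurent_C]
  simp only [map_ofNat]
  linear_combination hF

end Pool.Agent.B5.KO57
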