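import Pool.Agent.Lib.MP_b5021c_nt.KO.H57.T2b
import Pool.Agent.Lib.MP_b5021c_nt.BP.H12.T2f

/-!
# MP_b5021c_nt, K ODD, l = 3, ALPHA, row AL_T2 (helper57)

`E` in `DD` over `ℤ`, class `V(N)`, rank `2N - 1`, `N ≥ 3`, a closed triple `R0, R1, R2` with the
loads `e0, e1, e2` and the unit coefficient `-g`: if the double closing `(eta, eta)` has full rank
and no small factor then `p = N`, `g = 1`, or `E` is terminal: `e0 e1 e2 E_X = p - 3 g`.
-/

namespace Pool.Agent.B5.KO57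

open scoped LaurentPolynomial
open Polynomial Pool.Agent.B5
open Pool.Agent.MP_b5021c_nt (Eis)
open Pool.Agent.MP_b5021c_nt.Ire (bc)
open Pool.Agent.B5.H25.Bch
open Pool.Agent.B5.BP90 (Et pE pE_inj embN et_im_ne)
open Pool.Agent.B5.BP57

/-- a `z`-free element: every coefficient is a monomial. -/
theorem zfree_co {L : Type} [AddCommGroup L] {G : AO Eis L} (h : ZFree G) (a : L) :
    ∃ (c : Eis) (l : ℤ), G.coeff a = LaurentPolynomial.C c * LaurentPolynomial.T l := by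
  obtain ⟨q, lm, n, hq, hG⟩ := h
  by_cases h0 : ∃ k, (G.coeff a).coeff k ≠ 0
  · obtain ⟨k0, hk0⟩ := h0
    refine ⟨(G.coeff a).coeff k0, k0, ?_⟩
    rw [← LaurentPolynomial.single_eq_C_mul_T]
    apply AddMonoidAlgebra.ext
    apply Finsupp.ext
    intro k
    rw [AddMonoidAlgebra.coeff_single, Finsupp.single_apply]
    split_ifs with h1
    · rw [← h1]
    · by_contra h2
      apply h1
      have h3 := hG a k h2
      have h4 := hG a k0 hk0
      have h5 : (q : ℤ) * k0 = (q : ℤ) * k := by rw [h3, h4]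
      exact mul_left_cancel₀ (by exact_mod_cast hq.ne') h5
  · push Not at h0
    refine ⟨0, 0, ?_⟩
    rw [map_zero, zero_mul]
    apply AddMonoidAlgebra.ext
    apply Finsupp.ext
    intro k
    exact h0 k

/-- a unit content keeps z-free elements. -/
theorem zfree_cst {L : Type} [AddCommGroup L] (hU : UnitRS) {G : AO Eis L} {c : RO Eis}
    (hc : IsUnit c) (h : ZFree G) : ZFree (cst c * G) := by
  obtain ⟨q, lm, n, hq, hG⟩ := h
  obtain ⟨m, s, -, hcs⟩ := (hU Eis _).mp hc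
  refine ⟨q, lm, n + m, hq, fun a k hk => ?_⟩
  rw [H78.cstm, hcs, mul_assoc, Cmul_co] at hk
  have h1 : (LaurentPolynomial.T m : RO Eis) = AddMonoidAlgebra.single m 1 := rfl
  rw [h1, AddMonoidAlgebra.coeff_single_mul_apply, one_mul] at hk
  have h2 := hG a (-m + k) (right_ne_zero_of_mul hk)
  linear_combination h2

section

variable {P L : Type} [Fintype P] [DecidableEq P] [AddCommGroup L] [Module.Free ℤ L]
  [Module.Finite ℤ L] {phi : L →+ (P → ℤ)} {E : AO ℤ L} {R0 R1 R2 : L} {i0 i1 : P}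

/-- AL_T2, with the z-free double closing. -/
theorem al_t2z (hG1 : G1pS) (hR : ResWDS) (hRS : ResStS) (hEv : EvS) (hEvm : EvmS)
    (hFcl : FclS) (hCno : Cno.CnoS) (hMfc : MfcS)
    (hFD : FDS) (hE2 : E2S) (hVZ : VZS) (hU : UnitRS) (hMV : MVS)
    (hE1 : E1S) (hM1 : M1S) (hMm : MmulS) (hG0 : G0S) (hC0 : Coeff0S) (hW : WWfS)
    (hRF : RayFacS) (hQst : QstS) (hQra : QraS) (hMin : MinS) (hB5 : B5aS) (hRk : RkS)
    (hKm : KmuS) (hQc : Qc3S) (hDv : Dv3S) (hNd : Nd3vS) (hLMN : LMNS) (hUS : RkUSS)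
    (hD2 : D2S) (hF1 : F1S) (hF2 : F2S) (hMco : McoS) {h0 : co phi i0 R0 = 1} {N : ℕ}
    {w e0 e1 e2 : (RO ℤ)ˣ} {p g : ℤ[X]} {m : RO ℤ} {et : Eis} (he : Et et) {k0 : (RO Eis)ˣ}
    (hk0 : (k0 : RO Eis) = LaurentPolynomial.C et * bcR (e0 : RO ℤ)) {k1 : (RO Eis)ˣ}
    (hk1 : (k1 : RO Eis) = LaurentPolynomial.C et * bcR (e1 : RO ℤ)) (hD : DD phi E)
    (hN : 3 ≤ N) (hr : Module.finrank ℤ L + 1 = 2 * N) (hcv : ClassV N (E.coeff 0))
    (hm : Mut E R0 R1 e0 e1) (hI : ImS phi R0) (hI1 : ImS phi R1)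
    (hp : (w : RO ℤ) * E.coeff 0 = toLaurent p) (hp0 : p.coeff 0 = N)
    (hg : (w : RO ℤ) * ((e0 : RO ℤ) * E.coeff R0) = -toLaurent g) (hg0 : g.coeff 0 = 1)
    {R1' : Ker (co phi i0)} (hR1 : (R1' : L) = R1) {h1 : co (phO phi R0 i0) i1 R1' = 1}
    (hI1' : ImS (phO phi R0 i0) R1')
    (hfull : rk (supp (cl (co (phO phi R0 i0) i1) R1' h1 k1 (cl (co phi i0) R0 h0 k0 (bc E)))) =
      Module.finrank ℤ (Ker (co (phO phi R0 i0) i1)))
    (hns : ∀ (c : RO Eis) (n : ℕ) (G : Fin n → AO Eis (Ker (co (phO phi R0 i0) i1))),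
      FD (phO phi R0 i0) (cl (co phi i0) R0 h0 k0 (bc E)) R1' i1 k1 h1 c n G →
        snp (phO phi R0 i0) R1' i1 G = ∅)
    {x2 : Ker (co (phO phi R0 i0) i1)} (hx2 : ((x2 : Ker (co phi i0)) : L) = R2)
    (c2 : (w : RO ℤ) * ((e2 : RO ℤ) * E.coeff R2) = -toLaurent g)
    (c02 : (w : RO ℤ) * ((e0 : RO ℤ) * ((e2 : RO ℤ) * E.coeff (R2 + R0))) = toLaurent g)
    (c12 : (w : RO ℤ) * ((e1 : RO ℤ) * ((e2 : RO ℤ) * E.coeff (R2 + R1))) = toLaurent g)
    (cX : (w : RO ℤ) * ((e0 : RO ℤ) * ((e1 : RO ℤ) * ((e2 : RO ℤ) * E.coeff (R2 + R1 + R0)))) = m) :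
    (m = toLaurent (p - 3 * g) ∧ ∃ (d : ℕ) (s : Eis) (e' : ℤ)
      (G' : AO Eis (Ker (co (phO phi R0 i0) i1))), 1 ≤ d ∧ (e' = 1 ∨ e' = -1) ∧
      s = (e' : Eis) * et ∧ ZFree G' ∧
      cl (co (phO phi R0 i0) i1) R1' h1 k1 (cl (co phi i0) R0 h0 k0 (bc E)) =
        cst (toLaurent (1 - C s * X ^ d)) * G') ∨ (p = C (N : ℤ) ∧ g = 1 ∧
      ZFree (cl (co (phO phi R0 i0) i1) R1' h1 k1 (cl (co phi i0) R0 h0 k0 (bc E)))) := by
  classical
  have hrk2 : 2 ≤ Module.finrank ℤ L := by omega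
  have hN' : (3 : ℝ) ≤ N := by exact_mod_cast hN
  obtain ⟨hH, hRay, hv, hb, hcl⟩ := eta_mut hFD hE2 hVZ hU hMV hE1 hM1 hMm hG0 hC0 hW hRF hQst
    hQra hMin hB5 hRk hKm hQc hDv hNd hLMN hUS hD2 hF1 hF2 hMco he hk0 hk1 hD (by omega) hrk2 hcv
    hm hI hI1 hp hp0 hg hg0 hR1 (h0 := h0)
  have hker := finrank_kerO hRk h0
  have hr' : Module.finrank ℤ (Ker (co phi i0)) + 2 = 2 * N := by omega
  -- polynomial data of `E`
  have hpne : p.coeff 0 ≠ 0 := by rw [hp0]; exact_mod_cast (by omega : N ≠ 0)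
  obtain ⟨hpz, -⟩ := zf_of_unit hU hcv hp hpne
  obtain ⟨hpcl, hle, hlt⟩ := ray_polyU hE2 hVZ hD hrk2 hm.r0 hp hg hpz
  have hvc : (pE p - C et * pE g).coeff 0 = ((N : ℤ) : Eis) - et := by
    rw [coeff_sub, coeff_C_mul, pE_coeff, pE_coeff, hp0, hg0]
    push_cast
    ring
  have hbc : (pE g).coeff 0 = 1 := by
    rw [pE_coeff, hg0, Int.cast_one]
  -- the apex of the second closing
  have hne : (cl (co phi i0) R0 h0 k0 (bc E)).coeff 0 +
      (k1 : RO Eis) * (cl (co phi i0) R0 h0 k0 (bc E)).coeff R1' ≠ 0 := by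
    intro h2
    have h3 : toLaurent (pE p - C et * pE g - pE g) = 0 := by
      rw [map_sub, ← hv, sub_eq_add_neg, ← hb, ← mul_add, h2, mul_zero]
    have h4 := (toLaurent_eq_zero (f := pE p - C et * pE g - pE g)).mp h3
    have h5 := congrArg (fun f : Eis[X] => f.coeff 0) h4
    simp only [coeff_sub, hvc, hbc, coeff_zero] at h5
    rw [coeff_sub] at hvc
    have h6 := congrArg (fun x : Eis => ((Coef.emb x : ℂ)).re) h5
    simp only [map_sub, embN, map_one, map_zero, Complex.sub_re, he.re, Complex.one_re,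
      Complex.zero_re, Complex.intCast_re] at h6
    push_cast at h6
    linarith
  obtain ⟨c, n, G, fd⟩ := hFD Eis P (Ker (co phi i0)) (phO phi R0 i0) _ R1' i1 k1 h1
    ⟨hH, by omega, hRay, h1, hne⟩
  obtain ⟨G0, -, hzG0, -, hcl2, -, hor⟩ := t2n hG1 hR hRS hEv hEvm hFcl hE1 hMV hMm hU hE2 hVZ hRk
    hCno fd (hns c n G fd) hI1' he hN hr' hcl hv hvc hb hbc hfull
  -- values
  have hpa : ∀ z : ℂ, (p.map (Coef.emb : ℤ →+* ℂ)).eval z = aeval z p := fun z => by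
    rw [eval_map, aeval_def]; rfl
  have hga : ∀ z : ℂ, (g.map (Coef.emb : ℤ →+* ℂ)).eval z = aeval z g := fun z => by
    rw [eval_map, aeval_def]; rfl
  have hz : ∀ z : ℂ, ‖z‖ ≤ 1 → (aeval z p : ℂ) ≠ 0 := by
    intro z hz1
    rw [← hpa]
    exact hpcl z hz1
  have hf : ∀ z : ℂ, ‖z‖ = 1 → ∀ x y : ℂ, ‖x‖ < 1 → ‖y‖ < 1 →
      (aeval z p : ℂ) - aeval z g * (x + y - x * y) ≠ 0 := by
    intro z hz1 x y hx hy h2
    obtain ⟨zc, rfl⟩ := KE.circle_of z hz1
    apply hMfc ℤ P L phi E R0 R1 e0 e1 hD hrk2 hm zc x y hx hy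
    have h3 : evR zc ((w : RO ℤ) * E.coeff 0) = aeval (zc : ℂ) p := by
      rw [hp, KE.evR_poly]
    have h4 : evR zc ((w : RO ℤ) * ((e0 : RO ℤ) * E.coeff R0)) = -aeval (zc : ℂ) g := by
      rw [hg, map_neg, KE.evR_poly]
    have hw0 : evR zc (w : RO ℤ) ≠ 0 := by
      rw [← norm_pos_iff, H36.norm_evR_unit zc _ w.isUnit]
      exact one_pos
    apply mul_left_cancel₀ hw0
    rw [mul_zero, mul_add, ← map_mul, h3, ← mul_assoc, ← map_mul, h4]
    linear_combination h2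
  rcases hor with ⟨hcu, h2⟩ | ⟨d, s, G', R, hd, h2, h3, -, hz', -⟩
  · obtain ⟨h4, h5⟩ := pg_of_t2 he hN hp0 hg0 hz hf (Or.inl h2)
    rcases h5 with h5 | ⟨h6, d, e, hd, he1, h5⟩
    · exact Or.inr ⟨h4, h5, by rw [hcl2]; exact zfree_cst hU hcu hzG0⟩
    · exfalso
      have h7 := congrArg (fun f : Eis[X] => f.coeff d) h2
      have hd0 : d ≠ 0 := by omega
      simp only [h4, h5, coeff_sub, coeff_C_mul, pE_coeff, coeff_add, coeff_C, coeff_one,
        coeff_X_pow, if_neg hd0, if_pos, mul_one, zero_add] at h7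
      push_cast at h7
      have h8 : ((-e : ℤ) : Eis) - et * ((e : ℤ) : Eis) = 0 := by
        push_cast
        linear_combination h7
      have h9 := BP90.et_zero he h8
      rcases he1 with h10 | h10 <;> rw [h10] at h9 <;> norm_num at h9
  · obtain ⟨h4, h5⟩ := pg_of_t2 he hN hp0 hg0 hz hf (Or.inr ⟨d, s, hd, h2⟩)
    rcases h5 with h5 | ⟨h6, d', e, hd', he1, h5⟩
    · exfalso
      have h7 := congrArg (fun f : Eis[X] => f.coeff d) h2
      have hd0 : d ≠ 0 := by omega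
      simp only [h4, h5, coeff_sub, coeff_C_mul, pE_coeff, coeff_C, coeff_one, coeff_X_pow,
        if_neg hd0, if_pos, mul_one, mul_zero, Int.cast_zero, sub_zero, zero_sub] at h7
      have h8 : (((N : ℤ) : Eis) - et - 1) * (s : Eis) = 0 := by linear_combination h7
      have h9 := (mul_eq_zero.mp h8).resolve_right s.ne_zero
      have h10 := congrArg (fun x : Eis => ((Coef.emb x : ℂ)).re) h9
      simp only [map_sub, embN, map_one, map_zero, Complex.sub_re, he.re, Complex.one_re,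
        Complex.zero_re, Complex.intCast_re] at h10
      push_cast at h10
      linarith
    left
    have hcl3 := h3
    subst h6
    have hd0 : d ≠ 0 := by omega
    have hd0' : d' ≠ 0 := by omega
    -- the exponents agree
    have hdd : d' = d := by
      by_contra hne
      have h7 := congrArg (fun f : Eis[X] => f.coeff d') h2
      simp only [h4, h5, coeff_sub, coeff_C_mul, pE_coeff, coeff_add, coeff_C, coeff_one,
        coeff_X_pow, if_neg hd0', if_neg hne, if_pos, mul_one, mul_zero, zero_add,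
        sub_zero] at h7
      push_cast at h7
      have h8 : ((-e : ℤ) : Eis) - et * ((e : ℤ) : Eis) = 0 := by
        push_cast
        linear_combination h7
      have h9 := BP90.et_zero he h8
      rcases he1 with h10 | h10 <;> rw [h10] at h9 <;> norm_num at h9
    subst hdd
    have hpC : p = C 3 := by rw [h4]; norm_num
    -- the coefficient at the third ray
    obtain ⟨cc, l, hcc⟩ := zfree_co hz' x2
    have h7 := congrArg (fun F : AO Eis (Ker (co (phO phi R0 i0) i1)) => F.coeff x2) h3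
    rw [H78.cstm, hcc, BP12.dco hD.bin hR1 (fun a ha => hH.bin a ha) x2, hx2] at h7
    have b2 := congrArg bcR c2
    have b02 := congrArg bcR c02
    have b12 := congrArg bcR c12
    have bX := congrArg bcR cX
    simp only [map_mul, map_neg] at b2 b02 b12 bX
    have key : LaurentPolynomial.C (et * et) * bcR m -
        LaurentPolynomial.C (1 - 2 * et) * bcR (toLaurent g) =
        toLaurent (1 - C (s : Eis) * X ^ d') *
          (bcR (w : RO ℤ) * (bcR (e2 : RO ℤ) * (LaurentPolynomial.C cc * LaurentPolynomial.T l))) := by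
      rw [map_sub, map_one, map_mul LaurentPolynomial.C 2 et, map_mul LaurentPolynomial.C et et]
      have h8 : (LaurentPolynomial.C (2 : Eis) : RO Eis) = 2 := map_ofNat _ 2
      rw [h8]
      rw [hk0, hk1] at h7
      linear_combination (bcR (w : RO ℤ) * bcR (e2 : RO ℤ)) * h7 - b2 -
        LaurentPolynomial.C et * b02 - LaurentPolynomial.C et * b12 -
        LaurentPolynomial.C et * LaurentPolynomial.C et * bX
    -- the units are monomials
    have hun : ∃ (c' : Eis) (l' : ℤ), bcR (w : RO ℤ) * (bcR (e2 : RO ℤ) *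
        (LaurentPolynomial.C cc * LaurentPolynomial.T l)) =
        LaurentPolynomial.C c' * LaurentPolynomial.T l' := by
      obtain ⟨n1, s1, -, hw1⟩ := (hU Eis _).mp ((w * e2).isUnit.map bcR)
      refine ⟨s1 * cc, n1 + l, ?_⟩
      have h8 : bcR (w : RO ℤ) * bcR (e2 : RO ℤ) =
          LaurentPolynomial.T n1 * LaurentPolynomial.C s1 := by
        rw [← map_mul, mul_comm (LaurentPolynomial.T n1)]
        exact hw1
      rw [LaurentPolynomial.T_add, map_mul]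
      linear_combination (LaurentPolynomial.C cc * LaurentPolynomial.T l) * h8
    obtain ⟨c', l', hc'⟩ := hun
    rw [hc', h5] at key
    rw [hpC, h5] at h2
    have h9 := exc_m he he1 hd' (by rw [h2]; norm_num) key
    refine ⟨by rw [hpC, h5, h9], d', s, e, G', hd, he1, ?_, hz', hcl3⟩
    have h10 := congrArg (fun f : Eis[X] => f.coeff d') h2
    have hd0' : d' ≠ 0 := by omega
    simp only [coeff_sub, coeff_C_mul, pE_coeff, coeff_add, coeff_C, coeff_one, coeff_X_pow,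
      if_neg hd0', if_pos, mul_one, zero_add, zero_sub, Int.cast_zero] at h10
    have h11 : (2 - et) * ((s : Eis) - (e : Eis) * et) = 0 := by
      push_cast at h10
      linear_combination h10 - (e : Eis) * et_mul he
    rcases mul_eq_zero.mp h11 with h12 | h12
    · exfalso
      have h13 := congrArg (fun x : Eis => ((Coef.emb x : ℂ)).re) h12
      simp only [map_sub, map_ofNat, map_zero, Complex.sub_re, he.re, Complex.zero_re] at h13
      norm_num at h13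
    · linear_combination h12

/-- AL_T2. -/
theorem al_t2 (hG1 : G1pS) (hR : ResWDS) (hRS : ResStS) (hEv : EvS) (hEvm : EvmS)
    (hFcl : FclS) (hCno : Cno.CnoS) (hMfc : MfcS)
    (hFD : FDS) (hE2 : E2S) (hVZ : VZS) (hU : UnitRS) (hMV : MVS)
    (hE1 : E1S) (hM1 : M1S) (hMm : MmulS) (hG0 : G0S) (hC0 : Coeff0S) (hW : WWfS)
    (hRF : RayFacS) (hQst : QstS) (hQra : QraS) (hMin : MinS) (hB5 : B5aS) (hRk : RkS)
    (hKm : KmuS) (hQc : Qc3S) (hDv : Dv3S) (hNd : Nd3vS) (hLMN : LMNS) (hUS : RkUSS)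
    (hD2 : D2S) (hF1 : F1S) (hF2 : F2S) (hMco : McoS) {h0 : co phi i0 R0 = 1} {N : ℕ}
    {w e0 e1 e2 : (RO ℤ)ˣ} {p g : ℤ[X]} {m : RO ℤ} {et : Eis} (he : Et et) {k0 : (RO Eis)ˣ}
    (hk0 : (k0 : RO Eis) = LaurentPolynomial.C et * bcR (e0 : RO ℤ)) {k1 : (RO Eis)ˣ}
    (hk1 : (k1 : RO Eis) = LaurentPolynomial.C et * bcR (e1 : RO ℤ)) (hD : DD phi E)
    (hN : 3 ≤ N) (hr : Module.finrank ℤ L + 1 = 2 * N) (hcv : ClassV N (E.coeff 0))
    (hm : Mut E R0 R1 e0 e1) (hI : ImS phi R0) (hI1 : ImS phi R1)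
    (hp : (w : RO ℤ) * E.coeff 0 = toLaurent p) (hp0 : p.coeff 0 = N)
    (hg : (w : RO ℤ) * ((e0 : RO ℤ) * E.coeff R0) = -toLaurent g) (hg0 : g.coeff 0 = 1)
    {R1' : Ker (co phi i0)} (hR1 : (R1' : L) = R1) {h1 : co (phO phi R0 i0) i1 R1' = 1}
    (hI1' : ImS (phO phi R0 i0) R1')
    (hfull : rk (supp (cl (co (phO phi R0 i0) i1) R1' h1 k1 (cl (co phi i0) R0 h0 k0 (bc E)))) =
      Module.finrank ℤ (Ker (co (phO phi R0 i0) i1)))
    (hns : ∀ (c : RO Eis) (n : ℕ) (G : Fin n → AO Eis (Ker (co (phO phi R0 i0) i1))),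
      FD (phO phi R0 i0) (cl (co phi i0) R0 h0 k0 (bc E)) R1' i1 k1 h1 c n G →
        snp (phO phi R0 i0) R1' i1 G = ∅)
    {x2 : Ker (co (phO phi R0 i0) i1)} (hx2 : ((x2 : Ker (co phi i0)) : L) = R2)
    (c2 : (w : RO ℤ) * ((e2 : RO ℤ) * E.coeff R2) = -toLaurent g)
    (c02 : (w : RO ℤ) * ((e0 : RO ℤ) * ((e2 : RO ℤ) * E.coeff (R2 + R0))) = toLaurent g)
    (c12 : (w : RO ℤ) * ((e1 : RO ℤ) * ((e2 : RO ℤ) * E.coeff (R2 + R1))) = toLaurent g)
    (cX : (w : RO ℤ) * ((e0 : RO ℤ) * ((e1 : RO ℤ) * ((e2 : RO ℤ) * E.coeff (R2 + R1 + R0)))) = m) :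
    m = toLaurent (p - 3 * g) ∨ (p = C (N : ℤ) ∧ g = 1) := by
  rcases al_t2z hG1 hR hRS hEv hEvm hFcl hCno hMfc hFD hE2 hVZ hU hMV hE1 hM1 hMm hG0 hC0 hW hRF
    hQst hQra hMin hB5 hRk hKm hQc hDv hNd hLMN hUS hD2 hF1 hF2 hMco he hk0 hk1 hD hN hr hcv hm hI
    hI1 hp hp0 hg hg0 hR1 hI1' hfull hns hx2 c2 c02 c12 cX with ⟨h, -⟩ | ⟨h2, h3, -⟩
  · exact Or.inl h
  · exact Or.inr ⟨h2, h3⟩

end

end Pool.Agent.B5.KO57
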