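import Pool.Agent.Lib.MP_b5021c_nt.KO.H57.T2c
import Pool.Agent.Lib.MP_b5021c_nt.E.H61.Cusp

/-!
# MP_b5021c_nt, K ODD, l = 3, ALPHA, row T2L: the double closing with lowering load at least two
(helper57)

Rank `2M - 4`, apex `M - (1 + eta) l`, `2 ≤ l ≤ M - 2`, no small factor: impossible.
-/

namespace Pool.Agent.B5.KO57

open scoped LaurentPolynomial
open Polynomial Pool.Agent.B5
open Pool.Agent.MP_b5021c_nt (Eis)
open Pool.Agent.MP_b5021c_nt.Ire (bc)
open Pool.Agent.B5.H25.Bch
open Pool.Agent.B5.BP90 (Et pE pE_inj embN et_im_ne)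
open Pool.Agent.B5.BP57
open Pool.Agent.B5.H93 (nE_cast three_le_nE classV_const)

/-- the norm of `M - (1 + eta) l`. -/
theorem nE_l {et : Eis} (he : Et et) {M l : ℕ} (h2 : 2 ≤ l) (hl : l + 2 ≤ M) :
    nE (((M : ℤ) : Eis) - (1 + et) * ((l : ℤ) : Eis)) + 3 * (M * l) = M * M + 3 * (l * l) := by
  have h1 : ((nE (((M : ℤ) : Eis) - (1 + et) * ((l : ℤ) : Eis)) : ℕ) : ℝ) =
      (M : ℝ) * M + 3 * (l * l) - 3 * (M * l) := by
    rw [nE_cast, ← Complex.normSq_eq_norm_sq, Complex.normSq_apply, map_sub, map_mul, map_add,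
      embN, embN, map_one]
    obtain ⟨h3, h4⟩ := he
    simp only [Complex.sub_re, Complex.mul_re, Complex.mul_im, Complex.add_re, Complex.add_im,
      Complex.intCast_re, Complex.one_re, Complex.sub_im, Complex.intCast_im, Complex.one_im, h3]
    push_cast
    linear_combination ((l : ℝ) * l) * h4
  obtain ⟨nn, hnn⟩ : ∃ nn, nn = nE (((M : ℤ) : Eis) - (1 + et) * ((l : ℤ) : Eis)) := ⟨_, rfl⟩
  rw [← hnn] at h1 ⊢
  have h3 : ((nn + 3 * (M * l) : ℕ) : ℝ) = ((M * M + 3 * (l * l) : ℕ) : ℝ) := by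
    push_cast
    rw [h1]
    ring
  exact_mod_cast h3

/-- the numbers. -/
theorem bev_l {M l n : ℕ} (h2 : 2 ≤ l) (hl : l + 2 ≤ M) (h5 : 5 ≤ M)
    (hn : n + 3 * (M * l) = M * M + 3 * (l * l)) : Bev n + 4 < 2 * M := by
  obtain ⟨a, rfl⟩ : ∃ a, l = a + 2 := ⟨l - 2, by omega⟩
  obtain ⟨b, rfl⟩ : ∃ b, M = a + b + 4 := ⟨M - a - 4, by omega⟩
  unfold Bev
  split_ifs with h6 h7
  · omega
  · rw [h7] at hn
    have : 6 ≤ a + b + 4 := by
      by_contra h8
      have h9 : a + b = 1 := by omega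
      obtain rfl : b = 1 - a := by omega
      have : a ≤ 1 := by omega
      interval_cases a <;> omega
    omega
  · have h8 : Nat.sqrt (4 * n) < 2 * (a + b + 4) - 4 := by
      rw [Nat.sqrt_lt]
      have h9 : 2 * (a + b + 4) - 4 = 2 * (a + b) + 4 := by omega
      rw [h9]
      nlinarith [Nat.zero_le (a * b)]
    omega

section

variable {P L : Type} [Fintype P] [DecidableEq P] [AddCommGroup L] [Module.Free ℤ L]
  [Module.Finite ℤ L] {phi : L →+ (P → ℤ)}

/-- T2L. -/
theorem t2l (hG1 : G1pS) (hR : ResWDS) (hRS : ResStS) (hEv : EvS) (hEvm : EvmS)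
    (hFcl : FclS) (hE1 : E1S) (hMV : MVS) (hMm : MmulS) (hU : UnitRS) (hRk : RkS)
    {H : AO Eis L} {b : L} {j : P} {u : (RO Eis)ˣ}
    {hj : co phi j b = 1} {c : RO Eis} {n : ℕ} {G : Fin n → AO Eis (Ker (co phi j))}
    (fd : FD phi H b j u hj c n G) (hs : snp phi b j G = ∅) (hI : ImS phi b)
    {et : Eis} (he : Et et) {M' l : ℕ} (h2 : 2 ≤ l) (hl : l + 2 ≤ M')
    (hr : Module.finrank ℤ L + 3 = 2 * M') {w : (RO Eis)ˣ} {c0 : RO Eis} {v : Eis[X]}
    (hv : (w : RO Eis) * (c0 * (H.coeff 0 + (u : RO Eis) * H.coeff b)) = toLaurent v)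
    (hv0 : v.coeff 0 = ((M' : ℤ) : Eis) - (1 + et) * ((l : ℤ) : Eis))
    (hz : ZF (v.map Coef.emb)) (hz1 : (v.map (Coef.emb : Eis →+* ℂ)).eval (-1) ≠ 0)
    (hfull : rk (supp (cl (co phi j) b hj u H)) = Module.finrank ℤ (Ker (co phi j)))
    {x : Ker (co phi j)} (hx : (cl (co phi j) b hj u H).coeff x ≠ 0)
    (hxd : (1 + LaurentPolynomial.T 1 : RO Eis) ∣ c0 * (cl (co phi j) b hj u H).coeff x) :
    False := by
  classical
  have hker := finrank_kerO hRk hj
  have hnE := nE_l he h2 hl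
  rw [← hv0] at hnE
  have hpos : 1 ≤ ‖(Coef.emb (v.coeff 0) : ℂ)‖ := by
    apply Coef.one_le
    intro h0
    have h3 : nE (v.coeff 0) = 0 := by
      have h4 : ((nE (v.coeff 0) : ℕ) : ℝ) = 0 := by
        rw [nE_cast, h0, map_zero, norm_zero]
        norm_num
      exact_mod_cast h4
    rw [h3] at hnE
    obtain ⟨a, rfl⟩ : ∃ a, l = a + 2 := ⟨l - 2, by omega⟩
    obtain ⟨b', rfl⟩ : ∃ b', M' = a + b' + 4 := ⟨M' - a - 4, by omega⟩
    rcases Nat.le_total a b' with h5 | h5
    · obtain ⟨d, rfl⟩ := Nat.exists_eq_add_of_le h5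
      nlinarith [Nat.zero_le (a * d)]
    · obtain ⟨d, rfl⟩ := Nat.exists_eq_add_of_le h5
      nlinarith [Nat.zero_le (b' * d)]
  have hcl := classV_of hU hv hpos hz
  rw [fd.v00] at hcl
  obtain ⟨N0, N1, hc0, hcl1, hN0⟩ := (hE1 Eis).1 _ _ _ hcl
  obtain ⟨Nc, Np, h1, h2', hNN⟩ := (hE1 Eis).1 _ _ _ hcl1
  obtain ⟨h3, h4⟩ := Clo.classV_prod hE1 hMV hMm (fun i => (G i).coeff 0) Finset.univ Np h2'
  have hex : ∀ i, ∃ ga : Eis, ‖(Coef.emb ga : ℂ)‖ = M ((G i).coeff 0) :=
    fun i => classV_const (h3 i (Finset.mem_univ i))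
  choose ga hga using hex
  obtain ⟨g0, hg0⟩ := classV_const hc0
  obtain ⟨gc, hgc⟩ := classV_const h1
  have hbig := bigO hI fd hs
  have h3le : ∀ i, 3 ≤ nE (ga i) := by
    intro i
    apply three_le_nE
    rw [hga i]
    exact hbig i
  have hcn : nE g0 * (nE gc * ∏ i, nE (ga i)) = nE (v.coeff 0) := by
    have h5 : ((nE g0 * (nE gc * ∏ i, nE (ga i)) : ℕ) : ℝ) = ((nE (v.coeff 0) : ℕ) : ℝ) := by
      have h6 : ((∏ i, nE (ga i) : ℕ) : ℝ) = (∏ i, M ((G i).coeff 0)) ^ 2 := by
        rw [Nat.cast_prod, ← Finset.prod_pow]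
        refine Finset.prod_congr rfl fun i _ => ?_
        rw [nE_cast, hga i]
      rw [Nat.cast_mul, Nat.cast_mul, h6, nE_cast g0, nE_cast gc, nE_cast (v.coeff 0), hg0, hgc,
        hN0, hNN, h4]
      ring
    exact_mod_cast h5
  have hbigU : big G = Finset.univ := by
    unfold big
    exact Finset.filter_true_of_mem fun i _ => hbig i
  have hrkle := hG1 Eis P L phi H b j u hj c n G fd
    (fun i b _ hp _ => absurd hp (nopureO hI fd i))
  rw [hs, hbigU, Finset.card_empty, add_zero] at hrkle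
  have hrki : ∀ i, rk (supp (G i)) ≤ Bev (nE (ga i)) := fun i =>
    fac_rkE hEv hR hRS hI fd i (by rw [hga i]; exact h3 i (Finset.mem_univ i))
  have hsum := hEvm.2.2.2 (Fin n) Finset.univ (fun i => nE (ga i)) (fun i _ => h3le i)
  have hle2 := Finset.sum_le_sum fun i (_ : i ∈ Finset.univ) => hrki i
  have hpospr : 0 < ∏ i, nE (ga i) := by
    apply Finset.prod_pos
    intro i _
    have := h3le i
    omega
  have hlt : ∀ y : ℕ, Bbg y ≤ Bev y := by
    intro y
    unfold Bbg
    split_ifs with h5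
    · exact Nat.zero_le _
    · exact le_rfl
  have hvpos : 0 < nE (v.coeff 0) := by
    have h5 : (0 : ℝ) < ((nE (v.coeff 0) : ℕ) : ℝ) := by
      rw [nE_cast]
      positivity
    exact_mod_cast h5
  have hprle : ∏ i, nE (ga i) ≤ nE (v.coeff 0) :=
    Nat.le_of_dvd hvpos ⟨nE g0 * nE gc, by rw [← hcn]; ring⟩
  have hmon := hEvm.1 hprle
  have hlt' := hlt (∏ i, nE (ga i))
  rw [hfull] at hrkle
  rcases Nat.lt_or_ge 4 M' with h5 | h5
  · have h6 := bev_l h2 hl h5 hnE
    omega
  · -- the tight case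
    have hM : M' = 4 := by omega
    have hl2 : l = 2 := by omega
    subst hM hl2
    have hn4 : nE (v.coeff 0) = 4 := by omega
    rw [hn4] at hcn
    have hp4 : ∏ i, nE (ga i) = 4 := by
      have h6 : ∏ i, nE (ga i) ∣ 4 := ⟨nE g0 * nE gc, by rw [← hcn]; ring⟩
      have h7 : ∏ i, nE (ga i) ≤ 4 := Nat.le_of_dvd (by norm_num) h6
      have h8 : Bbg 1 = 0 := rfl
      interval_cases h9 : ∏ i, nE (ga i)
      · omega
      · exfalso
        have h10 : Bev 2 = 2 := by
          unfold Bev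
          rw [if_neg (by norm_num), if_neg (by norm_num)]
          norm_num
        have h11 : Bbg 2 = Bev 2 := rfl
        omega
      · omega
      · rfl
    rw [hp4] at hcn
    have hg01 : nE g0 = 1 := by
      have h6 : nE g0 * nE gc = 1 := by
        have : nE g0 * nE gc * 4 = 1 * 4 := by rw [one_mul, mul_assoc]; exact hcn
        exact Nat.eq_of_mul_eq_mul_right (by norm_num) this
      exact Nat.eq_one_of_mul_eq_one_right h6
    have hne : (Finset.univ : Finset (Fin n)).Nonempty := by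
      rw [Finset.nonempty_iff_ne_empty]
      intro h6
      rw [h6, Finset.prod_empty] at hp4
      omega
    obtain ⟨k, -⟩ := hne
    have hsp := Finset.mul_prod_erase Finset.univ (fun i => nE (ga i)) (Finset.mem_univ k)
    have huniq : ∀ i, i = k := by
      intro i
      by_contra hi
      have hmem : i ∈ Finset.univ.erase k := Finset.mem_erase.mpr ⟨hi, Finset.mem_univ i⟩
      have h6 : 0 < ∏ i ∈ Finset.univ.erase k, nE (ga i) := by
        apply Finset.prod_pos
        intro i _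
        have := h3le i
        omega
      have h7 : 3 ≤ ∏ i ∈ Finset.univ.erase k, nE (ga i) :=
        (h3le i).trans (Nat.le_of_dvd h6 (Finset.dvd_prod_of_mem _ hmem))
      have h8 := Nat.mul_le_mul (h3le k) h7
      rw [hsp, hp4] at h8
      omega
    have hprodG : ∏ i, G i = G k := by
      rw [Finset.prod_eq_single k]
      · intro i _ hi
        exact absurd (huniq i) hi
      · intro hi
        exact absurd (Finset.mem_univ k) hi
    have hVG : cl (co phi j) b hj u H = cst c * G k := by rw [fd.eq, hprodG]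
    have hsup : supp (cl (co phi j) b hj u H) = supp (G k) := by
      rw [hVG, H78.supp_cst_mul fd.c0]
    have hDDk : DD (phO phi b j) (G k) := dd_facO hI fd k (by rw [← hsup, hfull])
    have hgk : nE (ga k) = 4 := by
      rw [← hp4]
      symm
      rw [Finset.prod_eq_single k]
      · intro i _ hi
        exact absurd (huniq i) hi
      · intro hi
        exact absurd (Finset.mem_univ k) hi
    have hZ : ZFree (G k) := by
      refine zfree_ext hFcl hEv hEvm hDDk (ga := ga k) ?_ (by omega) ?_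
      · rw [hga k]
        exact h3 k (Finset.mem_univ k)
      · rw [hgk]
        have h6 : Bev 4 = 4 := by
          unfold Bev
          rw [if_neg (by norm_num), if_neg (by norm_num)]
          norm_num
        omega
    -- the coefficient at x
    obtain ⟨cc, m, hcc⟩ := zfree_co hZ x
    have hcx : (cl (co phi j) b hj u H).coeff x =
        c * (LaurentPolynomial.C cc * LaurentPolynomial.T m) := by
      rw [hVG, H78.cstm, hcc]
    have hcc0 : cc ≠ 0 := by
      rintro rfl
      apply hx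
      rw [hcx, map_zero, zero_mul, mul_zero]
    obtain ⟨zc, hzc⟩ := KE.circle_of (-1) (by rw [norm_neg, norm_one])
    have e1 : evR zc (LaurentPolynomial.T 1 : RO Eis) = -1 := by
      have h6 := H61.evR_Tp (O := Eis) zc 1 1
      rw [map_one, mul_one, Polynomial.map_one, eval_one, mul_one, zpow_one, hzc] at h6
      exact h6
    have e2 : evR zc (toLaurent v : RO Eis) ≠ 0 := by
      have h6 := H61.evR_Tp (O := Eis) zc 0 v
      rw [LaurentPolynomial.T_zero, one_mul, zpow_zero, one_mul, hzc] at h6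
      rw [h6]
      exact hz1
    rw [← hv, fd.v00] at e2
    rw [map_mul, map_mul, map_mul] at e2
    have e3 := right_ne_zero_of_mul e2
    have e4 := left_ne_zero_of_mul e3
    have e5 := left_ne_zero_of_mul (right_ne_zero_of_mul e3)
    obtain ⟨q, hq⟩ := hxd
    have e6 := congrArg (evR zc) hq
    rw [map_mul, map_mul, map_add, map_one, e1, add_neg_cancel, zero_mul, hcx, map_mul,
      map_mul] at e6
    have e7 : evR zc (LaurentPolynomial.C cc : RO Eis) ≠ 0 := by
      have h6 := H61.evR_Tp (O := Eis) zc 0 (C cc)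
      rw [LaurentPolynomial.T_zero, one_mul, zpow_zero, one_mul, toLaurent_C, Polynomial.map_C,
        eval_C] at h6
      rw [h6]
      have h7 := Coef.one_le cc hcc0
      rw [← norm_pos_iff]
      linarith
    have e8 : evR zc (LaurentPolynomial.T m : RO Eis) ≠ 0 := by
      rw [← norm_pos_iff, H36.norm_evR_unit zc _ (LaurentPolynomial.isUnit_T m)]
      exact one_pos
    exact mul_ne_zero e4 (mul_ne_zero e5 (mul_ne_zero e7 e8)) e6

end

end Pool.Agent.B5.KO57
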