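import Pool.Agent.Lib.MP_b5021c_nt.KO.H57.T2z

/-!
# MP_b5021c_nt, K ODD, l = 3, ALPHA: the exceptional case of T2 is terminal, coefficient by
coefficient (helper57)
-/

namespace Pool.Agent.B5.KO57

open scoped LaurentPolynomial
open Polynomial Pool.Agent.B5
open Pool.Agent.MP_b5021c_nt (Eis)
open Pool.Agent.B5.H25.Bch
open Pool.Agent.B5.BP90 (Et pE pE_inj embN et_im_ne)
open Pool.Agent.B5.BP57
open Pool.Agent.B5.KO.H71

theorem sub_co {R : Type} [CommRing R] (F G : LaurentPolynomial R) (k : ℤ) :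
    (F - G).coeff k = F.coeff k - G.coeff k := rfl

/-- the content `1 - s T^d`. -/
theorem tl_bin {s : Eis} {d : ℕ} : (toLaurent (1 - C s * X ^ d) : RO Eis) =
    1 - LaurentPolynomial.C s * LaurentPolynomial.T d := by
  rw [map_sub, map_one, map_mul, toLaurent_C, toLaurent_X_pow]

theorem tl_ne {s : Eis} {d : ℕ} (hd : 1 ≤ d) : (toLaurent (1 - C s * X ^ d) : RO Eis) ≠ 0 := by
  intro h
  have h1 := (toLaurent_eq_zero (f := (1 - C s * X ^ d : Eis[X]))).mp h
  have h2 := congrArg (fun f : Eis[X] => f.coeff 0) h1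
  have hd0 : 0 ≠ d := by omega
  simp only [coeff_sub, coeff_one, coeff_C_mul, coeff_X_pow, if_neg hd0, if_pos, mul_zero,
    sub_zero, coeff_zero] at h2
  exact one_ne_zero h2

/-- a real multiple of `(1 - s T^d)` times a monomial is zero if `s` is not real. -/
theorem real_W {et : Eis} (he : Et et) {s : Eis} {e' : ℤ} (he1 : e' = 1 ∨ e' = -1)
    (hs : s = (e' : Eis) * et) {d : ℕ} (hd : 1 ≤ d) {D : RO ℤ} {ga : Eis} {l : ℤ}
    (h : bcR D = toLaurent (1 - C s * X ^ d) *
      (LaurentPolynomial.C ga * LaurentPolynomial.T l)) : D = 0 := by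
  rw [tl_bin] at h
  have h0 : bcR D = LaurentPolynomial.C ga * LaurentPolynomial.T l -
      LaurentPolynomial.C (s * ga) * LaurentPolynomial.T (l + d) := by
    rw [h, map_mul, LaurentPolynomial.T_add]
    ring
  have hCT : ∀ (a : Eis) (n k : ℤ), (LaurentPolynomial.C a * LaurentPolynomial.T n :
      RO Eis).coeff k = if n = k then a else 0 := by
    intro a n k
    have h1 : (LaurentPolynomial.C a * LaurentPolynomial.T n : RO Eis) =
        AddMonoidAlgebra.single n a := (LaurentPolynomial.single_eq_C_mul_T a n).symm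
    rw [h1, AddMonoidAlgebra.coeff_single, Finsupp.single_apply]
  have h1 := congrArg (fun F : RO Eis => F.coeff l) h0
  have h2 := congrArg (fun F : RO Eis => F.coeff (l + d)) h0
  have hd0 : ¬ (l + d = l) := by omega
  have hd1 : ¬ (l = l + d) := by omega
  simp only [sub_co, bcR_co, hCT, if_pos, if_neg hd0, sub_zero] at h1
  simp only [sub_co, bcR_co, hCT, if_pos, if_neg hd1, zero_sub] at h2
  rw [← h1, hs] at h2
  have h3 := ind_co he (a := D.coeff (l + d)) (b := e' * D.coeff l) (by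
    push_cast
    linear_combination h2)
  have h4 : D.coeff l = 0 := by
    rcases he1 with h5 | h5 <;> rw [h5] at h3 <;> omega
  have h5 : ga = 0 := by
    rw [← h1, h4, Int.cast_zero]
  rw [h5, map_zero, zero_mul, mul_zero] at h
  exact bcR_inj (h.trans (map_zero bcR).symm)

/-- z-free elements: the monomials with their exponents. -/
theorem zfree_co' {L : Type} [AddCommGroup L] {G : AO Eis L} (h : ZFree G) :
    ∃ (q : ℕ) (lm : L →+ ℤ) (n : ℤ), 0 < q ∧ ∀ a, ∃ (c : Eis) (l : ℤ),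
      G.coeff a = LaurentPolynomial.C c * LaurentPolynomial.T l ∧
        (c ≠ 0 → (q : ℤ) * l = lm a + q * n) := by
  obtain ⟨q, lm, n, hq, hG⟩ := h
  refine ⟨q, lm, n, hq, fun a => ?_⟩
  obtain ⟨c, l, hc⟩ := zfree_co ⟨q, lm, n, hq, hG⟩ a
  refine ⟨c, l, hc, fun h0 => hG a l ?_⟩
  rw [hc]
  have h1 : (LaurentPolynomial.C c * LaurentPolynomial.T l : RO Eis) =
      AddMonoidAlgebra.single l c := (LaurentPolynomial.single_eq_C_mul_T c l).symm
  rw [h1, AddMonoidAlgebra.coeff_single, Finsupp.single_apply, if_pos rfl]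
  exact h0

section

variable {P L : Type} [Fintype P] [DecidableEq P] [AddCommGroup L] [Module.Free ℤ L]
  [Module.Finite ℤ L] {phi : L →+ (P → ℤ)} {G : AO ℤ L} {r : ZMod 3 → L}
  {e : ZMod 3 → (RO ℤ)ˣ} {mu : ZMod 3 → L →+ ℤ}

/-- the closing at a free exponent. -/
theorem t2u (h : Tri phi G r e mu) (hF1 : F1S) (hI : Function.Injective phi)
    (hb : ∀ a ∈ supp G, Bin phi a) {et : Eis} (he : Et et) {u : L} (hu : Fr phi r mu u) :
    t2co et G r e u = bcR (G.coeff u) +
      LaurentPolynomial.C (1 + et) * bcR ((e 0 : RO ℤ) * G.coeff (u + r 0)) := by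
  have h1 := h.all_eq hF1 hI hb hu 0 1
  have h2 := h.pair hF1 hI hb hu (i := 0) (j := 1) (by decide) 0
  have h3 := congrArg bcR h1
  have h4 := congrArg bcR h2
  simp only [map_mul, map_neg] at h3 h4
  unfold t2co
  have h7 := congrArg (LaurentPolynomial.C : Eis →+* RO Eis) (et_mul he)
  simp only [map_mul, map_sub, map_one] at h7
  rw [map_add LaurentPolynomial.C 1 et, map_one, map_mul]
  linear_combination (-LaurentPolynomial.C et) * h3 +
    (LaurentPolynomial.C et * LaurentPolynomial.C et) * h4 +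
    (bcR (e 0 : RO ℤ) * bcR (G.coeff (u + r 0))) * h7

/-- the closing at `u + r 2`. -/
theorem t2r (h : Tri phi G r e mu) (hF1 : F1S) (hI : Function.Injective phi)
    (hb : ∀ a ∈ supp G, Bin phi a) (et : Eis) {u : L} (hu : Fr phi r mu u) :
    bcR (e 2 : RO ℤ) * t2co et G r e (u + r 2) =
      LaurentPolynomial.C (1 - 2 * et) * bcR ((e 0 : RO ℤ) * G.coeff (u + r 0)) +
      LaurentPolynomial.C (et * et) * bcR ((e 0 : RO ℤ) * ((e 1 : RO ℤ) * ((e 2 : RO ℤ) *
        G.coeff (u + r 2 + r 0 + r 1)))) := by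
  have h1 := h.all_eq hF1 hI hb hu 0 2
  have h2 := h.pair hF1 hI hb hu (i := 2) (j := 1) (by decide) 0
  have h20 := h.pair hF1 hI hb hu (i := 2) (j := 0) (by decide) 0
  have h3 := congrArg bcR h1
  have h4 := congrArg bcR h2
  have h40 := congrArg bcR h20
  simp only [map_mul, map_neg] at h3 h4 h40
  unfold t2co
  rw [map_sub, map_one, map_mul LaurentPolynomial.C 2 et, map_mul LaurentPolynomial.C et et]
  have h8 : (LaurentPolynomial.C (2 : Eis) : RO Eis) = 2 := map_ofNat _ 2
  rw [h8]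
  simp only [map_mul]
  linear_combination -h3 + (LaurentPolynomial.C et) * h4 + (LaurentPolynomial.C et) * h40

/-- a class with one member. -/
theorem t2one (h : Tri phi G r e mu) (hF1 : F1S) (hI : Function.Injective phi)
    (hb : ∀ a ∈ supp G, Bin phi a) {et : Eis} (he : Et et) {j0 j1 : P}
    (h0 : phi (r 0) j0 = 1) (h1 : phi (r 1) j1 = 1) {x : L} {tb sb : ℤ}
    (hx0 : phi x j0 = 0) (hx1 : phi x j1 = 0) (htb1 : tb = 0 ∨ tb = 1) (hsb1 : sb = 0 ∨ sb = 1)
    (hmb : ∀ i, mu i (x + tb • r 0 + sb • r 1) = 0)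
    (hex : ¬ (Fr phi r mu x ∨ Fr phi r mu (x - r 2))) :
    ∃ (c c' : Eis) (E' : (RO ℤ)ˣ), c' * c = 1 ∧ t2co et G r e x =
      LaurentPolynomial.C c * bcR ((E' : RO ℤ) * G.coeff (x + tb • r 0 + sb • r 1)) := by
  push Not at hex
  have hzz : ∀ s' t' : ℤ, G.coeff (x + s' • r 0 + t' • r 1) ≠ 0 → tb = s' ∧ sb = t' := by
    intro s' t' h3
    apply h.uniq hmb
    by_contra hcon
    push Not at hcon
    rcases h.cls hF1 hI hb h0 h1 hx0 hx1 h3 hcon with h4 | h4
    · exact hex.1 h4
    · exact hex.2 h4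
  have z00 : tb ≠ 0 ∨ sb ≠ 0 → G.coeff x = 0 := by
    intro h3
    by_contra h4
    have h5 := hzz 0 0 (by rw [zero_smul, zero_smul, add_zero, add_zero]; exact h4)
    rcases h3 with h3 | h3
    · exact h3 h5.1
    · exact h3 h5.2
  have z10 : tb ≠ 1 ∨ sb ≠ 0 → G.coeff (x + r 0) = 0 := by
    intro h3
    by_contra h4
    have h5 := hzz 1 0 (by rw [one_smul, zero_smul, add_zero]; exact h4)
    rcases h3 with h3 | h3
    · exact h3 h5.1
    · exact h3 h5.2
  have z01 : tb ≠ 0 ∨ sb ≠ 1 → G.coeff (x + r 1) = 0 := by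
    intro h3
    by_contra h4
    have h5 := hzz 0 1 (by rw [one_smul, zero_smul, add_zero]; exact h4)
    rcases h3 with h3 | h3
    · exact h3 h5.1
    · exact h3 h5.2
  have z11 : tb ≠ 1 ∨ sb ≠ 1 → G.coeff (x + r 0 + r 1) = 0 := by
    intro h3
    by_contra h4
    have h5 := hzz 1 1 (by rw [one_smul, one_smul]; exact h4)
    rcases h3 with h3 | h3
    · exact h3 h5.1
    · exact h3 h5.2
  have hem := et_mul he
  unfold t2co
  rcases htb1 with ht | ht <;> rcases hsb1 with hs' | hs'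
  · refine ⟨1, 1, 1, one_mul 1, ?_⟩
    rw [z10 (Or.inl (by rw [ht]; norm_num)), z01 (Or.inr (by rw [hs']; norm_num)),
      z11 (Or.inl (by rw [ht]; norm_num)), ht, hs', zero_smul, zero_smul, add_zero, add_zero,
      map_zero, map_one, Units.val_one, one_mul, one_mul]
    ring
  · refine ⟨et, 1 - et, e 1, by linear_combination hem, ?_⟩
    rw [z00 (Or.inr (by rw [hs']; norm_num)), z10 (Or.inl (by rw [ht]; norm_num)),
      z11 (Or.inl (by rw [ht]; norm_num)), ht, hs', zero_smul, one_smul, add_zero,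
      map_zero, map_mul]
    ring
  · refine ⟨et, 1 - et, e 0, by linear_combination hem, ?_⟩
    rw [z00 (Or.inl (by rw [ht]; norm_num)), z01 (Or.inl (by rw [ht]; norm_num)),
      z11 (Or.inr (by rw [hs']; norm_num)), ht, hs', zero_smul, one_smul, add_zero,
      map_zero, map_mul]
    ring
  · refine ⟨et * et, (1 - et) * (1 - et), e 0 * e 1, by
      linear_combination (et * (1 - et) + 1) * hem, ?_⟩
    rw [z00 (Or.inl (by rw [ht]; norm_num)), z01 (Or.inl (by rw [ht]; norm_num)),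
      z10 (Or.inr (by rw [hs']; norm_num)), ht, hs', one_smul, one_smul,
      map_zero, map_mul, Units.val_mul, map_mul, map_mul]
    ring

/-- THE EXCEPTIONAL CASE IS TERMINAL. -/
theorem ter_exc (h : Tri phi G r e mu) (hF1 : F1S) (hI : Function.Injective phi)
    (hb : ∀ a ∈ supp G, Bin phi a) (hU : UnitRS) {et : Eis} (he : Et et) {j0 j1 : P}
    (h0 : phi (r 0) j0 = 1) (h1 : phi (r 1) j1 = 1) (hG0 : G.coeff 0 ≠ 0) {q : ℕ}
    (hq : 0 < q) {lm : L →+ ℤ} {n : ℤ} {s : Eis} {e' : ℤ} (he1 : e' = 1 ∨ e' = -1)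
    (hs : s = (e' : Eis) * et) {d : ℕ} (hd : 1 ≤ d)
    (hz : ∀ a, phi a j0 = 0 → phi a j1 = 0 → ∃ (c : Eis) (l : ℤ), t2co et G r e a =
      toLaurent (1 - C s * X ^ d) * (LaurentPolynomial.C c * LaurentPolynomial.T l) ∧
        (c ≠ 0 → (q : ℤ) * l = lm a + q * n))
    (hm0 : (e 0 : RO ℤ) * ((e 1 : RO ℤ) * ((e 2 : RO ℤ) * G.coeff (r 2 + r 0 + r 1))) =
      G.coeff 0 + 3 * ((e 0 : RO ℤ) * G.coeff (r 0))) :
    (∀ u, Fr phi r mu u →
      (e 0 : RO ℤ) * ((e 1 : RO ℤ) * ((e 2 : RO ℤ) * G.coeff (u + r 2 + r 0 + r 1))) =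
        G.coeff u + 3 * ((e 0 : RO ℤ) * G.coeff (u + r 0))) ∧
    ∀ b ∈ supp G, (∀ i, mu i b = 0) →
      Fr phi r mu b ∨ ∃ u, Fr phi r mu u ∧ b = u + r 2 + r 0 + r 1 := by
  classical
  have hW := tl_ne (s := s) hd
  obtain ⟨d2, s2, hs2, he2⟩ := (hU ℤ _).mp (e 2).isUnit
  -- ports
  have p10 : phi (r 1) j0 = 0 := (h.dis 0 1 (by decide) j0).resolve_left (by rw [h0]; norm_num)
  have p20 : phi (r 2) j0 = 0 := (h.dis 0 2 (by decide) j0).resolve_left (by rw [h0]; norm_num)
  have p01 : phi (r 0) j1 = 0 := (h.dis 1 0 (by decide) j1).resolve_left (by rw [h1]; norm_num)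
  have p21 : phi (r 2) j1 = 0 := (h.dis 1 2 (by decide) j1).resolve_left (by rw [h1]; norm_num)
  have pu0 : ∀ {u}, Fr phi r mu u → phi u j0 = 0 := fun {u} hu =>
    (hu.1 0 j0).resolve_right (by rw [h0]; norm_num)
  have pu1 : ∀ {u}, Fr phi r mu u → phi u j1 = 0 := fun {u} hu =>
    (hu.1 1 j1).resolve_right (by rw [h1]; norm_num)
  -- the two closings at a free exponent
  have key : ∀ u, Fr phi r mu u → ∃ (c c2 : Eis) (l l2 : ℤ),
      t2co et G r e u =
        toLaurent (1 - C s * X ^ d) * (LaurentPolynomial.C c * LaurentPolynomial.T l) ∧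
      (c ≠ 0 → (q : ℤ) * l = lm u + q * n) ∧
      (c2 ≠ 0 → (q : ℤ) * (l2 - d2) = lm u + lm (r 2) + q * n) ∧
      bcR (G.coeff u + 3 * ((e 0 : RO ℤ) * G.coeff (u + r 0)) -
        (e 0 : RO ℤ) * ((e 1 : RO ℤ) * ((e 2 : RO ℤ) * G.coeff (u + r 2 + r 0 + r 1)))) =
        toLaurent (1 - C s * X ^ d) * (LaurentPolynomial.C c * LaurentPolynomial.T l) -
        toLaurent (1 - C s * X ^ d) * (LaurentPolynomial.C c2 * LaurentPolynomial.T l2) := by
    intro u hu
    obtain ⟨c, l, k1, k2⟩ := hz u (pu0 hu) (pu1 hu)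
    obtain ⟨c', l', k3, k4⟩ := hz (u + r 2)
      (by rw [map_add, Pi.add_apply, pu0 hu, p20, add_zero])
      (by rw [map_add, Pi.add_apply, pu1 hu, p21, add_zero])
    refine ⟨c, -et * ((s2 : ℤ) : Eis) * c', l, l' + d2, k1, k2, ?_, ?_⟩
    · intro h2
      rw [add_sub_cancel_right, k4 (right_ne_zero_of_mul h2), map_add]
    · have k5 := t2u h hF1 hI hb he hu
      have k6 := t2r h hF1 hI hb et hu
      have he2' : bcR (e 2 : RO ℤ) = LaurentPolynomial.C ((s2 : ℤ) : Eis) *
          LaurentPolynomial.T d2 := by rw [he2, map_mul, bcR_C, bcR_T]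
      rw [k1] at k5
      rw [k3, he2'] at k6
      have h7 := congrArg (LaurentPolynomial.C : Eis →+* RO Eis) (et_mul he)
      simp only [map_mul, map_sub, map_one] at h7
      have h8 : (LaurentPolynomial.C (2 : Eis) : RO Eis) = 2 := map_ofNat _ 2
      rw [map_sub LaurentPolynomial.C 1 (2 * et), map_one, map_mul LaurentPolynomial.C 2 et, h8,
        map_mul LaurentPolynomial.C et et] at k6
      rw [map_add LaurentPolynomial.C 1 et, map_one] at k5
      rw [map_sub bcR, map_add bcR, map_mul bcR 3, map_ofNat, LaurentPolynomial.T_add,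
        map_mul LaurentPolynomial.C (-et * ((s2 : ℤ) : Eis)) c',
        map_mul LaurentPolynomial.C (-et) ((s2 : ℤ) : Eis), map_neg]
      linear_combination -k5 - (LaurentPolynomial.C et) * k6 +
        (bcR ((e 0 : RO ℤ) * ((e 1 : RO ℤ) * ((e 2 : RO ℤ) *
        G.coeff (u + r 2 + r 0 + r 1)))) * (LaurentPolynomial.C et + 1) -
          2 * bcR ((e 0 : RO ℤ) * G.coeff (u + r 0))) * h7
  have fr0 : Fr phi r mu 0 := by
    refine ⟨fun i q => Or.inl ?_, fun i => map_zero _⟩
    rw [map_zero]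
    rfl
  have hr2 : lm (r 2) = -((q : ℤ) * d2) := by
    obtain ⟨c0, c20, l0, l20, a1, a2, a3, a4⟩ := key 0 fr0
    rw [zero_add, zero_add] at a4
    rw [hm0, sub_self, map_zero, ← mul_sub] at a4
    have a5 := sub_eq_zero.mp ((mul_eq_zero.mp a4.symm).resolve_left hW)
    have hc0 : c0 ≠ 0 := by
      rintro rfl
      rw [map_zero, zero_mul, mul_zero] at a1
      apply hG0
      apply AddMonoidAlgebra.ext
      apply Finsupp.ext
      intro k
      have a6 := t2co_u h hF1 hI hb he fr0 k (by rw [a1]; rfl)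
      exact a6.1
    rw [← LaurentPolynomial.single_eq_C_mul_T, ← LaurentPolynomial.single_eq_C_mul_T] at a5
    have a6 := congrArg (fun F : RO Eis => F.coeff l0) a5
    simp only [AddMonoidAlgebra.coeff_single, Finsupp.single_apply, if_pos] at a6
    split_ifs at a6 with a7
    · rw [a6] at hc0
      have a8 := a2 (by rw [a6]; exact hc0)
      have a9 := a3 hc0
      rw [map_zero] at a8 a9
      rw [a7] at a9
      linear_combination a8 - a9
    · exact absurd a6 hc0
  refine ⟨fun u hu => ?_, fun b hbs hmu => ?_⟩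
  · obtain ⟨c, c2, l, l2, b1, b2, b3, b4⟩ := key u hu
    have hD : G.coeff u + 3 * ((e 0 : RO ℤ) * G.coeff (u + r 0)) -
        (e 0 : RO ℤ) * ((e 1 : RO ℤ) * ((e 2 : RO ℤ) * G.coeff (u + r 2 + r 0 + r 1))) = 0 := by
      by_cases hc : c = 0
      · refine real_W he he1 hs hd (ga := -c2) (l := l2) ?_
        rw [b4, hc, map_zero, map_neg]
        ring
      · by_cases hc2 : c2 = 0
        · refine real_W he he1 hs hd (ga := c) (l := l) ?_
          rw [b4, hc2, map_zero]
          ring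
        · have b5 := b2 hc
          have b6 := b3 hc2
          rw [hr2] at b6
          have b7 : (q : ℤ) * l2 = q * l := by linear_combination b6 - b5
          have hq' : (q : ℤ) ≠ 0 := by exact_mod_cast hq.ne'
          have b8 := mul_left_cancel₀ hq' b7
          refine real_W he he1 hs hd (ga := c - c2) (l := l) ?_
          rw [b4, b8, map_sub LaurentPolynomial.C c c2]
          ring
    exact (sub_eq_zero.mp hD).symm
  · obtain ⟨sb, hsb⟩ : ∃ sb, sb = phi b j1 := ⟨_, rfl⟩
    obtain ⟨tb, htb⟩ : ∃ tb, tb = phi b j0 := ⟨_, rfl⟩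
    obtain ⟨x, hx⟩ : ∃ x, x = b - tb • r 0 - sb • r 1 := ⟨_, rfl⟩
    have hbx : x + tb • r 0 + sb • r 1 = b := by rw [hx]; abel
    have hx0 : phi x j0 = 0 := by
      simp only [hx, map_sub, map_zsmul, Pi.sub_apply, Pi.smul_apply, smul_eq_mul, h0, p10, ← htb]
      ring
    have hx1 : phi x j1 = 0 := by
      simp only [hx, map_sub, map_zsmul, Pi.sub_apply, Pi.smul_apply, smul_eq_mul, h1, p01, ← hsb]
      ring
    have hmb : ∀ i, mu i (x + tb • r 0 + sb • r 1) = 0 := by rw [hbx]; exact hmu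
    have hsb1 : sb = 0 ∨ sb = 1 := by rw [hsb]; exact hb b hbs j1
    have htb1 : tb = 0 ∨ tb = 1 := by rw [htb]; exact hb b hbs j0
    by_cases hex : Fr phi r mu x ∨ Fr phi r mu (x - r 2)
    · rcases hex with hu | hu
      · obtain ⟨h3, h4⟩ := h.uniq (s' := 0) (t' := 0) hmb
          (by rw [zero_smul, zero_smul, add_zero, add_zero]; exact hu.2)
        rw [h3, h4, zero_smul, zero_smul, add_zero, add_zero] at hbx
        left
        rw [← hbx]
        exact hu
      · obtain ⟨u, rfl⟩ : ∃ u, x = u + r 2 := ⟨x - r 2, by abel⟩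
        rw [add_sub_cancel_right] at hu
        obtain ⟨h3, h4⟩ := h.uniq (s' := 1) (t' := 1) hmb (by
          intro i
          rw [one_smul, one_smul, map_add, map_add, map_add, hu.2 i, zero_add]
          rcases z3v i with rfl | rfl | rfl
          · have e1 : mu 0 (r 1) = 1 := h.nxt 0
            have e2 : mu 0 (r 2) = -1 := h.prv 0
            have e3 : mu 0 (r 0) = 0 := h.slf 0
            rw [e1, e2, e3]; norm_num
          · have e1 : mu 1 (r 2) = 1 := h.nxt 1
            have e2 : mu 1 (r 0) = -1 := h.prv 1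
            have e3 : mu 1 (r 1) = 0 := h.slf 1
            rw [e1, e2, e3]; norm_num
          · have e1 : mu 2 (r 0) = 1 := h.nxt 2
            have e2 : mu 2 (r 1) = -1 := h.prv 2
            have e3 : mu 2 (r 2) = 0 := h.slf 2
            rw [e1, e2, e3]; norm_num)
        rw [h3, h4, one_smul, one_smul] at hbx
        right
        exact ⟨u, hu, hbx.symm⟩
    · exfalso
      obtain ⟨c, c', E', k1, k2⟩ := t2one h hF1 hI hb he h0 h1 hx0 hx1 htb1 hsb1 hmb hex
      obtain ⟨ga, l, k3, -⟩ := hz x hx0 hx1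
      rw [hbx] at k2
      have k4 : bcR ((E' : RO ℤ) * G.coeff b) = toLaurent (1 - C s * X ^ d) *
          (LaurentPolynomial.C (c' * ga) * LaurentPolynomial.T l) := by
        have k5 := congrArg (LaurentPolynomial.C : Eis →+* RO Eis) k1
        rw [map_mul, map_one] at k5
        rw [map_mul LaurentPolynomial.C c' ga]
        linear_combination LaurentPolynomial.C c' * (k3 - k2) -
          bcR ((E' : RO ℤ) * G.coeff b) * k5
      have k6 := real_W he he1 hs hd k4
      exact hbs ((mul_eq_zero.mp k6).resolve_left E'.ne_zero)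

end

end Pool.Agent.B5.KO57
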