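import Pool.Agent.Lib.MP_b5021c_nt.KO.H57.T2l
import Pool.Agent.Lib.MP_b5021c_nt.KO.H71.Nf2

/-!
# MP_b5021c_nt, K ODD, l = 3, ALPHA: an element with a closed triple is z-free if its
`(eta, eta)`-closing is (helper57)
-/

namespace Pool.Agent.B5.KO57

open scoped LaurentPolynomial
open Polynomial Pool.Agent.B5
open Pool.Agent.MP_b5021c_nt (Eis)
open Pool.Agent.B5.H25.Bch
open Pool.Agent.B5.BP90 (Et pE pE_inj embN et_im_ne)
open Pool.Agent.B5.BP57
open Pool.Agent.B5.KO.H71

/-- coefficients of a monomial multiple. -/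
theorem CTmul_co {R : Type} [CommRing R] (s : R) (d : ℤ) (F : LaurentPolynomial R) (k : ℤ) :
    (LaurentPolynomial.C s * LaurentPolynomial.T d * F).coeff (k + d) = s * F.coeff k := by
  have h : (LaurentPolynomial.C s * LaurentPolynomial.T d : LaurentPolynomial R) =
      AddMonoidAlgebra.single d s := (LaurentPolynomial.single_eq_C_mul_T s d).symm
  rw [h, AddMonoidAlgebra.coeff_single_mul_apply]
  congr 2
  ring

theorem add_co {R : Type} [CommRing R] (F G : LaurentPolynomial R) (k : ℤ) :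
    (F + G).coeff k = F.coeff k + G.coeff k := rfl

theorem neg_co {R : Type} [CommRing R] (F : LaurentPolynomial R) (k : ℤ) :
    (-F).coeff k = -F.coeff k := rfl

/-- `1, eta` are independent, coefficients. -/
theorem ind_co {et : Eis} (he : Et et) {a b : ℤ} (h : (a : Eis) + et * (b : Eis) = 0) :
    a = 0 ∧ b = 0 := by
  have h2 : ((a : ℤ) : Eis) - et * (((-b : ℤ)) : Eis) = 0 := by
    push_cast
    linear_combination h
  have h5 := BP90.et_zero he h2
  rw [h5] at h2
  have h6 : ((a : ℤ) : Eis) = ((0 : ℤ) : Eis) := by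
    rw [Int.cast_zero, ← h2]
    push_cast
    ring
  have h7 := congrArg QuadraticAlgebra.re h6
  simp only [QuadraticAlgebra.re_intCast, Int.cast_id] at h7
  exact ⟨h7, by omega⟩

section

variable {P L : Type} [Fintype P] [DecidableEq P] [AddCommGroup L] [Module.Free ℤ L]
  [Module.Finite ℤ L] {phi : L →+ (P → ℤ)} {G : AO ℤ L} {r : ZMod 3 → L}
  {e : ZMod 3 → (RO ℤ)ˣ} {mu : ZMod 3 → L →+ ℤ}

/-- The coefficients of the `(eta, eta)`-closing. -/
noncomputable def t2co (et : Eis) (G : AO ℤ L) (r : ZMod 3 → L) (e : ZMod 3 → (RO ℤ)ˣ) (a : L) :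
    RO Eis :=
  bcR (G.coeff a) + LaurentPolynomial.C et * bcR (e 1 : RO ℤ) * bcR (G.coeff (a + r 1)) +
    LaurentPolynomial.C et * bcR (e 0 : RO ℤ) * bcR (G.coeff (a + r 0)) +
    LaurentPolynomial.C et * bcR (e 0 : RO ℤ) * (LaurentPolynomial.C et * bcR (e 1 : RO ℤ)) *
      bcR (G.coeff (a + r 0 + r 1))

/-- free exponents. -/
theorem t2co_u (h : Tri phi G r e mu) (hF1 : F1S) (hI : Function.Injective phi)
    (hb : ∀ a ∈ supp G, Bin phi a) {et : Eis} (he : Et et) {u : L} (hu : Fr phi r mu u) (k : ℤ)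
    (hk : (t2co et G r e u).coeff k = 0) :
    (G.coeff u).coeff k = 0 ∧ ((e 0 : RO ℤ) * G.coeff (u + r 0)).coeff k = 0 := by
  have h1 := h.all_eq hF1 hI hb hu 0 1
  have h2 := h.pair hF1 hI hb hu (i := 0) (j := 1) (by decide) 0
  obtain ⟨B, hB⟩ : ∃ B, B = (e 0 : RO ℤ) * G.coeff (u + r 0) := ⟨_, rfl⟩
  rw [← hB] at h1 h2 ⊢
  have h3 := congrArg bcR h1
  have h4 := congrArg bcR h2
  have h5 := congrArg bcR hB
  simp only [map_mul, map_neg] at h3 h4 h5
  have h6 : t2co et G r e u = bcR (G.coeff u) + LaurentPolynomial.C (1 + et) * bcR B := by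
    unfold t2co
    have h7 := congrArg (LaurentPolynomial.C : Eis →+* RO Eis) (et_mul he)
    simp only [map_mul, map_sub, map_one] at h7
    rw [map_add LaurentPolynomial.C 1 et, map_one]
    linear_combination (-LaurentPolynomial.C et) * h3 - (LaurentPolynomial.C et) * h5 +
      (LaurentPolynomial.C et * LaurentPolynomial.C et) * h4 + (bcR B) * h7
  rw [h6, add_co, bcR_co, Cmul_co, bcR_co] at hk
  have h7 := ind_co he (a := (G.coeff u).coeff k + B.coeff k) (b := B.coeff k) (by
    push_cast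
    linear_combination hk)
  obtain ⟨h8, h9⟩ := h7
  exact ⟨by omega, h9⟩

/-- the exponents `u + r 2`. -/
theorem t2co_r (h : Tri phi G r e mu) (hF1 : F1S) (hI : Function.Injective phi)
    (hb : ∀ a ∈ supp G, Bin phi a) {et : Eis} (he : Et et) {u : L} (hu : Fr phi r mu u) (k : ℤ)
    (hk : (bcR (e 2 : RO ℤ) * t2co et G r e (u + r 2)).coeff k = 0) :
    ((e 0 : RO ℤ) * G.coeff (u + r 0)).coeff k = 0 ∧
      ((e 0 : RO ℤ) * ((e 1 : RO ℤ) * ((e 2 : RO ℤ) *
        G.coeff (u + r 2 + r 0 + r 1)))).coeff k = 0 := by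
  have h1 := h.all_eq hF1 hI hb hu 0 2
  have h2 := h.pair hF1 hI hb hu (i := 2) (j := 1) (by decide) 0
  have h20 := h.pair hF1 hI hb hu (i := 2) (j := 0) (by decide) 0
  obtain ⟨B, hB⟩ : ∃ B, B = (e 0 : RO ℤ) * G.coeff (u + r 0) := ⟨_, rfl⟩
  obtain ⟨Q, hQ⟩ : ∃ Q, Q = (e 0 : RO ℤ) * ((e 1 : RO ℤ) * ((e 2 : RO ℤ) *
        G.coeff (u + r 2 + r 0 + r 1))) := ⟨_, rfl⟩
  rw [← hB] at h1 h2 h20 ⊢
  rw [← hQ]
  have h3 := congrArg bcR h1
  have h4 := congrArg bcR h2
  have h40 := congrArg bcR h20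
  have h5 := congrArg bcR hQ
  simp only [map_mul, map_neg] at h3 h4 h40 h5
  have h6 : bcR (e 2 : RO ℤ) * t2co et G r e (u + r 2) =
      LaurentPolynomial.C (1 - 2 * et) * bcR B + LaurentPolynomial.C (et * et) * bcR Q := by
    unfold t2co
    rw [map_sub, map_one, map_mul LaurentPolynomial.C 2 et, map_mul LaurentPolynomial.C et et]
    have h8 : (LaurentPolynomial.C (2 : Eis) : RO Eis) = 2 := map_ofNat _ 2
    rw [h8]
    linear_combination -h3 + (LaurentPolynomial.C et) * h4 + (LaurentPolynomial.C et) * h40 -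
      (LaurentPolynomial.C et * LaurentPolynomial.C et) * h5
  rw [h6, add_co, Cmul_co, bcR_co, Cmul_co, bcR_co] at hk
  have h7 := ind_co he (a := B.coeff k - Q.coeff k) (b := Q.coeff k - 2 * B.coeff k) (by
    push_cast
    linear_combination hk + ((Q.coeff k : ℤ) : Eis) * et_mul he)
  obtain ⟨h8, h9⟩ := h7
  exact ⟨by omega, by omega⟩

theorem et_ne {et : Eis} (he : Et et) : et ≠ 0 := by
  rintro rfl
  have := et_mul he
  rw [zero_mul] at this
  exact one_ne_zero this.symm

theorem cb_co {c : Eis} (hc : c ≠ 0) {F : RO ℤ} {k : ℤ} (hk : F.coeff k ≠ 0) :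
    (LaurentPolynomial.C c * bcR F).coeff k ≠ 0 := by
  rw [Cmul_co, bcR_co]
  refine mul_ne_zero hc ?_
  intro h0
  apply hk
  have h1 : ((F.coeff k : ℤ) : Eis) = ((0 : ℤ) : Eis) := by rw [h0, Int.cast_zero]
  have h7 := congrArg QuadraticAlgebra.re h1
  simp only [QuadraticAlgebra.re_intCast, Int.cast_id] at h7
  exact h7

/-- THE DESCENT: z-free. -/
theorem zf_desc (h : Tri phi G r e mu) (hF1 : F1S) (hI : Function.Injective phi)
    (hb : ∀ a ∈ supp G, Bin phi a) (hU : UnitRS) {et : Eis} (he : Et et) {j0 j1 : P}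
    (h0 : phi (r 0) j0 = 1) (h1 : phi (r 1) j1 = 1) (hB : G.coeff (r 0) ≠ 0) {q : ℕ}
    (hq : 0 < q) {lm : L →+ ℤ} {n : ℤ}
    (hz : ∀ a, phi a j0 = 0 → phi a j1 = 0 → ∀ k, (t2co et G r e a).coeff k ≠ 0 →
      (q : ℤ) * k = lm a + q * n) : ZFree G := by
  classical
  have hun : ∀ i, ∃ (d : ℤ) (s : ℤ), s ≠ 0 ∧
      (e i : RO ℤ) = LaurentPolynomial.C s * LaurentPolynomial.T d := by
    intro i
    obtain ⟨d, s, hs, h2⟩ := (hU ℤ _).mp (e i).isUnit
    exact ⟨d, s, hs.ne_zero, h2⟩
  choose d s hs hes using hun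
  have hsh : ∀ i (F : RO ℤ) k, F.coeff k ≠ 0 → ((e i : RO ℤ) * F).coeff (k + d i) ≠ 0 := by
    intro i F k hF
    rw [hes i, CTmul_co]
    exact mul_ne_zero (hs i) hF
  -- ports
  have p10 : phi (r 1) j0 = 0 := (h.dis 0 1 (by decide) j0).resolve_left (by rw [h0]; norm_num)
  have p20 : phi (r 2) j0 = 0 := (h.dis 0 2 (by decide) j0).resolve_left (by rw [h0]; norm_num)
  have p01 : phi (r 0) j1 = 0 := (h.dis 1 0 (by decide) j1).resolve_left (by rw [h1]; norm_num)
  have p21 : phi (r 2) j1 = 0 := (h.dis 1 2 (by decide) j1).resolve_left (by rw [h1]; norm_num)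
  have pu0 : ∀ {u}, Fr phi r mu u → phi u j0 = 0 := fun {u} hu =>
    (hu.1 0 j0).resolve_right (by rw [h0]; norm_num)
  have pu1 : ∀ {u}, Fr phi r mu u → phi u j1 = 0 := fun {u} hu =>
    (hu.1 1 j1).resolve_right (by rw [h1]; norm_num)
  -- free exponents
  have s1 : ∀ u, Fr phi r mu u → ∀ k, ((G.coeff u).coeff k ≠ 0 ∨
      ((e 0 : RO ℤ) * G.coeff (u + r 0)).coeff k ≠ 0) → (q : ℤ) * k = lm u + q * n := by
    intro u hu k hk
    apply hz u (pu0 hu) (pu1 hu) k
    intro h2
    obtain ⟨h3, h4⟩ := t2co_u h hF1 hI hb he hu k h2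
    rcases hk with hk | hk
    · exact hk h3
    · exact hk h4
  have s2 : ∀ u, Fr phi r mu u → ∀ k, (((e 0 : RO ℤ) * G.coeff (u + r 0)).coeff k ≠ 0 ∨
      ((e 0 : RO ℤ) * ((e 1 : RO ℤ) * ((e 2 : RO ℤ) *
        G.coeff (u + r 2 + r 0 + r 1)))).coeff k ≠ 0) →
      (q : ℤ) * (k - d 2) = lm (u + r 2) + q * n := by
    intro u hu k hk
    apply hz (u + r 2)
    · rw [map_add, Pi.add_apply, pu0 hu, p20, add_zero]
    · rw [map_add, Pi.add_apply, pu1 hu, p21, add_zero]
    · intro h2
      have h5 : (bcR (e 2 : RO ℤ) * t2co et G r e (u + r 2)).coeff k = 0 := by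
        rw [hes 2, map_mul, bcR_C, bcR_T]
        have h6 := CTmul_co ((s 2 : ℤ) : Eis) (d 2) (t2co et G r e (u + r 2)) (k - d 2)
        rw [sub_add_cancel, h2, mul_zero] at h6
        exact h6
      obtain ⟨h3, h4⟩ := t2co_r h hF1 hI hb he hu k h5
      rcases hk with hk | hk
      · exact hk h3
      · exact hk h4
  have fr0 : Fr phi r mu 0 := by
    refine ⟨fun i q => Or.inl ?_, fun i => map_zero _⟩
    rw [map_zero]
    rfl
  have hr2 : lm (r 2) = -((q : ℤ) * d 2) := by
    obtain ⟨k, hk⟩ : ∃ k, ((e 0 : RO ℤ) * G.coeff (0 + r 0)).coeff k ≠ 0 := by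
      by_contra hcon
      push Not at hcon
      have h2 : (e 0 : RO ℤ) * G.coeff (0 + r 0) = 0 := by
        apply AddMonoidAlgebra.ext
        apply Finsupp.ext
        intro k
        exact hcon k
      rw [zero_add] at h2
      exact hB ((mul_eq_zero.mp h2).resolve_left (e 0).ne_zero)
    have h2 := s1 0 fr0 k (Or.inr hk)
    have h3 := s2 0 fr0 k (Or.inl hk)
    rw [zero_add] at h3
    rw [map_zero] at h2
    linear_combination h2 - h3
  have s3 : ∀ u, Fr phi r mu u → ∀ k, ((e 0 : RO ℤ) * ((e 1 : RO ℤ) * ((e 2 : RO ℤ) *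
        G.coeff (u + r 2 + r 0 + r 1)))).coeff k ≠ 0 → (q : ℤ) * k = lm u + q * n := by
    intro u hu k hk
    have h2 := s2 u hu k (Or.inr hk)
    rw [map_add, hr2] at h2
    linear_combination h2
  -- the functional
  obtain ⟨lm', hl⟩ : ∃ lm' : L →+ ℤ, ∀ b, lm' b = lm b - ((q : ℤ) * d 1 + lm (r 1)) * phi b j1 -
      ((q : ℤ) * d 0 + lm (r 0)) * phi b j0 :=
    ⟨lm - (AddMonoidHom.mulLeft ((q : ℤ) * d 1 + lm (r 1))).comp (co phi j1) -
      (AddMonoidHom.mulLeft ((q : ℤ) * d 0 + lm (r 0))).comp (co phi j0), fun b => rfl⟩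
  have hlu : ∀ u, Fr phi r mu u → lm' u = lm u := by
    intro u hu
    rw [hl, pu0 hu, pu1 hu]
    ring
  have hlr : ∀ i, lm' (r i) = -((q : ℤ) * d i) := by
    intro i
    rw [hl]
    rcases z3v i with rfl | rfl | rfl
    · rw [h0, p01]; ring
    · rw [h1, p10]; ring
    · rw [p20, p21, hr2]; ring
  refine ⟨q, lm', n, hq, fun b k hk => ?_⟩
  have hbs : b ∈ supp G := by
    intro h2
    apply hk
    change G.coeff b = 0 at h2
    rw [h2]
    rfl
  rcases h.nf hF1 hI hb hbs with h2 | ⟨i, u, hu, rfl⟩ | ⟨i, u, hu, rfl⟩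
  · -- all `mu` vanish
    obtain ⟨sb, hsb⟩ : ∃ sb, sb = phi b j1 := ⟨_, rfl⟩
    obtain ⟨tb, htb⟩ : ∃ tb, tb = phi b j0 := ⟨_, rfl⟩
    obtain ⟨x, hx⟩ : ∃ x, x = b - tb • r 0 - sb • r 1 := ⟨_, rfl⟩
    have hbx : x + tb • r 0 + sb • r 1 = b := by rw [hx]; abel
    have hx0 : phi x j0 = 0 := by
      simp only [hx, map_sub, map_zsmul, Pi.sub_apply, Pi.smul_apply, smul_eq_mul, h0, p10, ← htb]
      ring
    have hx1 : phi x j1 = 0 := by
      simp only [hx, map_sub, map_zsmul, Pi.sub_apply, Pi.smul_apply, smul_eq_mul, h1, p01, ← hsb]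
      ring
    have hlb : lm' b = lm x - (q : ℤ) * (tb * d 0 + sb * d 1) := by
      rw [← hbx, map_add, map_add, map_zsmul, map_zsmul, hlr, hlr, hl x, hx0, hx1, smul_eq_mul,
        smul_eq_mul]
      ring
    have hmb : ∀ i, mu i (x + tb • r 0 + sb • r 1) = 0 := by rw [hbx]; exact h2
    have hsb1 : sb = 0 ∨ sb = 1 := by rw [hsb]; exact hb b hbs j1
    have htb1 : tb = 0 ∨ tb = 1 := by rw [htb]; exact hb b hbs j0
    by_cases hex : Fr phi r mu x ∨ Fr phi r mu (x - r 2)
    · rcases hex with hu | hu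
      · obtain ⟨h3, h4⟩ := h.uniq (s' := 0) (t' := 0) hmb
          (by rw [zero_smul, zero_smul, add_zero, add_zero]; exact hu.2)
        rw [h3, h4, zero_smul, zero_smul, add_zero, add_zero] at hbx
        have h5 := s1 x hu k (Or.inl (by rw [hbx]; exact hk))
        rw [hlb, h3, h4]
        linear_combination h5
      · obtain ⟨u, rfl⟩ : ∃ u, x = u + r 2 := ⟨x - r 2, by abel⟩
        rw [add_sub_cancel_right] at hu
        obtain ⟨h3, h4⟩ := h.uniq (s' := 1) (t' := 1) hmb (by
          intro i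
          rw [one_smul, one_smul, map_add, map_add, map_add, hu.2 i, zero_add]
          rcases z3v i with rfl | rfl | rfl
          · have e1 : mu 0 (r 1) = 1 := h.nxt 0
            have e2 : mu 0 (r 2) = -1 := h.prv 0
            have e3 : mu 0 (r 0) = 0 := h.slf 0
            rw [e1, e2, e3]; norm_num
          · have e1 : mu 1 (r 2) = 1 := h.nxt 1
            have e2 : mu 1 (r 0) = -1 := h.prv 1
            have e3 : mu 1 (r 1) = 0 := h.slf 1
            rw [e1, e2, e3]; norm_num
          · have e1 : mu 2 (r 0) = 1 := h.nxt 2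
            have e2 : mu 2 (r 1) = -1 := h.prv 2
            have e3 : mu 2 (r 2) = 0 := h.slf 2
            rw [e1, e2, e3]; norm_num)
        subst h3 h4
        rw [one_smul, one_smul] at hbx
        have h5 := hsh 0 _ _ (hsh 1 _ _ (hsh 2 _ _ hk))
        rw [← hbx] at h5
        have h6 := s3 u hu _ h5
        rw [hlb, map_add, hr2]
        linear_combination h6
    · push Not at hex
      have hzz : ∀ s' t' : ℤ, G.coeff (x + s' • r 0 + t' • r 1) ≠ 0 → tb = s' ∧ sb = t' := by
        intro s' t' h3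
        apply h.uniq hmb
        by_contra hcon
        push Not at hcon
        rcases h.cls hF1 hI hb h0 h1 hx0 hx1 h3 hcon with h4 | h4
        · exact hex.1 h4
        · exact hex.2 h4
      have z00 : tb ≠ 0 ∨ sb ≠ 0 → G.coeff x = 0 := by
        intro h3
        by_contra h4
        have h5 := hzz 0 0 (by rw [zero_smul, zero_smul, add_zero, add_zero]; exact h4)
        rcases h3 with h3 | h3
        · exact h3 h5.1
        · exact h3 h5.2
      have z10 : tb ≠ 1 ∨ sb ≠ 0 → G.coeff (x + r 0) = 0 := by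
        intro h3
        by_contra h4
        have h5 := hzz 1 0 (by rw [one_smul, zero_smul, add_zero]; exact h4)
        rcases h3 with h3 | h3
        · exact h3 h5.1
        · exact h3 h5.2
      have z01 : tb ≠ 0 ∨ sb ≠ 1 → G.coeff (x + r 1) = 0 := by
        intro h3
        by_contra h4
        have h5 := hzz 0 1 (by rw [one_smul, zero_smul, add_zero]; exact h4)
        rcases h3 with h3 | h3
        · exact h3 h5.1
        · exact h3 h5.2
      have z11 : tb ≠ 1 ∨ sb ≠ 1 → G.coeff (x + r 0 + r 1) = 0 := by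
        intro h3
        by_contra h4
        have h5 := hzz 1 1 (by rw [one_smul, one_smul]; exact h4)
        rcases h3 with h3 | h3
        · exact h3 h5.1
        · exact h3 h5.2
      have hen := et_ne he
      have key := hz x hx0 hx1
      unfold t2co at key
      rcases htb1 with ht | ht <;> rcases hsb1 with hs' | hs'
      · rw [z10 (Or.inl (by rw [ht]; norm_num)), z01 (Or.inr (by rw [hs']; norm_num)),
          z11 (Or.inl (by rw [ht]; norm_num)), map_zero, mul_zero, mul_zero, mul_zero, add_zero,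
          add_zero, add_zero] at key
        rw [ht, hs', zero_smul, zero_smul, add_zero, add_zero] at hbx
        rw [hbx] at key
        have h5 := key k (by
          have := cb_co (c := 1) one_ne_zero hk
          rwa [map_one, one_mul] at this)
        rw [hlb, ht, hs', hbx]
        linear_combination h5
      · rw [z00 (Or.inr (by rw [hs']; norm_num)), z10 (Or.inl (by rw [ht]; norm_num)),
          z11 (Or.inl (by rw [ht]; norm_num)), map_zero, mul_zero, mul_zero, zero_add, add_zero,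
          add_zero] at key
        rw [ht, hs', zero_smul, one_smul, add_zero] at hbx
        rw [hbx] at key
        have h5 := key (k + d 1) (by
          have := cb_co hen (hsh 1 _ _ hk)
          rw [map_mul] at this
          rwa [mul_assoc])
        rw [hlb, ht, hs']
        linear_combination h5
      · rw [z00 (Or.inl (by rw [ht]; norm_num)), z01 (Or.inl (by rw [ht]; norm_num)),
          z11 (Or.inr (by rw [hs']; norm_num)), map_zero, mul_zero, mul_zero, zero_add, zero_add,
          add_zero] at key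
        rw [ht, hs', zero_smul, one_smul, add_zero] at hbx
        rw [hbx] at key
        have h5 := key (k + d 0) (by
          have := cb_co hen (hsh 0 _ _ hk)
          rw [map_mul] at this
          rwa [mul_assoc])
        rw [hlb, ht, hs']
        linear_combination h5
      · rw [z00 (Or.inl (by rw [ht]; norm_num)), z01 (Or.inl (by rw [ht]; norm_num)),
          z10 (Or.inr (by rw [hs']; norm_num)), map_zero, mul_zero, mul_zero, zero_add, zero_add,
          zero_add] at key
        rw [ht, hs', one_smul, one_smul] at hbx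
        rw [hbx] at key
        have h5 := key (k + d 1 + d 0) (by
          have := cb_co (mul_ne_zero hen hen) (hsh 0 _ _ (hsh 1 _ _ hk))
          rw [map_mul, map_mul, map_mul] at this
          have h6 : LaurentPolynomial.C et * bcR (e 0 : RO ℤ) *
              (LaurentPolynomial.C et * bcR (e 1 : RO ℤ)) * bcR (G.coeff b) =
              LaurentPolynomial.C et * LaurentPolynomial.C et *
                (bcR (e 0 : RO ℤ) * (bcR (e 1 : RO ℤ) * bcR (G.coeff b))) := by ring
          rwa [h6])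
        rw [hlb, ht, hs']
        linear_combination h5
  · have h3 := hsh i _ k hk
    rw [h.all_eq hF1 hI hb hu i 0] at h3
    have h4 := s1 u hu _ (Or.inr h3)
    rw [map_add, hlu u hu, hlr]
    linear_combination h4
  · have h3 := hsh (i + 1) _ _ (hsh (i - 1) _ k hk)
    rw [← mul_assoc, h.pair hF1 hI hb hu (z3g i) 0, neg_co, neg_ne_zero] at h3
    have h4 := s1 u hu _ (Or.inr h3)
    rw [map_add, map_add, hlu u hu, hlr, hlr]
    linear_combination h4

end

end Pool.Agent.B5.KO57
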